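import Pool.Agent.Lib.MP_d3b8e5_co.Leg

/-!
Walls, letters and the non-interleaving of chords.
-/

set_option autoImplicit false

namespace Pool.Agent.Lib.MP_d3b8e5_co

open Set Filter Pool.Agent.Shared.PlaneArcs

noncomputable def cnt (P : Finset ℝ) (x : ℝ) : ℕ := (P.filter (· < x)).card

noncomputable def wall (P : Finset ℝ) (x : ℝ) : ℕ := cnt P x % P.card

noncomputable def bit (P : Finset ℝ) (x y : ℝ) : ZMod 2 :=
  ind (x < y) + ind (cnt P x = P.card) + ind (cnt P y = P.card)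

lemma cnt_mono (P : Finset ℝ) {x y : ℝ} (h : x ≤ y) : cnt P x ≤ cnt P y :=
  Finset.card_le_card (Finset.monotone_filter_right P fun _ _ hq => lt_of_lt_of_le hq h)

lemma cnt_le (P : Finset ℝ) (x : ℝ) : cnt P x ≤ P.card := Finset.card_filter_le _ _

lemma wall_eq (P : Finset ℝ) (x : ℝ) :
    (cnt P x = P.card ∧ wall P x = 0) ∨ (cnt P x < P.card ∧ wall P x = cnt P x) := by
  rcases (cnt_le P x).eq_or_lt with h | h
  · left; exact ⟨h, by rw [wall, h, Nat.mod_self]⟩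
  · right; exact ⟨h, Nat.mod_eq_of_lt h⟩

lemma bit_of_ne (P : Finset ℝ) {x y : ℝ} (h : wall P x ≠ wall P y) :
    bit P x y = ind (wall P x < wall P y) := by
  have m1 : x ≤ y → cnt P x ≤ cnt P y := cnt_mono P
  have m2 : y ≤ x → cnt P y ≤ cnt P x := cnt_mono P
  unfold bit ind
  rcases wall_eq P x with ⟨a1, a2⟩ | ⟨a1, a2⟩ <;> rcases wall_eq P y with ⟨b1, b2⟩ | ⟨b1, b2⟩
  · omega
  · have : ¬ x < y := fun hxy => by have := m1 hxy.le; omega
    rw [if_neg this, if_pos a1, if_neg (by omega), if_pos (by omega)]; decide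
  · have : x < y := by
      by_contra hc
      have := m2 (not_lt.mp hc); omega
    rw [if_pos this, if_neg (by omega), if_pos b1, if_neg (by omega)]; decide
  · rw [if_neg a1.ne, if_neg b1.ne, add_zero, add_zero]
    by_cases hxy : x < y
    · have := m1 hxy.le
      rw [if_pos hxy, if_pos (by omega)]
    · have := m2 (not_lt.mp hxy)
      rw [if_neg hxy, if_neg (by omega)]

lemma NI.bits (P : Finset ℝ) {x x' y y' : ℝ} (h : NI x x' y y') :
    bit P x y + bit P x y' + bit P x' y + bit P x' y' = 0 := by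
  have := h.parity
  have h2 : (2 : ZMod 2) = 0 := rfl
  unfold bit
  linear_combination this + (ind (cnt P x = P.card) + ind (cnt P x' = P.card) +
    ind (cnt P y = P.card) + ind (cnt P y' = P.card)) * h2

lemma cnt_eq_of_close {P : Finset ℝ} {r y y' : ℝ} (h : ∀ q ∈ P, r ≤ |y - q|)
    (h' : ∀ q ∈ P, r ≤ |y' - q|) (hd : |y - y'| < 2 * r) : cnt P y = cnt P y' := by
  unfold cnt
  congr 1
  refine Finset.filter_congr fun q hq => ?_
  have a := le_abs'.mp (h q hq)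
  have b := le_abs'.mp (h' q hq)
  have c := abs_lt.mp hd
  constructor <;> intro hh <;> rcases a with a | a <;> rcases b with b | b <;>
    linarith [c.1, c.2]

lemma cnt_left {P : Finset ℝ} {r p ρ : ℝ} (hr : 0 < r)
    (hP : ∀ a ∈ P, ∀ b ∈ P, a ≠ b → 4 * r ≤ |a - b|) (hp : p ∈ P) (h0 : 0 < ρ) (h1 : ρ ≤ r) :
    cnt P (p - ρ) = cnt P p := by
  unfold cnt
  congr 1
  refine Finset.filter_congr fun q hq => ⟨fun h => by linarith, fun h => ?_⟩
  rcases le_abs'.mp (hP q hq p hp h.ne) with c | c <;> linarith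

lemma cnt_right {P : Finset ℝ} {r p ρ : ℝ} (hr : 0 < r)
    (hP : ∀ a ∈ P, ∀ b ∈ P, a ≠ b → 4 * r ≤ |a - b|) (hp : p ∈ P) (h0 : 0 < ρ) (h1 : ρ ≤ r) :
    cnt P (p + ρ) = cnt P p + 1 := by
  classical
  unfold cnt
  rw [← Finset.card_insert_of_notMem (a := p) (by simp)]
  congr 1
  ext q
  simp only [Finset.mem_filter, Finset.mem_insert]
  constructor
  · rintro ⟨hq, h⟩
    by_cases e : q = p
    · exact Or.inl e
    · refine Or.inr ⟨hq, ?_⟩
      rcases le_abs'.mp (hP q hq p hp e) with c | c <;> linarith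
  · rintro (rfl | ⟨hq, h⟩)
    · exact ⟨hp, by linarith⟩
    · exact ⟨hq, by linarith⟩

lemma cnt_lt_cnt {P : Finset ℝ} {p q : ℝ} (hp : p ∈ P) (h : p < q) : cnt P p < cnt P q := by
  apply Finset.card_lt_card
  refine ⟨Finset.monotone_filter_right P fun _ _ hq => lt_trans hq h, fun hc => ?_⟩
  have := hc (Finset.mem_filter.mpr ⟨hp, h⟩)
  simp at this

lemma cnt_lt_card {P : Finset ℝ} {p : ℝ} (hp : p ∈ P) : cnt P p < P.card :=
  lt_of_lt_of_le (cnt_lt_cnt hp (lt_add_one p)) (cnt_le P _)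

namespace Leg

variable {P : Finset ℝ} {r η : ℝ}

noncomputable def ℓ (e : Leg P r η) (k : ℕ) : ℕ := wall P (e.X k)

noncomputable def w (e : Leg P r η) : ℕ → W
  | 0 => 1
  | k + 1 => w e k * s (e.ℓ k)

lemma w_succ (e : Leg P r η) (k : ℕ) : e.w (k + 1) = e.w k * s (e.ℓ k) := rfl

lemma par_w (e : Leg P r η) (k : ℕ) : par (e.w k) = k := by
  induction k with
  | zero => simp [w]
  | succ k ih => rw [w_succ, par_mul, ih, par_s]; push_cast; rfl

lemma ℓ_lt (e : Leg P r η) (k : ℕ) : e.ℓ k < P.card :=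
  Nat.mod_lt _ (Finset.card_pos.mpr ⟨_, e.hp⟩)

lemma ℓ_tail (e : Leg P r η) (hr : 0 < r) (hP : ∀ a ∈ P, ∀ b ∈ P, a ≠ b → 4 * r ≤ |a - b|)
    {k : ℕ} (hk : e.K ≤ k) : (k % 2 = 0 ∧ e.ℓ k = cnt P e.p) ∨
      (k % 2 = 1 ∧ e.ℓ k = (cnt P e.p + 1) % P.card) := by
  have a1 := R_pos hr (e.τ_nonneg hr k)
  have a2 := R_le hr (e.τ_nonneg hr k)
  rcases sg_cases k with ⟨h1, h2⟩ | ⟨h1, h2⟩
  · left
    refine ⟨h1, ?_⟩
    rw [ℓ, e.X_of_le hk, h2, one_mul, wall, cnt_left hr hP e.hp a1 (by linarith)]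
    exact Nat.mod_eq_of_lt (cnt_lt_card e.hp)
  · right
    refine ⟨h1, ?_⟩
    rw [ℓ, e.X_of_le hk, h2, neg_one_mul, sub_neg_eq_add, wall,
      cnt_right hr hP e.hp a1 (by linarith)]

lemma succ_mod_cases {c m : ℕ} (h : c < m) :
    (c + 1 = m ∧ (c + 1) % m = 0) ∨ (c + 1 < m ∧ (c + 1) % m = c + 1) := by
  rcases (Nat.succ_le_of_lt h).eq_or_lt with h | h
  · left; exact ⟨h, by rw [show c + 1 = m from h, Nat.mod_self]⟩
  · right; exact ⟨h, Nat.mod_eq_of_lt h⟩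

lemma ℓ_eventually (e : Leg P r η) (hr : 0 < r)
    (hP : ∀ a ∈ P, ∀ b ∈ P, a ≠ b → 4 * r ≤ |a - b|) (hm : 3 ≤ P.card) :
    ∀ᶠ n in atTop, e.ℓ n ≠ e.ℓ (n + 1) := by
  refine eventually_atTop.mpr ⟨e.K, fun n hn => ?_⟩
  have h1 := e.ℓ_tail hr hP hn
  have h2 := e.ℓ_tail hr hP (show e.K ≤ n + 1 by omega)
  have h3 := succ_mod_cases (cnt_lt_card e.hp)
  omega

lemma sep (e f : Leg P r η) (hr : 0 < r)
    (hP : ∀ a ∈ P, ∀ b ∈ P, a ≠ b → 4 * r ≤ |a - b|) (hm : 3 ≤ P.card) (hp : e.p ≠ f.p) (c : W) :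
    ∃ n, dir f.w (ray (dir e.w) c n) ≠ dir e.w (ray (dir e.w) c n) := by
  refine dir_sep e.w f.w e.ℓ f.ℓ e.w_succ (e.ℓ_eventually hr hP hm) f.w_succ
    (f.ℓ_eventually hr hP hm) e.K f.K ?_ c
  intro a b a' b' ha hb ha' hb' h1 h2
  have t1 := e.ℓ_tail hr hP ha
  have t2 := e.ℓ_tail hr hP hb
  have t3 := f.ℓ_tail hr hP ha'
  have t4 := f.ℓ_tail hr hP hb'
  have h3 := succ_mod_cases (cnt_lt_card e.hp)
  have h4 := succ_mod_cases (cnt_lt_card f.hp)
  have h5 : cnt P e.p ≠ cnt P f.p := by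
    rcases lt_or_gt_of_ne hp with h | h
    · exact (cnt_lt_cnt e.hp h).ne
    · exact (cnt_lt_cnt f.hp h).ne'
  omega

lemma NI1 (e f : Leg P r η) (hr : 0 < r)
    (hP : ∀ a ∈ P, ∀ b ∈ P, a ≠ b → 4 * r ≤ |a - b|) {k l : ℕ} (hpar : k % 2 = l % 2)
    (hdisj : k + 1 ≤ e.K → l + 1 ≤ f.K → Disjoint (e.Ch (k + 1)) (f.Ch (l + 1)))
    (hne : e.K ≤ k → f.K ≤ l → e.γ (e.u (e.K + 1)) = f.γ (f.u (f.K + 1)) → k - e.K ≠ l - f.K) :
    NI (e.X k) (e.X (k + 1)) (f.X l) (f.X (l + 1)) := by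
  by_cases hk : e.K ≤ k
  · exact e.NI_spiral f hr hP hk hpar (hne hk)
  by_cases hl : f.K ≤ l
  · exact (f.NI_spiral e hr hP hl hpar.symm (fun h => absurd h hk)).symm
  have hk' : k + 1 ≤ e.K := by omega
  have hl' : l + 1 ≤ f.K := by omega
  have g : NI _ _ _ _ := not_interleaved (e.Ch_im _) (f.Ch_im _) (hdisj hk' hl')
    (e.joined_succ hk') (f.joined_succ hl')
  obtain ⟨n1, n2, n3, n4⟩ := g.ne
  exact g.transfer (e.order_pres f hr hP (by omega) (by omega) n1 (by omega))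
    (e.order_pres f hr hP (by omega) hl' n2 (by omega))
    (e.order_pres f hr hP hk' (by omega) n3 (by omega))
    (e.order_pres f hr hP hk' hl' n4 (by omega))

lemma NI2 (e e' f : Leg P r η) (hr : 0 < r)
    (hP : ∀ a ∈ P, ∀ b ∈ P, a ≠ b → 4 * r ≤ |a - b|) (h0 : e.γ 0 = e'.γ 0) {l : ℕ}
    (hpar : (l + 1) % 2 = 0)
    (hdisj : l + 1 ≤ f.K → Disjoint (e.Ch 0) (f.Ch (l + 1)) ∧ Disjoint (e'.Ch 0) (f.Ch (l + 1))) :
    NI (e.X 0) (e'.X 0) (f.X l) (f.X (l + 1)) := by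
  by_cases hl : f.K ≤ l
  · exact (NI.of_mul (mul_pos (f.spiral_end e hr hP hl (Nat.zero_le _) (fun _ => hpar))
      (f.spiral_end e' hr hP hl (Nat.zero_le _) (fun _ => hpar)))).symm
  have hl' : l + 1 ≤ f.K := by omega
  have g : NI _ _ _ _ := not_interleaved (S := e.Ch 0 ∪ e'.Ch 0)
    (fun z hz => hz.elim (e.Ch_im _ z) (e'.Ch_im _ z)) (f.Ch_im _)
    (disjoint_union_left.mpr (hdisj hl')) (e.joined_central e' h0) (f.joined_succ hl')
  obtain ⟨n1, n2, n3, n4⟩ := g.ne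
  exact g.transfer (e.order_pres f hr hP (by omega) (by omega) n1 (by omega))
    (e.order_pres f hr hP (by omega) hl' n2 (by omega))
    (e'.order_pres f hr hP (by omega) (by omega) n3 (by omega))
    (e'.order_pres f hr hP (by omega) hl' n4 (by omega))

lemma NI4 (e e' f f' : Leg P r η) (hr : 0 < r)
    (hP : ∀ a ∈ P, ∀ b ∈ P, a ≠ b → 4 * r ≤ |a - b|) (h0 : e.γ 0 = e'.γ 0) (h1 : f.γ 0 = f'.γ 0)
    (d1 : Disjoint (e.Ch 0) (f.Ch 0)) (d2 : Disjoint (e.Ch 0) (f'.Ch 0))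
    (d3 : Disjoint (e'.Ch 0) (f.Ch 0)) (d4 : Disjoint (e'.Ch 0) (f'.Ch 0)) :
    NI (e.X 0) (e'.X 0) (f.X 0) (f'.X 0) := by
  have g : NI _ _ _ _ := not_interleaved (S := e.Ch 0 ∪ e'.Ch 0) (T := f.Ch 0 ∪ f'.Ch 0)
    (fun z hz => hz.elim (e.Ch_im _ z) (e'.Ch_im _ z))
    (fun z hz => hz.elim (f.Ch_im _ z) (f'.Ch_im _ z))
    (disjoint_union_left.mpr ⟨disjoint_union_right.mpr ⟨d1, d2⟩, disjoint_union_right.mpr ⟨d3, d4⟩⟩)
    (e.joined_central e' h0) (f.joined_central f' h1)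
  obtain ⟨n1, n2, n3, n4⟩ := g.ne
  exact g.transfer (e.order_pres f hr hP (by omega) (by omega) n1 (by omega))
    (e.order_pres f' hr hP (by omega) (by omega) n2 (by omega))
    (e'.order_pres f hr hP (by omega) (by omega) n3 (by omega))
    (e'.order_pres f' hr hP (by omega) (by omega) n4 (by omega))

/-- Two parameters with no real point of the leg between them lie in the same chord. -/
lemma chord_unique (e : Leg P r η) {k l : ℕ} (hk : k ≤ e.K) (hl : l ≤ e.K) {a b : ℝ}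
    (ha : a ∈ Icc (e.u k) (e.u (k + 1))) (hb : b ∈ Icc (e.u l) (e.u (l + 1)))
    (h : ∀ t ∈ uIcc a b, (e.γ t).im ≠ 0) : k = l := by
  have aux : ∀ {k l : ℕ} {a b : ℝ}, l ≤ e.K → a ∈ Icc (e.u k) (e.u (k + 1)) →
      b ∈ Icc (e.u l) (e.u (l + 1)) → (∀ t ∈ uIcc a b, (e.γ t).im ≠ 0) → ¬ k < l := by
    intro k l a b hl ha hb h hkl
    have := e.u_le (show k + 1 ≤ l from hkl) (by omega)
    exact h (e.u (k + 1)) (mem_uIcc.mpr (Or.inl ⟨ha.2, this.trans hb.1⟩)) (e.real k (by omega))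
  have h1 := aux hl ha hb h
  have h2 := aux hk hb ha (by rwa [uIcc_comm])
  omega

/-- Two chords of the same parity joined by a short piece of the leg lie in the same chamber. -/
lemma w_eq_of_short (e : Leg P r η) {k l : ℕ} (hk : k ≤ e.K) (hl : l ≤ e.K) {a b : ℝ}
    (ha : a ∈ Icc (e.u k) (e.u (k + 1))) (hb : b ∈ Icc (e.u l) (e.u (l + 1)))
    (hpar : k % 2 = l % 2)
    (h : ∀ t ∈ uIcc a b, ∀ t' ∈ uIcc a b, dist (e.γ t) (e.γ t') < 2 * r) : e.w k = e.w l := by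
  have aux : ∀ {k l : ℕ} {a b : ℝ}, l ≤ e.K → a ∈ Icc (e.u k) (e.u (k + 1)) →
      b ∈ Icc (e.u l) (e.u (l + 1)) → k % 2 = l % 2 →
      (∀ t ∈ uIcc a b, ∀ t' ∈ uIcc a b, dist (e.γ t) (e.γ t') < 2 * r) → k ≤ l →
      e.w k = e.w l := by
    intro k l a b hl ha hb hpar h hkl
    have mem : ∀ j, k ≤ j → j < l → e.u (j + 1) ∈ uIcc a b := fun j h1 h2 =>
      mem_uIcc.mpr (Or.inl ⟨ha.2.trans (e.u_le (by omega) (by omega)),
        (e.u_le (show j + 1 ≤ l from h2) (by omega)).trans hb.1⟩)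
    have let_eq : ∀ j, k ≤ j → j < l → e.ℓ j = e.ℓ k := by
      intro j h1 h2
      have hj : j < e.K := by omega
      have hk : k < e.K := by omega
      unfold ℓ wall
      rw [e.X_of_lt hj, e.X_of_lt hk, cnt_eq_of_close (fun q hq => e.gpos_far hj hq)
        (fun q hq => e.gpos_far hk hq)]
      refine lt_of_le_of_lt ?_ (h _ (mem j h1 h2) _ (mem k le_rfl (by omega)))
      rw [Complex.dist_eq]
      exact Complex.abs_re_le_norm (e.γ (e.u (j + 1)) - e.γ (e.u (k + 1)))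
    obtain ⟨d, rfl⟩ : ∃ d, l = k + 2 * d := ⟨(l - k) / 2, by omega⟩
    clear hpar hkl mem hb hl
    induction d with
    | zero => rfl
    | succ d ih =>
      have e1 : k + 2 * (d + 1) = k + 2 * d + 1 + 1 := by ring
      rw [e1, w_succ, w_succ, let_eq (k + 2 * d + 1) (by omega) (by omega),
        let_eq (k + 2 * d) (by omega) (by omega), mul_s_mul_s]
      exact ih fun j h1 h2 => let_eq j h1 (by omega)
  rcases le_total k l with c | c
  · exact aux hl ha hb hpar h c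
  · exact (aux hk hb ha hpar.symm (by rwa [uIcc_comm]) c).symm

end Leg

end Pool.Agent.Lib.MP_d3b8e5_co
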