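import Pool.Agent.Lib.MP_d3b8e5_co.Exist

/-!
The counting argument for a system of legs, and its geometric input.
-/

set_option autoImplicit false

namespace Pool.Agent.Lib.MP_d3b8e5_co

open Set Filter

lemma turan_ineq (N k : ℕ) : 2 * k * N ≤ (N * N - N) + k * (k + 1) := by
  have h : N ≤ N * N := Nat.le_mul_self N
  zify [h]
  rcases le_total (N : ℤ) k with c | c
  · nlinarith [mul_nonneg (sub_nonneg.mpr c) (show (0 : ℤ) ≤ k - N + 1 by linarith)]
  · rcases c.eq_or_lt with c | c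
    · rw [← c]; nlinarith
    · nlinarith [mul_nonneg (sub_nonneg.mpr c.le) (show (0 : ℤ) ≤ N - k - 1 by linarith)]

/-- The abstract counting theorem. -/
theorem count_abstract {E B κ : Type} [Fintype E] [Fintype B] (m : ℕ) (ctr : E → B)
    (D : E → W → ℕ) (hD : ∀ a c i, D a (c * s i) = i ↔ D a c ≠ i)
    (hsep : ∀ a b, ctr a = ctr b → a ≠ b → ∀ c, ∃ n, D b (ray (D a) c n) ≠ D a (ray (D a) c n))
    (hlt : ∀ a b c, D a c ≠ D b c → ∀ e, D e c < m)
    (Cr : Finset κ) (f1 f2 : κ → E) (lab : κ → W)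
    (tri : ∀ (a b : Fin 3 → E) (u v : B) (g c : W) (l : ℕ), (∀ i, ctr (a i) = u) →
      (∀ i, ctr (b i) = v) → par g = 0 → (u ≠ v ∨ g ≠ 1) →
      (∀ i j, ∀ x ∈ Cr, f1 x = a i → f2 x = b j → lab x ≠ g) →
      D (a 0) c < l → D (a 1) c = l → l < D (a 2) c →
      D (b 0) (g⁻¹ * c) < l → D (b 1) (g⁻¹ * c) = l → l < D (b 2) (g⁻¹ * c) → False) (k : ℕ) :
    2 * k * Fintype.card E ≤ Cr.card + 4 * k * Fintype.card B + 2 * (m - 2) * (k * (k + 1)) := by
  classical
  have hD' : ∀ a c i, D a c ≠ i → D a (c * s i) = i := fun a c i h => (hD a c i).mpr h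
  set star : B → Finset E := fun v => Finset.univ.filter (fun e => ctr e = v) with hstar
  have mem_star : ∀ v e, e ∈ star v ↔ ctr e = v := by simp [hstar]
  have pair : ∀ u v g, par g = 0 → (u ≠ v ∨ g ≠ 1) →
      {p | p ∈ units D (star u) ∧ (g⁻¹ * p.1, p.2) ∈ units D (star v)}.encard ≤
        (Cr.filter fun x => (ctr (f1 x), ctr (f2 x), lab x) = (u, v, g)).card := by
    intro u v g hg huv
    set Y := Cr.filter fun x => (ctr (f1 x), ctr (f2 x), lab x) = (u, v, g) with hY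
    set T := Y.image f1 with hT
    have sub : {p | p ∈ units D (star u) ∧ (g⁻¹ * p.1, p.2) ∈ units D (star v)} ⊆
        units D (((star u : Set E) \ T) ∪ T) \ units D ((star u : Set E) \ T) := by
      rintro p ⟨h1, h2⟩
      refine ⟨units_mono D (by rw [sdiff_union_self]; exact subset_union_left) h1, fun h3 => ?_⟩
      obtain ⟨⟨a0, ha0, x0⟩, ⟨a1, ha1, x1⟩, ⟨a2, ha2, x2⟩⟩ := h3
      obtain ⟨⟨b0, hb0, y0⟩, ⟨b1, hb1, y1⟩, ⟨b2, hb2, y2⟩⟩ := h2
      have ha : ∀ i, (![a0, a1, a2] : Fin 3 → E) i ∈ (star u : Set E) \ T := by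
        intro i; fin_cases i <;> assumption
      have hb : ∀ i, (![b0, b1, b2] : Fin 3 → E) i ∈ (star v : Set E) := by
        intro i; fin_cases i <;> assumption
      refine tri ![a0, a1, a2] ![b0, b1, b2] u v g p.1 p.2 (fun i => (mem_star _ _).mp (ha i).1)
        (fun i => (mem_star _ _).mp (hb i)) hg huv ?_ x0 x1 x2 y0 y1 y2
      intro i j x hx e1 e2 e3
      apply (ha i).2
      refine Finset.mem_coe.mpr (Finset.mem_image.mpr ⟨x, Finset.mem_filter.mpr ⟨hx, ?_⟩, e1⟩)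
      rw [e1, e2, e3, (mem_star _ _).mp (ha i).1, (mem_star _ _).mp (hb j)]
    refine (encard_le_encard sub).trans ((units_diff_encard hD' _ T).trans ?_)
    exact_mod_cast Finset.card_image_le
  set Uv : B → Finset (W × ℕ) := fun v => (units_finite hD' (star v)).toFinset with hUv
  have mem_Uv : ∀ v p, p ∈ Uv v ↔ p ∈ units D (star v) := by simp [hUv]
  set U : Finset (Σ _ : B, W × ℕ) := Finset.univ.sigma Uv with hU
  have mem_U : ∀ x : Σ _ : B, W × ℕ, x ∈ U ↔ x.2 ∈ units D (star x.1) := by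
    intro x; simp [hU, mem_Uv]
  have cardU : Fintype.card E ≤ U.card + 2 * Fintype.card B := by
    rw [hU, Finset.card_sigma, ← Finset.card_univ, ← Finset.card_univ,
      Finset.card_eq_sum_card_fiberwise (f := ctr) (t := Finset.univ) (fun _ _ => by simp),
      mul_comm, ← smul_eq_mul, ← Finset.sum_const, ← Finset.sum_add_distrib]
    refine Finset.sum_le_sum fun v _ => ?_
    have := card_le_units hD (star v) (fun a ha b hb => hsep a b (by
      rw [(mem_star _ _).mp ha, (mem_star _ _).mp hb]))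
    rwa [ncard_eq_toFinset_card _ (units_finite hD' (star v))] at this
  set col : (Σ _ : B, W × ℕ) → ZMod 2 × ℕ := fun x => (par x.2.1, x.2.2) with hcol
  set J : Finset (ZMod 2 × ℕ) := Finset.univ ×ˢ Finset.Ioo 0 (m - 1) with hJ
  have hJc : J.card = 2 * (m - 2) := by
    rw [hJ, Finset.card_product, Finset.card_univ, ZMod.card, Nat.card_Ioo]
    omega
  have colJ : ∀ x ∈ U, col x ∈ J := by
    intro x hx
    obtain ⟨⟨a0, -, x0⟩, ⟨a1, -, x1⟩, ⟨a2, -, x2⟩⟩ := (mem_U x).mp hx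
    have := hlt a0 a1 x.2.1 (by omega) a2
    simp only [hJ, hcol, Finset.mem_product, Finset.mem_univ, Finset.mem_Ioo, true_and]
    omega
  set Pr := U.offDiag.filter fun y => col y.1 = col y.2 with hPr
  have cardPr : Pr.card = ∑ j ∈ J, ((U.filter fun x => col x = j).card *
      (U.filter fun x => col x = j).card - (U.filter fun x => col x = j).card) := by
    rw [Finset.card_eq_sum_card_fiberwise (f := fun y => col y.1) (t := J) (fun y hy =>
      colJ _ (Finset.mem_offDiag.mp (Finset.mem_filter.mp hy).1).1)]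
    refine Finset.sum_congr rfl fun j _ => ?_
    rw [← Finset.offDiag_card]
    congr 1
    ext y
    simp only [Finset.mem_filter, Finset.mem_offDiag]
    constructor
    · rintro ⟨⟨⟨h1, h2, h3⟩, h4⟩, h5⟩
      exact ⟨⟨h1, h5⟩, ⟨h2, h4 ▸ h5⟩, h3⟩
    · rintro ⟨⟨h1, h5⟩, ⟨h2, h4⟩, h3⟩
      exact ⟨⟨⟨h1, h2, h3⟩, h5.trans h4.symm⟩, h5⟩
  have lower : 2 * k * U.card ≤ Pr.card + 2 * (m - 2) * (k * (k + 1)) := by
    rw [cardPr, Finset.card_eq_sum_card_fiberwise (f := col) (t := J) colJ, Finset.mul_sum,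
      ← hJc, ← smul_eq_mul J.card, ← Finset.sum_const, ← Finset.sum_add_distrib]
    exact Finset.sum_le_sum fun j _ => turan_ineq _ _
  have upper : Pr.card ≤ Cr.card := by
    set key : (Σ _ : B, W × ℕ) × (Σ _ : B, W × ℕ) → B × B × W :=
      fun y => (y.1.1, y.2.1, y.1.2.1 * (y.2.2.1)⁻¹) with hkey
    rw [Finset.card_eq_sum_card_image key]
    refine le_trans (Finset.sum_le_sum (g := fun τ => (Cr.filter fun x =>
      (ctr (f1 x), ctr (f2 x), lab x) = τ).card) fun τ hτ => ?_) ?_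
    · obtain ⟨y0, hy0, rfl⟩ := Finset.mem_image.mp hτ
      obtain ⟨hy1, hy2⟩ := Finset.mem_filter.mp hy0
      obtain ⟨-, -, hy3⟩ := Finset.mem_offDiag.mp hy1
      simp only [hcol, Prod.mk.injEq] at hy2
      have hg : par (y0.1.2.1 * (y0.2.2.1)⁻¹) = 0 := by
        rw [par_mul, par_inv, hy2.1, CharTwo.add_self_eq_zero]
      have huv : y0.1.1 ≠ y0.2.1 ∨ y0.1.2.1 * (y0.2.2.1)⁻¹ ≠ 1 := by
        by_contra hc
        push Not at hc
        apply hy3
        obtain ⟨⟨u, c, l⟩, ⟨v, c', l'⟩⟩ := y0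
        simp only at hc hy2 ⊢
        rw [hc.1, mul_inv_eq_one.mp hc.2, hy2.2]
      have h1 := pair _ _ _ hg huv
      have h2 : (↑(Pr.filter fun y => key y = key y0) :
          Set ((Σ _ : B, W × ℕ) × (Σ _ : B, W × ℕ))).encard ≤
          {p | p ∈ units D (star y0.1.1) ∧ ((y0.1.2.1 * (y0.2.2.1)⁻¹)⁻¹ * p.1, p.2) ∈
            units D (star y0.2.1)}.encard := by
        refine encard_le_encard_of_injOn (f := fun y => y.1.2) ?_ ?_
        · intro y hy
          obtain ⟨hz0, hz⟩ := Finset.mem_filter.mp (Finset.mem_coe.mp hy)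
          obtain ⟨hz1, hz2⟩ := Finset.mem_filter.mp hz0
          obtain ⟨hz3, hz4, -⟩ := Finset.mem_offDiag.mp hz1
          simp only [hkey, hcol, Prod.mk.injEq] at hz hz2
          refine ⟨hz.1 ▸ (mem_U _).mp hz3, ?_⟩
          rw [← hz.2.1, ← hz.2.2, hz2.2]
          simpa using (mem_U _).mp hz4
        · intro y hy y' hy' hyy
          obtain ⟨hz0, hz⟩ := Finset.mem_filter.mp (Finset.mem_coe.mp hy)
          obtain ⟨hz0', hz'⟩ := Finset.mem_filter.mp (Finset.mem_coe.mp hy')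
          have hz2 := (Finset.mem_filter.mp hz0).2
          have hz2' := (Finset.mem_filter.mp hz0').2
          rw [← hz'] at hz
          obtain ⟨⟨u, c, l⟩, ⟨v, c', l'⟩⟩ := y
          obtain ⟨⟨u2, c2, l2⟩, ⟨v2, c2', l2'⟩⟩ := y'
          simp only [hkey, hcol, Prod.mk.injEq] at hz hz2 hz2' hyy
          obtain ⟨rfl, rfl, h3⟩ := hz
          obtain ⟨rfl, rfl⟩ := hyy
          obtain ⟨-, rfl⟩ := hz2
          obtain ⟨-, rfl⟩ := hz2'
          rw [mul_right_inj, inv_inj] at h3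
          rw [h3]
      rw [encard_coe_eq_coe_finsetCard] at h2
      exact_mod_cast h2.trans h1
    · rw [Finset.sum_card_fiberwise_eq_card_filter]
      exact Finset.card_filter_le _ _
  nlinarith

end Pool.Agent.Lib.MP_d3b8e5_co
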