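import Mathlib

set_option autoImplicit false

namespace Pool.Agent.Lib.MP_d3b8e5_co

/-- A drawing of a simple graph in the plane `ℂ`: the vertices are distinct points, every edge is
a simple arc joining the points of its two ends, and no arc passes through a vertex except at its
two end points. -/
structure Drawing {V : Type} (G : SimpleGraph V) where
  pos : V → ℂ
  arc : G.edgeSet → unitInterval → ℂ
  pos_inj : Function.Injective pos
  arc_cont : ∀ e, Continuous (arc e)
  arc_inj : ∀ e, Function.Injective (arc e)
  arc_ends : ∀ e : G.edgeSet, ∃ u v, (e : Sym2 V) = s(u, v) ∧ arc e 0 = pos u ∧ arc e 1 = pos v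
  arc_avoid : ∀ e t w, t ≠ 0 → t ≠ 1 → arc e t ≠ pos w

/-- The crossings of a drawing: an unordered pair of distinct edges together with a point that is
an inner point of both arcs. -/
def Drawing.crossings {V : Type} {G : SimpleGraph V} (D : Drawing G) :
    Set (Sym2 G.edgeSet × ℂ) :=
  {c | ¬ c.1.IsDiag ∧ ∀ e ∈ c.1, ∃ t, t ≠ 0 ∧ t ≠ 1 ∧ D.arc e t = c.2}

/-- The crossing number: the least number of crossings over all drawings. -/
noncomputable def cr {V : Type} (G : SimpleGraph V) : ℕ∞ :=
  ⨅ D : Drawing G, D.crossings.encard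

/-- The biplanar crossing number. -/
noncomputable def cr₂ {V : Type} (G : SimpleGraph V) : ℕ∞ :=
  ⨅ (G₁ : SimpleGraph V) (G₂ : SimpleGraph V) (_ : G₁ ⊔ G₂ = G), cr G₁ + cr G₂

end Pool.Agent.Lib.MP_d3b8e5_co
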