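import Pool.Agent.Lib.MP_d3b8e5_co.Chords

/-!
Existence of the chord decomposition and the compactness lemmas.
-/

set_option autoImplicit false

namespace Pool.Agent.Lib.MP_d3b8e5_co

open Set Filter

def QQ (γ : ℝ → ℂ) (η : ℝ) (K : ℕ) (u : ℕ → ℝ) (τ : ℝ) : Prop :=
  u 0 = 0 ∧ u (K + 1) = τ ∧ (∀ k ≤ K, u k ≤ u (k + 1)) ∧ (∀ k < K, (γ (u (k + 1))).im = 0) ∧
    ∀ k ≤ K, ∀ t ∈ Icc (u k) (u (k + 1)), -η < sg k * (γ t).im

lemma QQ.ext1 {γ : ℝ → ℂ} {η : ℝ} {K : ℕ} {u : ℕ → ℝ} {τ v : ℝ} (h : QQ γ η K u τ) (hv : τ ≤ v)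
    (hs : ∀ t ∈ Icc τ v, -η < sg K * (γ t).im) : QQ γ η K (Function.update u (K + 1) v) v := by
  obtain ⟨h0, h1, h2, h3, h4⟩ := h
  have a : ∀ k ≤ K, Function.update u (K + 1) v k = u k := fun k hk =>
    Function.update_of_ne (by omega) _ _
  refine ⟨by rw [a 0 (by omega), h0], by simp, fun k hk => ?_, fun k hk => ?_, fun k hk t ht => ?_⟩
  · rcases hk.lt_or_eq with c | c
    · rw [a k hk, a (k + 1) c]; exact h2 k hk
    · subst c
      rw [a k hk, Function.update_self]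
      exact (h2 k hk).trans (h1 ▸ hv)
  · rw [a (k + 1) hk]; exact h3 k hk
  · rcases hk.lt_or_eq with c | c
    · rw [a k hk, a (k + 1) c] at ht; exact h4 k hk t ht
    · subst c
      rw [a k hk, Function.update_self] at ht
      rcases le_total t τ with d | d
      · exact h4 k hk t ⟨ht.1, h1 ▸ d⟩
      · exact hs t ⟨d, ht.2⟩

lemma QQ.ext2 {γ : ℝ → ℂ} {η : ℝ} {K : ℕ} {u : ℕ → ℝ} {τ v : ℝ} (h : QQ γ η K u v) (hv : v ≤ τ)
    (hz : (γ v).im = 0) (hs : ∀ t ∈ Icc v τ, -η < sg (K + 1) * (γ t).im) :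
    QQ γ η (K + 1) (Function.update u (K + 2) τ) τ := by
  obtain ⟨h0, h1, h2, h3, h4⟩ := h
  have a : ∀ k ≤ K + 1, Function.update u (K + 2) τ k = u k := fun k hk =>
    Function.update_of_ne (by omega) _ _
  refine ⟨by rw [a 0 (by omega), h0], by simp, fun k hk => ?_, fun k hk => ?_, fun k hk t ht => ?_⟩
  · rcases hk.lt_or_eq with c | c
    · rw [a k hk, a (k + 1) c]; exact h2 k (by omega)
    · subst c
      rw [a _ hk, Function.update_self, h1]; exact hv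
  · rw [a (k + 1) hk]
    rcases (show k ≤ K by omega).lt_or_eq with c | c
    · exact h3 k c
    · subst c; rw [h1, hz]
  · rcases hk.lt_or_eq with c | c
    · rw [a k hk, a (k + 1) c] at ht; exact h4 k (by omega) t ht
    · subst c
      rw [a _ hk, Function.update_self, h1] at ht
      exact hs t ht

lemma exists_chords (γ : ℝ → ℂ) (hγ : Continuous γ) {η T : ℝ} (hη : 0 < η) (hT : 0 ≤ T)
    (h0 : 0 ≤ (γ 0).im) : ∃ K u, QQ γ η K u T ∧ (K % 2 = 0 → 0 ≤ (γ T).im) ∧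
      (K % 2 = 1 → (γ T).im < 0) := by
  have hc : Continuous fun t => (γ t).im := Complex.continuous_im.comp hγ
  obtain ⟨δ, hδ, hu⟩ := Metric.uniformContinuousOn_iff_le.mp
    (isCompact_Icc.uniformContinuousOn_of_continuous (hc.continuousOn (s := Icc 0 T)))
    (η / 2) (by linarith)
  have main : ∀ n : ℕ, ∀ τ ∈ Icc 0 T, τ ≤ n * δ → ∃ K u, QQ γ η K u τ ∧
      (K % 2 = 0 → 0 ≤ (γ τ).im) ∧ (K % 2 = 1 → (γ τ).im < 0) := by
    intro n
    induction n with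
    | zero =>
      intro τ hτ h
      have : τ = 0 := le_antisymm (by simpa using h) hτ.1
      subst this
      refine ⟨0, fun _ => 0, ⟨rfl, rfl, fun _ _ => le_rfl, fun k hk => by omega, ?_⟩,
        fun _ => h0, fun h => by omega⟩
      intro k hk t ht
      have : k = 0 := by omega
      subst this
      have : t = 0 := le_antisymm ht.2 ht.1
      subst this
      simp only [sg, Nat.zero_mod, if_true, one_mul]
      linarith
    | succ n ih =>
      intro τ hτ h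
      by_cases c : τ ≤ n * δ
      · exact ih τ hτ c
      push Not at c
      have hn0 : (0 : ℝ) ≤ n * δ := by positivity
      obtain ⟨K, u, hQ, e0, e1⟩ := ih (n * δ) ⟨hn0, c.le.trans hτ.2⟩ le_rfl
      push_cast at h
      have close : ∀ a ∈ Icc (n * δ) τ, ∀ b ∈ Icc (n * δ) τ, |(γ a).im - (γ b).im| < η := by
        intro a ha b hb
        have := hu a ⟨hn0.trans ha.1, ha.2.trans hτ.2⟩ b ⟨hn0.trans hb.1, hb.2.trans hτ.2⟩ (by
          rw [Real.dist_eq, abs_le]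
          constructor <;> linarith [ha.1, ha.2, hb.1, hb.2])
        rw [Real.dist_eq] at this
        linarith
      have sd : ∀ t ∈ Icc (n * δ) τ, -η < sg K * (γ t).im := by
        intro t ht
        have := abs_lt.mp (close t ht (n * δ) ⟨le_rfl, c.le⟩)
        rcases sg_cases K with ⟨k1, k2⟩ | ⟨k1, k2⟩ <;> rw [k2]
        · linarith [e0 k1, this.1]
        · linarith [e1 k1, this.2]
      by_cases same : (K % 2 = 0 → 0 ≤ (γ τ).im) ∧ (K % 2 = 1 → (γ τ).im < 0)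
      · exact ⟨K, _, hQ.ext1 c.le sd, same⟩
      obtain ⟨v, hv, hz⟩ : ∃ v ∈ Icc (n * δ) τ, (γ v).im = 0 := by
        rcases Nat.mod_two_eq_zero_or_one K with k1 | k1
        · have : (γ τ).im < 0 := by
            by_contra hh
            exact same ⟨fun _ => not_lt.mp hh, fun h => by omega⟩
          exact intermediate_value_Icc' c.le hc.continuousOn ⟨this.le, e0 k1⟩
        · have : 0 ≤ (γ τ).im := by
            by_contra hh
            exact same ⟨fun h => by omega, fun _ => not_le.mp hh⟩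
          exact intermediate_value_Icc c.le hc.continuousOn ⟨(e1 k1).le, this⟩
      refine ⟨K + 1, _, (hQ.ext1 hv.1 fun t ht => sd t ⟨ht.1, ht.2.trans hv.2⟩).ext2 hv.2 hz ?_,
        fun h => ?_, fun h => ?_⟩
      · intro t ht
        have h1 := close t ⟨hv.1.trans ht.1, ht.2⟩ v hv
        rw [hz, sub_zero, ← abs_sg_mul (K + 1)] at h1
        exact (abs_lt.mp h1).1
      · by_contra hh
        exact same ⟨fun h => by omega, fun _ => not_le.mp hh⟩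
      · by_contra hh
        exact same ⟨fun _ => not_lt.mp hh, fun h => by omega⟩
  obtain ⟨n, hn⟩ := exists_nat_ge (T / δ)
  exact main n T ⟨hT, le_rfl⟩ (by rwa [div_le_iff₀ hδ] at hn)

lemma exists_first_hit (f : ℝ → ℝ) (hf : Continuous f) {r : ℝ} (h0 : r ≤ f 0) (h1 : f 1 ≤ r) :
    ∃ T ∈ Icc (0 : ℝ) 1, f T = r ∧ ∀ t ∈ Icc 0 T, r ≤ f t := by
  have hc : IsCompact (Icc (0 : ℝ) 1 ∩ {t | f t ≤ r}) :=
    isCompact_Icc.inter_right (isClosed_le hf continuous_const)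
  obtain ⟨T, ⟨hT, hT'⟩, hmin⟩ := hc.exists_isLeast ⟨1, ⟨zero_le_one, le_rfl⟩, h1⟩
  have key : ∀ t ∈ Icc 0 T, r ≤ f t := by
    intro t ht
    by_contra hh
    obtain ⟨v, hv, hvr⟩ := intermediate_value_Icc' ht.1 hf.continuousOn ⟨(not_le.mp hh).le, h0⟩
    have h2 : T ≤ v := hmin ⟨⟨hv.1, hv.2.trans (ht.2.trans hT.2)⟩, hvr.le⟩
    have : t = v := le_antisymm (ht.2.trans h2) hv.2
    rw [this, hvr] at hh
    exact hh le_rfl
  exact ⟨T, hT, le_antisymm hT' (key T ⟨hT.1, le_rfl⟩), key⟩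

lemma exists_leg {P : Finset ℝ} {r η : ℝ} (hr : 0 < r) (hr1 : r ≤ 1) (hη : 0 < η) (γ : ℝ → ℂ)
    (hγ : Continuous γ) {p : ℝ} (hp : p ∈ P) (h0 : (γ 0).im = 1) (h1 : γ 1 = p)
    (hout : ∀ t ∈ Icc (0 : ℝ) 1, ∀ q ∈ P, q ≠ p → r ≤ |(γ t).re - q| + |(γ t).im|) :
    ∃ e : Leg P r η, e.γ = γ ∧ e.p = p ∧ e.u (e.K + 1) ≤ 1 := by
  obtain ⟨T, hT, hTr, hTo⟩ := exists_first_hit (fun t => |(γ t).re - p| + |(γ t).im|)
    (by fun_prop) (r := r) (by
      simp only [h0, abs_one]; linarith [abs_nonneg ((γ 0).re - p)]) (by simp [h1, hr.le])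
  obtain ⟨K, u, ⟨q0, q1, q2, q3, q4⟩, e0, e1⟩ := exists_chords γ hγ hη hT.1 (by rw [h0]; norm_num)
  refine ⟨⟨γ, hγ, p, hp, K, u, q0, q2, q3, q4, by rwa [q1], by rwa [q1], ?_, by rwa [q1]⟩,
    rfl, rfl, by simpa [q1] using hT.2⟩
  intro t ht q hq
  rw [q1] at ht
  by_cases c : q = p
  · rw [c]; exact hTo t ht
  · exact hout t ⟨ht.1, ht.2.trans hT.2⟩ q hq c

lemma near_coincidence (α β : ℝ → ℂ) (hα : Continuous α) (hβ : Continuous β) {lam : ℝ}
    (hl : 0 < lam) : ∃ δ > 0, ∀ a ∈ Icc (0 : ℝ) 1, ∀ b ∈ Icc (0 : ℝ) 1, dist (α a) (β b) < δ →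
      ∃ a0 ∈ Icc (0 : ℝ) 1, ∃ b0 ∈ Icc (0 : ℝ) 1, α a0 = β b0 ∧ |a - a0| < lam ∧ |b - b0| < lam := by
  set S : Set (ℝ × ℝ) := (Icc 0 1 ×ˢ Icc 0 1) ∩ ⋂ q ∈ {q : ℝ × ℝ | q.1 ∈ Icc (0 : ℝ) 1 ∧
    q.2 ∈ Icc (0 : ℝ) 1 ∧ α q.1 = β q.2}, {x : ℝ × ℝ | lam ≤ |x.1 - q.1| ∨ lam ≤ |x.2 - q.2|}
    with hS
  have hc : IsCompact S := by
    refine (isCompact_Icc.prod isCompact_Icc).inter_right (isClosed_biInter fun q _ => ?_)
    have c1 : IsClosed {x : ℝ × ℝ | lam ≤ |x.1 - q.1|} := isClosed_le continuous_const (by fun_prop)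
    have c2 : IsClosed {x : ℝ × ℝ | lam ≤ |x.2 - q.2|} := isClosed_le continuous_const (by fun_prop)
    exact c1.union c2
  have hpos : ∀ x ∈ S, 0 < dist (α x.1) (β x.2) := by
    intro x hx
    refine dist_pos.mpr fun h => ?_
    have := mem_iInter₂.mp hx.2 x ⟨hx.1.1, hx.1.2, h⟩
    simp only [mem_ofPred_eq, sub_self, abs_zero, or_self] at this
    linarith
  obtain ⟨δ, hδ, hδ'⟩ := hc.exists_forall_le' (f := fun x : ℝ × ℝ => dist (α x.1) (β x.2))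
    (Continuous.continuousOn (by fun_prop)) hpos
  refine ⟨δ, hδ, fun a ha b hb h => ?_⟩
  by_contra hcon
  push Not at hcon
  have : (a, b) ∈ S := by
    refine ⟨⟨ha, hb⟩, mem_iInter₂.mpr fun q hq => ?_⟩
    by_cases c : |a - q.1| < lam
    · exact Or.inr (hcon q.1 hq.1 q.2 hq.2.1 hq.2.2 c)
    · exact Or.inl (not_lt.mp c)
  exact absurd (hδ' _ this) (not_le.mpr h)

/-- A positive lower bound for finitely many positive thresholds. -/
lemma exists_pos_forall {ι : Type} [Finite ι] (Q : ι → ℝ → Prop)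
    (hQ : ∀ i, ∃ δ > 0, Q i δ) (hm : ∀ i δ δ', 0 < δ' → δ' ≤ δ → Q i δ → Q i δ') :
    ∃ δ > 0, ∀ i, Q i δ := by
  have : ∀ᶠ δ in nhdsWithin (0 : ℝ) (Ioi 0), ∀ i, Q i δ := by
    refine eventually_all.mpr fun i => ?_
    obtain ⟨δ, hδ, h⟩ := hQ i
    filter_upwards [Ioc_mem_nhdsGT hδ] with δ' hδ'
    exact hm i δ δ' hδ'.1 hδ'.2 h
  obtain ⟨δ, h1, h2⟩ := (this.and self_mem_nhdsWithin).exists
  exact ⟨δ, h2, h1⟩

end Pool.Agent.Lib.MP_d3b8e5_co
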