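import Pool.Agent.Lib.MP_d3b8e5_co.Upper

/-!
Fan drawings: the small part on a line, the stars at fast growing heights on both sides.
-/

set_option autoImplicit false

namespace Pool.Agent.Lib.MP_d3b8e5_co

open Set

lemma dom {A X X' Y Y' M : ℤ} (hA : A ≠ X) (hb : |X' - A| ≤ M) (hY : (M + 1) * |Y| ≤ |Y'|)
    (h0 : Y ≠ 0) : 0 < ((A - X) * Y') * ((A - X) * Y' + Y * (X' - A)) := by
  have h1 : 0 < |Y| := abs_pos.mpr h0
  have h2 : 1 ≤ |A - X| := Int.one_le_abs (sub_ne_zero.mpr hA)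
  have h3 : |Y * (X' - A)| < |(A - X) * Y'| := by
    rw [abs_mul, abs_mul]
    have : |Y| * |X' - A| ≤ |Y| * M := mul_le_mul_of_nonneg_left hb h1.le
    nlinarith [abs_nonneg Y']
  have h4 := sq_lt_sq.mpr h3
  nlinarith [sq_nonneg ((A - X) * Y' + Y * (X' - A))]

lemma pos_of_mul_pos_left' {x y : ℤ} (h : 0 < x * y) (hy : 0 ≤ y) : 0 < x := by
  by_contra c
  exact absurd h (not_lt.mpr (mul_nonpos_of_nonpos_of_nonneg (not_lt.mp c) hy))

lemma cross_signs {A A' X X' Y Y' M : ℤ} (hA : A ≠ X) (hA' : A' ≠ X) (hb : |X' - A| ≤ M)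
    (hb' : |X' - A'| ≤ M) (hY : (M + 1) * |Y| ≤ |Y'|) (h0 : Y ≠ 0)
    (c1 : orZ (X, Y) (A, 0) (X', Y') * orZ (X, Y) (A, 0) (A', 0) < 0)
    (c2 : orZ (X', Y') (A', 0) (X, Y) * orZ (X', Y') (A', 0) (A, 0) < 0) :
    0 < (A' - X) * (A - A') ∧ 0 < Y * Y' := by
  have d1 := dom hA hb hY h0
  have d2 := dom hA' hb' hY h0
  have e1 : orZ (X, Y) (A, 0) (X', Y') * orZ (X, Y) (A, 0) (A', 0) =
      ((A - X) * Y' + Y * (X' - A)) * (Y * (A' - A)) := by simp only [orZ]; ring
  have e2 : orZ (X', Y') (A', 0) (X, Y) * orZ (X', Y') (A', 0) (A, 0) =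
      -(((A' - X) * Y' + Y * (X' - A')) * (Y' * (A - A'))) := by simp only [orZ]; ring
  rw [e1] at c1
  rw [e2] at c2
  generalize (A - X) * Y' + Y * (X' - A) = D at d1 c1
  generalize (A' - X) * Y' + Y * (X' - A') = D' at d2 c2
  have k1 : 0 < (A' - X) * (A - A') := by
    have h := mul_pos d2 (neg_neg_iff_pos.mp c2)
    have e : (A' - X) * Y' * D' * (D' * (Y' * (A - A'))) =
        (A' - X) * (A - A') * ((Y' * D') * (Y' * D')) := by ring
    rw [e] at h
    exact pos_of_mul_pos_left' h (mul_self_nonneg _)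
  refine ⟨k1, ?_⟩
  have k2 : 0 < (A - X) * (A - A') := by nlinarith [sq_nonneg (A - A')]
  have h := mul_pos d1 (neg_pos.mpr c1)
  have e : (A - X) * Y' * D * -(D * (Y * (A' - A))) =
      Y * Y' * ((A - X) * (A - A') * (D * D)) := by ring
  rw [e] at h
  exact pos_of_mul_pos_left' h (mul_nonneg k2.le (mul_self_nonneg _))

/-- Every star is joined to `0` and to the interval from `j` to `r`, and lies on the side `sd`. -/
structure Fan (m n : ℕ) where
  sd : Fin n → Bool
  j : Fin n → ℕ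
  r : Fin n → ℕ
  h1 : ∀ b, j b + 1 ≤ r b
  h2 : ∀ b, r b ≤ j b + 2
  h3 : ∀ b, r b < m
  h4 : ∀ b, j b = 0 → r b = 1

namespace Fan

variable {m n : ℕ} (F : Fan m n)

def adj (b : Fin n) (a : Fin m) : Prop := (a : ℕ) = 0 ∨ (F.j b ≤ a ∧ (a : ℕ) ≤ F.r b)

def graph : SimpleGraph (Fin m ⊕ Fin n) :=
  SimpleGraph.fromRel fun u v => match u, v with
    | .inl a, .inr b => F.adj b a
    | _, _ => False

lemma graph_adj (a : Fin m) (b : Fin n) : F.graph.Adj (.inl a) (.inr b) ↔ F.adj b a := by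
  simp [graph]

lemma graph_le : F.graph ≤ completeBipartiteGraph (Fin m) (Fin n) := by
  intro u v h
  rcases u with a | b <;> rcases v with a' | b' <;> simp [graph] at h ⊢

def rk (b : Fin n) : ℕ := (F.j b + F.r b) * n + b

def Y (b : Fin n) : ℤ := (if F.sd b then 1 else -1) * (2 * m + 1) ^ F.rk b

def X (b : Fin n) : ℤ := 2 * F.j b + 1

lemma abs_Y (b : Fin n) : |F.Y b| = (2 * m + 1) ^ F.rk b := by
  have : (0 : ℤ) < (2 * m + 1) ^ F.rk b := by positivity
  unfold Y
  split_ifs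
  · rw [one_mul, abs_of_pos this]
  · rw [neg_one_mul, abs_neg, abs_of_pos this]

lemma Y_ne (b : Fin n) : F.Y b ≠ 0 := by
  rw [← abs_pos, abs_Y]; positivity

lemma Y_le {b b' : Fin n} (h : F.rk b < F.rk b') : (2 * m + 1) * |F.Y b| ≤ |F.Y b'| := by
  rw [abs_Y, abs_Y, ← pow_succ']
  exact pow_le_pow_right₀ (by omega) h

lemma sd_eq {b b' : Fin n} (h : 0 < F.Y b * F.Y b') : F.sd b = F.sd b' := by
  have p1 : (0 : ℤ) < (2 * m + 1) ^ F.rk b := by positivity
  have p2 : (0 : ℤ) < (2 * m + 1) ^ F.rk b' := by positivity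
  have p3 := mul_pos p1 p2
  unfold Y at h
  cases c : F.sd b <;> cases c' : F.sd b' <;> simp [c, c'] at h ⊢ <;> nlinarith

lemma rk_ne {b b' : Fin n} (h : b ≠ b') : F.rk b ≠ F.rk b' := by
  intro c
  have := congrArg (· % n) c
  simp only [rk, Nat.mul_add_mod_self_right, Nat.mod_eq_of_lt b.2, Nat.mod_eq_of_lt b'.2] at this
  exact h (Fin.ext this)

lemma key_le {b b' : Fin n} (h : F.rk b < F.rk b') : F.j b + F.r b ≤ F.j b' + F.r b' := by
  by_contra c
  have h1 : (F.j b' + F.r b' + 1) * n ≤ (F.j b + F.r b) * n := Nat.mul_le_mul_right _ (by omega)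
  have h2 := b'.2
  rw [add_mul (F.j b' + F.r b'), one_mul] at h1
  unfold rk at h
  omega

lemma X_ne (b : Fin n) (a : Fin m) : (2 * (a : ℕ) : ℤ) ≠ F.X b := by unfold X; omega

lemma X_le (b : Fin n) (a : Fin m) : |F.X b - 2 * (a : ℕ)| ≤ 2 * m := by
  have := F.h1 b
  have := F.h3 b
  have := a.2
  unfold X
  rw [abs_le]
  constructor <;> omega

def slot (b : Fin n) (x : ℕ) : Prop := 1 ≤ F.j b ∧ F.j b ≤ x ∧ x < F.r b

open Classical in
noncomputable def T : Finset (Fin n × Fin n × Fin m) :=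
  Finset.univ.filter fun t => t.1 < t.2.1 ∧ F.sd t.1 = F.sd t.2.1 ∧ F.slot t.1 t.2.2 ∧
    F.slot t.2.1 t.2.2

def C (a : Fin m) (b : Fin n) (a' : Fin m) (b' : Fin n) : Prop :=
  F.rk b < F.rk b' ∧ F.slot b a' ∧ F.slot b' a' ∧
    (a : ℕ) = if (a' : ℕ) = F.j b then 0 else (a' : ℕ) + 1

theorem cr_le : cr F.graph ≤ F.T.card := by
  classical
  set pz : Fin m ⊕ Fin n → ℤ × ℤ :=
    Sum.elim (fun a => (2 * (a : ℕ), 0)) (fun b => (F.X b, F.Y b)) with hpz
  have hinj : Function.Injective fun w => cz (pz w) := by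
    intro u v h
    simp only [cz, Complex.mk.injEq, Int.cast_inj] at h
    rcases u with a | b <;> rcases v with a' | b' <;>
      simp only [hpz, Sum.elim_inl, Sum.elim_inr] at h
    · exact congrArg _ (Fin.ext (by omega))
    · exact absurd h.2.symm (F.Y_ne _)
    · exact absurd h.2 (F.Y_ne _)
    · by_contra c
      have c' : b ≠ b' := fun e => c (congrArg _ e)
      have p := abs_pos.mpr (F.Y_ne b)
      rcases lt_or_gt_of_ne (F.rk_ne c') with l | l
      · have := F.Y_le l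
        rw [← h.2] at this
        have := F.h3 b
        nlinarith
      · have := F.Y_le l
        rw [← h.2] at this
        have := F.h3 b
        nlinarith
  set I : Finset ((Fin m × Fin n) × (Fin m × Fin n)) := Finset.univ.filter fun i =>
    i.1.2 < i.2.2 ∧ F.sd i.1.2 = F.sd i.2.2 ∧
      (F.C i.1.1 i.1.2 i.2.1 i.2.2 ∨ F.C i.2.1 i.2.2 i.1.1 i.1.2) with hI
  refine (straight F.graph F.graph_le (fun w => cz (pz w)) hinj ?_ I ?_).trans ?_
  · intro a b _ w c1 c2
    rw [ori_cz, Int.cast_ne_zero]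
    rcases w with a' | b'
    · have e : orZ (pz (.inr b)) (pz (.inl a)) (pz (.inl a')) =
          F.Y b * (2 * (a' : ℕ) - 2 * (a : ℕ)) := by simp only [hpz, orZ, Sum.elim_inl, Sum.elim_inr]; ring
      rw [e]
      refine mul_ne_zero (F.Y_ne b) fun h => c1 (congrArg _ (Fin.ext (by omega)))
    · have c' : b ≠ b' := fun e => c2 (congrArg _ e.symm)
      rcases lt_or_gt_of_ne (F.rk_ne c') with l | l
      · have d := dom (F.X_ne b a) (F.X_le b' a) (F.Y_le l) (F.Y_ne b)
        have e : orZ (pz (.inr b)) (pz (.inl a)) (pz (.inr b')) =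
            (2 * (a : ℕ) - F.X b) * F.Y b' + F.Y b * (F.X b' - 2 * (a : ℕ)) := by
          simp only [hpz, orZ, Sum.elim_inl, Sum.elim_inr]; ring
        rw [e]
        exact right_ne_zero_of_mul d.ne'
      · have d := dom (F.X_ne b' a) (F.X_le b a) (F.Y_le l) (F.Y_ne b')
        have e : orZ (pz (.inr b)) (pz (.inl a)) (pz (.inr b')) =
            -((2 * (a : ℕ) - F.X b') * F.Y b + F.Y b' * (F.X b - 2 * (a : ℕ))) := by
          simp only [hpz, orZ, Sum.elim_inl, Sum.elim_inr]; ring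
        rw [e]
        exact neg_ne_zero.mpr (right_ne_zero_of_mul d.ne')
  · have half : ∀ a b a' b', F.adj b a → F.adj b' a' → F.rk b < F.rk b' →
        orZ (pz (.inr b)) (pz (.inl a)) (pz (.inr b')) *
          orZ (pz (.inr b)) (pz (.inl a)) (pz (.inl a')) < 0 →
        orZ (pz (.inr b')) (pz (.inl a')) (pz (.inr b)) *
          orZ (pz (.inr b')) (pz (.inl a')) (pz (.inl a)) < 0 →
        F.sd b = F.sd b' ∧ F.C a b a' b' := by
      intro a b a' b' e1 e2 l c1 c2
      obtain ⟨k1, k2⟩ := cross_signs (F.X_ne b a) (F.X_ne b a') (F.X_le b' a) (F.X_le b' a')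
        (F.Y_le l) (F.Y_ne b) c1 c2
      refine ⟨F.sd_eq k2, l, ?_⟩
      have q0 := F.key_le l
      have q1 := F.h1 b
      have q2 := F.h2 b
      have q3 := F.h4 b
      have q4 := F.h1 b'
      have q5 := F.h2 b'
      have q6 := F.h4 b'
      unfold adj at e1 e2
      unfold slot
      unfold X at k1
      rcases mul_pos_iff.mp k1 with ⟨u1, u2⟩ | ⟨u1, u2⟩ <;> split_ifs <;> omega
    intro a b a' b' e1 e2 _ nb c1 c2
    rw [graph_adj] at e1 e2
    simp only [ori_cz] at c1 c2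
    have c1' : orZ (pz (.inr b)) (pz (.inl a)) (pz (.inr b')) *
        orZ (pz (.inr b)) (pz (.inl a)) (pz (.inl a')) < 0 := by exact_mod_cast c1
    have c2' : orZ (pz (.inr b')) (pz (.inl a')) (pz (.inr b)) *
        orZ (pz (.inr b')) (pz (.inl a')) (pz (.inl a)) < 0 := by exact_mod_cast c2
    have main : F.sd b = F.sd b' ∧ (F.C a b a' b' ∨ F.C a' b' a b) := by
      rcases lt_or_gt_of_ne (F.rk_ne nb) with l | l
      · have := half a b a' b' e1 e2 l c1' c2'
        exact ⟨this.1, Or.inl this.2⟩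
      · have := half a' b' a b e2 e1 l c2' c1'
        exact ⟨this.1.symm, Or.inr this.2⟩
    simp only [hI, Finset.mem_filter, Finset.mem_univ, true_and]
    rcases lt_or_gt_of_ne nb with l | l
    · exact Or.inl ⟨l, main⟩
    · exact Or.inr ⟨l, main.1.symm, main.2.symm⟩
  · have : I.card ≤ F.T.card := by
      refine Finset.card_le_card_of_injOn
        (fun i => (i.1.2, i.2.2, if F.rk i.1.2 < F.rk i.2.2 then i.2.1 else i.1.1)) ?_ ?_
      · rintro ⟨⟨a, b⟩, ⟨a', b'⟩⟩ hi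
        simp only [hI, Finset.coe_filter, Finset.mem_univ, true_and, mem_ofPred_eq] at hi
        obtain ⟨c1, c2, c3⟩ := hi
        simp only [T, Finset.coe_filter, Finset.mem_univ, true_and, mem_ofPred_eq]
        refine ⟨c1, c2, ?_⟩
        rcases c3 with c | c
        · rw [if_pos c.1]; exact ⟨c.2.1, c.2.2.1⟩
        · rw [if_neg (not_lt.mpr c.1.le)]; exact ⟨c.2.2.1, c.2.1⟩
      · rintro ⟨⟨a, b⟩, ⟨a', b'⟩⟩ hi ⟨⟨a2, b2⟩, ⟨a2', b2'⟩⟩ hi2 h
        simp only [hI, Finset.coe_filter, Finset.mem_univ, true_and, mem_ofPred_eq] at hi hi2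
        simp only [Prod.mk.injEq] at h
        obtain ⟨rfl, rfl, h⟩ := h
        rcases hi.2.2 with c | c <;> rcases hi2.2.2 with d | d
        · rw [if_pos c.1, if_pos c.1] at h
          subst h
          rw [show a = a2 from Fin.ext (c.2.2.2.trans d.2.2.2.symm)]
        · exact absurd d.1 (not_lt.mpr c.1.le)
        · exact absurd d.1 (not_lt.mpr c.1.le)
        · rw [if_neg (not_lt.mpr c.1.le), if_neg (not_lt.mpr c.1.le)] at h
          subst h
          rw [show a' = a2' from Fin.ext (c.2.2.2.trans d.2.2.2.symm)]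
    exact_mod_cast this

end Fan

end Pool.Agent.Lib.MP_d3b8e5_co
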