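import Pool.Agent.Lib.MP_d3b8e5_co.Fan

/-!
A fan drawing whose stars fill the triangles of a double fan cyclically.
-/

set_option autoImplicit false

namespace Pool.Agent.Lib.MP_d3b8e5_co

open Set

lemma sum_div_two_mul (h : ℕ) (q : ℕ) :
    ∑ v ∈ Finset.range q, v / (2 * h) + h * (q / (2 * h) * (q / (2 * h) + 1)) =
      q / (2 * h) * q := by
  induction q with
  | zero => simp
  | succ q ih =>
    rw [Finset.sum_range_succ, Nat.succ_div]
    split_ifs with c
    · have e2 : 2 * h * ((q + 1) / (2 * h)) = q + 1 := Nat.mul_div_cancel' c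
      rw [Nat.succ_div, if_pos c] at e2
      generalize q / (2 * h) = k at *
      nlinarith
    · rw [add_zero]; nlinarith

namespace Fan

variable {m n : ℕ}

lemma ncard_edges (F : Fan m n) :
    F.graph.edgeSet.ncard = ∑ b, (2 + if F.j b = 0 then 0 else F.r b - F.j b) := by
  classical
  have e : F.graph.edgeSet = (fun p : (_ : Fin n) × Fin m => s(Sum.inl p.2, Sum.inr p.1)) ''
      ((Finset.univ.sigma fun b => Finset.univ.filter fun a => F.adj b a :
        Finset ((_ : Fin n) × Fin m)) : Set _) := by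
    ext e
    induction e using Sym2.ind with
    | _ u v =>
      simp only [SimpleGraph.mem_edgeSet, mem_image, Finset.mem_coe, Finset.mem_sigma,
        Finset.mem_univ, Finset.mem_filter, true_and]
      constructor
      · intro h
        have hadj := F.graph_le h
        rcases u with a | b <;> rcases v with a' | b' <;> simp at hadj
        · exact ⟨⟨b', a⟩, (F.graph_adj a b').mp h, rfl⟩
        · exact ⟨⟨b, a'⟩, (F.graph_adj a' b).mp h.symm, Sym2.eq_swap⟩
      · rintro ⟨⟨b, a⟩, h, e⟩
        rw [← SimpleGraph.mem_edgeSet, ← e, SimpleGraph.mem_edgeSet]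
        exact (F.graph_adj a b).mpr h
  rw [e, ncard_image_of_injective, ncard_coe_finset, Finset.card_sigma]
  · refine Finset.sum_congr rfl fun b _ => ?_
    have q1 := F.h1 b
    have q3 := F.h3 b
    have q4 := F.h4 b
    have e2 : (Finset.univ.filter fun a : Fin m => F.adj b a).map Fin.valEmbedding =
        insert 0 (Finset.Icc (F.j b) (F.r b)) := by
      ext x
      simp only [Finset.mem_map, Finset.mem_filter, Finset.mem_univ, true_and,
        Fin.valEmbedding_apply, Finset.mem_insert, Finset.mem_Icc, adj]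
      constructor
      · rintro ⟨a, h, rfl⟩; exact h
      · intro h; exact ⟨⟨x, by omega⟩, h, rfl⟩
    rw [← Finset.card_map Fin.valEmbedding, e2, Finset.card_insert_eq_ite, Nat.card_Icc]
    simp only [Finset.mem_Icc]
    split_ifs <;> omega
  · rintro ⟨b, a⟩ ⟨b', a'⟩ h
    simp at h
    rw [h.1, h.2]

def base (f b : ℕ) : ℕ := if b < f then 2 * b else f + b

def jj (h f c b : ℕ) : ℕ :=
  if b < c then (if h ≤ base f b % (2 * h) then base f b % (2 * h) - h else base f b % (2 * h)) + 1
  else 0

def rr (h f c b : ℕ) : ℕ := if b < c then jj h f c b + (if b < f then 2 else 1) else 1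

lemma rr_le {h f : ℕ} (c b : ℕ) (h0 : 0 < h) (he : f = 0 ∨ Even h) : rr h f c b < h + 2 := by
  have l := Nat.mod_lt (base f b) (show 0 < 2 * h by omega)
  have e : b < f → base f b % (2 * h) = 2 * (b % h) := fun hb => by
    rw [base, if_pos hb, Nat.mul_mod_mul_left]
  rw [Nat.even_iff] at he
  unfold rr jj
  split_ifs <;> omega

lemma jj_zero (h f c b : ℕ) : jj h f c b = 0 ↔ ¬ b < c := by
  unfold jj
  by_cases e : b < c <;> simp [e]

def cyc (h n f c : ℕ) (h0 : 0 < h) (he : f = 0 ∨ Even h) : Fan (h + 2) n where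
  sd b := decide (h ≤ base f b % (2 * h))
  j b := jj h f c b
  r b := rr h f c b
  h1 b := by unfold rr jj; split_ifs <;> omega
  h2 b := by unfold rr jj; split_ifs <;> omega
  h3 b := rr_le c b h0 he
  h4 b := fun e => by rw [rr, if_neg ((jj_zero _ _ _ _).mp e)]

lemma cyc_edges (h n f c : ℕ) (h0 : 0 < h) (he : f = 0 ∨ Even h) (h1 : f ≤ c) (h2 : c ≤ n) :
    (cyc h n f c h0 he).graph.edgeSet.ncard = 2 * n + (f + c) := by
  rw [ncard_edges]
  have e : ∀ b : Fin n, (2 + if (cyc h n f c h0 he).j b = 0 then 0 else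
      (cyc h n f c h0 he).r b - (cyc h n f c h0 he).j b) =
      2 + ((if (b : ℕ) < f then 1 else 0) + if (b : ℕ) < c then 1 else 0) := by
    intro b
    simp only [cyc, rr, jj_zero]
    split_ifs <;> omega
  have k : ∀ x ≤ n, ∑ b : Fin n, (if (b : ℕ) < x then 1 else 0) = x := by
    intro x hx
    rw [Fin.sum_univ_eq_sum_range (fun b => if b < x then 1 else 0), ← Finset.card_filter]
    have : (Finset.range n).filter (· < x) = Finset.range x := by
      ext y; simp only [Finset.mem_filter, Finset.mem_range]; omega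
    rw [this, Finset.card_range]
  simp only [e, Finset.sum_add_distrib, k f (h1.trans h2), k c h2, Finset.sum_const,
    Finset.card_univ, Fintype.card_fin, smul_eq_mul, mul_comm]

lemma cyc_card (h n f c : ℕ) (h0 : 0 < h) (he : f = 0 ∨ Even h) :
    (cyc h n f c h0 he).T.card ≤ ∑ v ∈ Finset.range (f + c), v / (2 * h) := by
  set F := cyc h n f c h0 he with hF
  set un : Fin n → ℕ → ℕ := fun b x => base f b + (x - F.j b) with hun
  have key : ∀ b x, F.slot b x → 1 ≤ x ∧ x ≤ h ∧ (b : ℕ) < c ∧
      un b x % (2 * h) = (if F.sd b then h else 0) + x - 1 ∧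
      un b x < base f b + (if (b : ℕ) < f then 2 else 1) ∧ base f b ≤ un b x := by
    intro b x hs
    have q3 := F.h3 b
    have l := Nat.mod_lt (base f b) (show 0 < 2 * h by omega)
    have d := Nat.div_add_mod (base f b) (2 * h)
    simp only [slot, hF, cyc, rr, jj] at hs q3
    have e : un b x = 2 * h * (base f b / (2 * h)) + ((if F.sd b then h else 0) + x - 1) := by
      simp only [hun, hF, cyc, jj, decide_eq_true_eq]
      split_ifs at hs ⊢ <;> omega
    have e' : (if F.sd b then h else 0) + x - 1 < 2 * h := by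
      split_ifs at hs q3 ⊢ <;> omega
    refine ⟨by omega, by omega, ?_, ?_, ?_, ?_⟩
    · split_ifs at hs <;> omega
    · rw [e, Nat.mul_add_mod, Nat.mod_eq_of_lt e']
    · simp only [hun, hF, cyc, jj]
      split_ifs at hs ⊢ <;> omega
    · simp only [hun]; omega
  have mono : ∀ (b b' : Fin n) x x', F.slot b x → F.slot b' x' → b < b' → un b x < un b' x' := by
    intro b b' x x' s1 s2 l
    have k1 := (key b x s1).2.2.2.2.1
    have k2 := (key b' x' s2).2.2.2.2.2
    have l' : (b : ℕ) < b' := l
    unfold base at k1 k2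
    split_ifs at k1 k2 <;> omega
  have uinj : ∀ (b b' : Fin n) x x', F.slot b x → F.slot b' x' → un b x = un b' x' → b = b' := by
    intro b b' x x' s1 s2 e
    rcases lt_trichotomy b b' with l | l | l
    · exact absurd e (mono _ _ _ _ s1 s2 l).ne
    · exact l
    · exact absurd e (mono _ _ _ _ s2 s1 l).ne'
  have : F.T.card ≤ ((Finset.range (f + c)).sigma fun v => Finset.range (v / (2 * h))).card := by
    refine Finset.card_le_card_of_injOn
      (fun t => ⟨un t.2.1 t.2.2, un t.1 t.2.2 / (2 * h)⟩) ?_ ?_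
    · rintro ⟨b, b', x⟩ ht
      simp only [T, Finset.coe_filter, Finset.mem_univ, true_and, mem_ofPred_eq] at ht
      obtain ⟨c1, c2, c3, c4⟩ := ht
      simp only [Finset.coe_sigma, mem_sigma_iff, Finset.coe_range, mem_Iio]
      obtain ⟨-, -, -, k1, -, -⟩ := key b x c3
      obtain ⟨-, -, k2, k3, k4, -⟩ := key b' x c4
      constructor
      · unfold base at k4
        split_ifs at k4 <;> omega
      · have e1 := Nat.div_add_mod (un b x) (2 * h)
        have e2 := Nat.div_add_mod (un b' x) (2 * h)
        have e3 := mono _ _ _ _ c3 c4 c1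
        rw [c2, ← k3] at k1
        refine Nat.lt_of_mul_lt_mul_left (a := 2 * h) ?_
        omega
    · rintro ⟨b, b', x⟩ ht ⟨b2, b2', x2⟩ ht2 e
      simp only [T, Finset.coe_filter, Finset.mem_univ, true_and, mem_ofPred_eq] at ht ht2
      obtain ⟨-, c2, c3, c4⟩ := ht
      obtain ⟨-, d2, d3, d4⟩ := ht2
      simp only [Sigma.mk.injEq, heq_eq_eq] at e
      obtain ⟨e1, e2⟩ := e
      obtain rfl := uinj _ _ _ _ c4 d4 e1
      obtain ⟨p1, -, -, k1, -, -⟩ := key b' x c4
      obtain ⟨p2, -, -, k2, -, -⟩ := key b' x2 d4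
      obtain rfl : x = x2 := Fin.ext (by rw [e1, k2] at k1; omega)
      obtain ⟨-, -, -, k3, -, -⟩ := key b x c3
      obtain ⟨-, -, -, k4, -, -⟩ := key b2 x d3
      rw [d2, ← c2, ← k3] at k4
      have e3 : un b x = un b2 x := by
        rw [← Nat.div_add_mod (un b x) (2 * h), ← Nat.div_add_mod (un b2 x) (2 * h), e2, k4]
      rw [uinj _ _ _ _ c3 d3 e3]
  rw [Finset.card_sigma] at this
  simpa using this

end Fan

end Pool.Agent.Lib.MP_d3b8e5_co
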