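import Pool.Agent.Lib.MP_d3b8e5_co.Count

/-!
The crossing bound for normalised drawings: the vertices of one class lie on the real axis,
the other vertices and all crossings lie on the line `im = 1`.
-/

set_option autoImplicit false

namespace Pool.Agent.Lib.MP_d3b8e5_co

open Set Filter

lemma mod_two_of_par {k l : ℕ} (h : (k : ZMod 2) = l) : k % 2 = l % 2 :=
  (ZMod.natCast_eq_natCast_iff' k l 2).mp h

lemma cl_congr (P : Finset ℝ) (r : ℝ) {k l : ℕ} (h : k % 2 = l % 2) : cl P r k = cl P r l := by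
  funext z; unfold cl; rw [sg_congr h]

theorem count_norm {E B : Type} [Fintype E] [Fintype B] (P : Finset ℝ) (hm : 3 ≤ P.card)
    (ctr : E → B) (pun : E → ℝ) (hpun : ∀ e, pun e ∈ P)
    (hinj : ∀ e f, ctr e = ctr f → pun e = pun f → e = f)
    (γ : E → ℝ → ℂ) (hγ : ∀ e, Continuous (γ e)) (hγi : ∀ e, InjOn (γ e) (Icc 0 1))
    (o : B → ℂ) (ho : Function.Injective o) (ho1 : ∀ v, (o v).im = 1)
    (h0 : ∀ e, γ e 0 = o (ctr e)) (h1 : ∀ e, γ e 1 = pun e)
    (hav : ∀ e, ∀ t ∈ Ioo (0 : ℝ) 1, (∀ v, γ e t ≠ o v) ∧ ∀ q ∈ P, γ e t ≠ (q : ℝ))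
    (Cr : Finset (E × E × ℂ))
    (hCr : ∀ e f, e ≠ f → ∀ a ∈ Ioo (0 : ℝ) 1, ∀ b ∈ Ioo (0 : ℝ) 1, γ e a = γ f b →
      (e, f, γ e a) ∈ Cr ∧ (γ e a).im = 1) (k : ℕ) :
    2 * k * Fintype.card E ≤
      Cr.card + 4 * k * Fintype.card B + 2 * (P.card - 2) * (k * (k + 1)) := by
  classical
  have hPne : P.Nonempty := Finset.card_pos.mp (by omega)
  -- the radius
  obtain ⟨r1, hr1, hr1'⟩ := exists_pos_forall
    (fun (i : P × P) δ => (i.1 : ℝ) ≠ i.2 → 4 * δ ≤ |(i.1 : ℝ) - i.2|) (fun i => by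
      by_cases c : (i.1 : ℝ) = i.2
      · exact ⟨1, one_pos, fun h => absurd c h⟩
      · exact ⟨|(i.1 : ℝ) - i.2| / 4, by have := abs_pos.mpr (sub_ne_zero.mpr c); positivity,
          fun _ => by linarith⟩) (fun i δ δ' _ h H c => by linarith [H c])
  obtain ⟨r2, hr2, hr2'⟩ := exists_pos_forall
    (fun (i : E × P) δ => (i.2 : ℝ) ≠ pun i.1 → ∀ t ∈ Icc (0 : ℝ) 1,
      δ ≤ |(γ i.1 t).re - i.2| + |(γ i.1 t).im|) (fun i => by
      by_cases c : (i.2 : ℝ) = pun i.1
      · exact ⟨1, one_pos, fun h => absurd c h⟩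
      · have := hγ i.1
        obtain ⟨δ, hδ, H⟩ := (isCompact_Icc (a := (0 : ℝ)) (b := 1)).exists_forall_le'
          (f := fun t => |(γ i.1 t).re - i.2| + |(γ i.1 t).im|)
          (Continuous.continuousOn (by fun_prop)) (a := 0) (fun t ht => by
            have hne : γ i.1 t ≠ ((i.2 : ℝ) : ℂ) := by
              rcases ht.1.eq_or_lt with c0 | c0
              · rw [← c0, h0]
                intro h
                have := ho1 (ctr i.1)
                rw [h] at this
                simp at this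
              rcases ht.2.eq_or_lt with c1 | c1
              · rw [c1, h1]
                exact fun h => c (Complex.ofReal_injective h).symm
              · exact (hav i.1 t ⟨c0, c1⟩).2 _ i.2.2
            by_contra hc
            apply hne
            have a1 := abs_nonneg ((γ i.1 t).re - i.2)
            have a2 := abs_nonneg (γ i.1 t).im
            apply Complex.ext
            · simp only [Complex.ofReal_re]
              exact sub_eq_zero.mp (abs_eq_zero.mp (by linarith))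
            · simp only [Complex.ofReal_im]
              exact abs_eq_zero.mp (by linarith))
        exact ⟨δ, hδ, fun _ => H⟩) (fun i δ δ' _ h H c t ht => h.trans (H c t ht))
  set r : ℝ := min (min r1 r2) (1 / 2) with hrdef
  have hr : 0 < r := lt_min (lt_min hr1 hr2) (by norm_num)
  have hrh : r ≤ 1 / 2 := min_le_right _ _
  have hP : ∀ a ∈ P, ∀ b ∈ P, a ≠ b → 4 * r ≤ |a - b| := fun a ha b hb hab => by
    have := hr1' (⟨a, ha⟩, ⟨b, hb⟩) hab
    have h2 : r ≤ r1 := (min_le_left _ _).trans (min_le_left _ _)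
    simp only at this
    linarith
  -- the modulus of continuity
  obtain ⟨lam, hlam, hlam'⟩ := exists_pos_forall
    (fun (e : E) δ => ∀ a ∈ Icc (0 : ℝ) 1, ∀ b ∈ Icc (0 : ℝ) 1, |a - b| < 2 * δ →
      dist (γ e a) (γ e b) < r / 2) (fun e => by
      obtain ⟨δ, hδ, H⟩ := Metric.uniformContinuousOn_iff.mp
        (isCompact_Icc.uniformContinuousOn_of_continuous ((hγ e).continuousOn (s := Icc 0 1)))
        (r / 2) (by linarith)
      exact ⟨δ / 2, by linarith, fun a ha b hb h => H a ha b hb (by rw [Real.dist_eq]; linarith)⟩)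
    (fun e δ δ' _ h H a ha b hb c => H a ha b hb (by linarith))
  obtain ⟨η, hη, hη'⟩ := exists_pos_forall
    (fun (i : E × E) δ => ∀ a ∈ Icc (0 : ℝ) 1, ∀ b ∈ Icc (0 : ℝ) 1,
      dist (γ i.1 a) (γ i.2 b) < 2 * δ → ∃ a0 ∈ Icc (0 : ℝ) 1, ∃ b0 ∈ Icc (0 : ℝ) 1,
        γ i.1 a0 = γ i.2 b0 ∧ |a - a0| < lam ∧ |b - b0| < lam) (fun i => by
      obtain ⟨δ, hδ, H⟩ := near_coincidence _ _ (hγ i.1) (hγ i.2) hlam
      exact ⟨δ / 2, by linarith, fun a ha b hb h => H a ha b hb (by linarith)⟩)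
    (fun e δ δ' _ h H a ha b hb c => H a ha b hb (by linarith))
  -- the legs
  choose L hLγ hLp hLT using fun e => exists_leg (P := P) hr (by linarith) hη (γ e) (hγ e) (hpun e)
    (by rw [h0, ho1]) (h1 e) (fun t ht q hq hne =>
      ((min_le_left _ _).trans (min_le_right _ _)).trans (hr2' (e, ⟨q, hq⟩) hne t ht))
  have memI : ∀ e, ∀ k ≤ (L e).K, ∀ t ∈ Icc ((L e).u k) ((L e).u (k + 1)), t ∈ Icc (0 : ℝ) 1 :=
    fun e k hk t ht => ⟨((L e).mem_total hk ht).1, ((L e).mem_total hk ht).2.trans (hLT e)⟩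
  have im_ne : ∀ e, ∀ a0 ∈ Icc (0 : ℝ) 1, (γ e a0).im = 1 → ∀ a ∈ Icc (0 : ℝ) 1, ∀ b ∈ Icc (0 : ℝ) 1,
      |a - a0| < lam → |b - a0| < lam → ∀ t ∈ uIcc a b, ((L e).γ t).im ≠ 0 := by
    intro e a0 ha0 him a ha b hb c1 c2 t ht
    have ht' : t ∈ Icc (0 : ℝ) 1 := (uIcc_subset_Icc ha hb) ht
    have : |t - a0| < 2 * lam := by
      rw [abs_lt] at c1 c2 ⊢
      rcases mem_uIcc.mp ht with h | h <;> constructor <;> linarith [h.1, h.2, c1.1, c1.2, c2.1, c2.2]
    have h2 := hlam' e t ht' a0 ha0 this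
    rw [Complex.dist_eq] at h2
    have h3 := Complex.abs_im_le_norm (γ e t - γ e a0)
    rw [Complex.sub_im, him] at h3
    rw [hLγ]
    intro hz
    rw [hz] at h3
    norm_num at h3
    linarith
  have not_one : ∀ e, ∀ a ∈ Icc 0 ((L e).u ((L e).K + 1)), ¬ |a - 1| < lam := by
    intro e a ha c
    have h2 := hlam' e a ⟨ha.1, ha.2.trans (hLT e)⟩ 1 ⟨zero_le_one, le_rfl⟩ (by linarith)
    have h3 := (L e).out a ha _ (hpun e)
    rw [Complex.dist_eq, h1] at h2
    have h4 := Complex.abs_im_le_norm (γ e a - pun e)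
    have h5 := Complex.abs_re_le_norm (γ e a - pun e)
    rw [hLγ] at h3
    simp only [Complex.sub_im, Complex.ofReal_im, sub_zero, Complex.sub_re,
      Complex.ofReal_re] at h4 h5
    linarith
  let Q : E → ℂ → ℕ → Prop := fun e x k => k ≤ (L e).K ∧ ∃ a ∈ Icc ((L e).u k) ((L e).u (k + 1)),
    ∃ a0 ∈ Icc (0 : ℝ) 1, γ e a0 = x ∧ |a - a0| < lam
  let idx : E → ℂ → ℕ := fun e x => if h : ∃ k, Q e x k then h.choose else 0
  have idx_eq : ∀ e x k, x.im = 1 → Q e x k → idx e x = k := by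
    intro e x k hx hQ
    have hex : ∃ k, Q e x k := ⟨k, hQ⟩
    have hspec := hex.choose_spec
    simp only [idx, dif_pos hex]
    obtain ⟨hk, a, ha, a0, ha0, e0, c⟩ := hQ
    obtain ⟨hk', a', ha', a0', ha0', e0', c'⟩ := hspec
    have : a0' = a0 := hγi e ha0' ha0 (e0'.trans e0.symm)
    subst this
    exact (L e).chord_unique hk' hk ha' ha (im_ne e a0' ha0 (e0 ▸ hx) _ (memI e _ hk' _ ha') _
      (memI e _ hk _ ha) c' c)
  let lab : E × E × ℂ → W := fun x => (L x.1).w (idx x.1 x.2.2) * ((L x.2.1).w (idx x.2.1 x.2.2))⁻¹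
  have disj : ∀ e f g, par g = 0 → (ctr e ≠ ctr f ∨ g ≠ 1) → (∀ x, (e, f, x) ∈ Cr → lab (e, f, x) ≠ g) →
      ∀ k ≤ (L e).K, ∀ l ≤ (L f).K, (L e).w k = g * (L f).w l →
      Disjoint ((L e).Ch k) ((L f).Ch l) := by
    intro e f g hg hsep hlab k hk l hl hw
    have hpar : k % 2 = l % 2 := by
      apply mod_two_of_par
      rw [← (L e).par_w, hw, par_mul, hg, zero_add, (L f).par_w]
    rw [Set.disjoint_left]
    rintro z ⟨a, ha, rfl⟩ ⟨b, hb, hab⟩
    simp only [← cl_congr P r hpar] at hab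
    have aI := memI e k hk a ha
    have bI := memI f l hl b hb
    have hclose := cl_close hPne hη hab.symm ((L e).side k hk a ha)
      (by rw [sg_congr hpar]; exact (L f).side l hl b hb)
      ((L e).out a ((L e).mem_total hk ha)) ((L f).out b ((L f).mem_total hl hb))
    rw [hLγ, hLγ] at hclose
    obtain ⟨a0, ha0, b0, hb0, hco, c1, c2⟩ := hη' (e, f) a aI b bI hclose
    simp only at hco
    by_cases hef : e = f
    · subst hef
      have : a0 = b0 := hγi e ha0 hb0 hco
      subst this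
      have := (L e).w_eq_of_short hk hl ha hb hpar (fun t ht t' ht' => by
        rw [hLγ]
        have h2 := hlam' e t (uIcc_subset_Icc aI bI ht) t' (uIcc_subset_Icc aI bI ht') (by
          rw [abs_lt] at c1 c2 ⊢
          rcases mem_uIcc.mp ht with h | h <;> rcases mem_uIcc.mp ht' with h' | h' <;>
            constructor <;> linarith [h.1, h.2, h'.1, h'.2, c1.1, c1.2, c2.1, c2.2])
        linarith)
      rw [this] at hw
      rcases hsep with h | h
      · exact h rfl
      · exact h (by simpa using hw.symm)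
    have a1 : a0 < 1 := lt_of_le_of_ne ha0.2 fun h => not_one e a ((L e).mem_total hk ha) (h ▸ c1)
    have b1 : b0 < 1 := lt_of_le_of_ne hb0.2 fun h => not_one f b ((L f).mem_total hl hb) (h ▸ c2)
    rcases ha0.1.eq_or_lt with a2 | a2 <;> rcases hb0.1.eq_or_lt with b2 | b2
    · subst a2; subst b2
      have zero : ∀ e, ∀ k ≤ (L e).K, ∀ a ∈ Icc ((L e).u k) ((L e).u (k + 1)), |a - 0| < lam →
          k = 0 := by
        intro e k hk a ha c
        refine (L e).chord_unique hk (Nat.zero_le _) ha (b := 0)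
          ⟨(L e).u0.le, (L e).u0 ▸ (L e).mono 0 (Nat.zero_le _)⟩ ?_
        exact im_ne e 0 ha0 (by rw [h0, ho1]) _ (memI e k hk a ha) _ ha0 c (by simpa using hlam)
      rw [zero e k hk a ha c1, zero f l hl b hb c2] at hw
      rw [h0, h0] at hco
      rcases hsep with h | h
      · exact h (ho hco)
      · exact h (by simpa [Leg.w] using hw.symm)
    · subst a2
      exact (hav f b0 ⟨b2, b1⟩).1 _ (hco.symm.trans (h0 e))
    · subst b2
      exact (hav e a0 ⟨a2, a1⟩).1 _ (hco.trans (h0 f))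
    · obtain ⟨hx, him⟩ := hCr e f hef a0 ⟨a2, a1⟩ b0 ⟨b2, b1⟩ hco
      apply hlab _ hx
      simp only [lab]
      rw [idx_eq e _ k him ⟨hk, a, ha, a0, ha0, rfl, c1⟩,
        idx_eq f _ l him ⟨hl, b, hb, b0, hb0, hco.symm, c2⟩, hw, mul_inv_cancel_right]
  have land_inj : ∀ e f, (L e).γ ((L e).u ((L e).K + 1)) = (L f).γ ((L f).u ((L f).K + 1)) →
      e = f := by
    have TI : ∀ e, (L e).u ((L e).K + 1) ∈ Ioo (0 : ℝ) 1 ∧
        (γ e ((L e).u ((L e).K + 1))).im ≠ 1 := by
      intro e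
      have hl := (L e).land
      rw [hLγ, hLp] at hl
      have him : (γ e ((L e).u ((L e).K + 1))).im ≠ 1 := by
        intro h
        rw [h, abs_one] at hl
        linarith [abs_nonneg ((γ e ((L e).u ((L e).K + 1))).re - pun e)]
      refine ⟨⟨lt_of_le_of_ne ((L e).u0 ▸ (L e).u_le (Nat.zero_le _) le_rfl) fun h => ?_,
        lt_of_le_of_ne (hLT e) fun h => ?_⟩, him⟩
      · apply him; rw [← h, h0, ho1]
      · rw [h, h1] at hl
        simp at hl
        linarith
    intro e f h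
    by_contra hef
    rw [hLγ, hLγ] at h
    exact (TI e).2 (hCr e f hef _ (TI e).1 _ (TI f).1 h).2
  have hev := fun e => (L e).ℓ_eventually hr hP hm
  refine count_abstract P.card ctr (fun e => dir (L e).w)
    (fun e c i => dir_step _ _ (L e).w_succ (hev e) c i) ?_ ?_ Cr (·.1) (·.2.1) lab ?_ k
  · intro a b hab hne c
    exact (L a).sep (L b) hr hP hm (by rw [hLp, hLp]; exact fun h => hne (hinj a b hab h)) c
  · intro a b c hab e
    have : ∃ f n, (L f).w n = c := by
      by_contra hc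
      push Not at hc
      have t1 := dir_of_not_visit _ _ (L a).w_succ (hev a) (hc a)
      have t2 := dir_of_not_visit _ _ (L b).w_succ (hev b) (hc b)
      simp only [Leg.w] at t1 t2
      rw [t1] at t2
      exact hab (by simpa using t2)
    obtain ⟨f, n, rfl⟩ := this
    exact dir_lt _ _ (L e).w_succ (hev e) rfl (L e).ℓ_lt
      (letters_lt _ _ (L f).w_succ rfl (L f).ℓ_lt n)
  · intro a b u v g c l ha hb hg huv hlab a0 a1 a2 b0 b1 b2
    have dj := fun i j => disj (a i) (b j) g hg (by rw [ha, hb]; exact huv)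
      (fun x hx => hlab i j _ hx rfl rfl)
    have g0 : ∀ i i', (L (a i)).γ 0 = (L (a i')).γ 0 := fun i i' => by
      rw [hLγ, hLγ, h0, h0, ha, ha]
    have g1 : ∀ i i', (L (b i)).γ 0 = (L (b i')).γ 0 := fun i i' => by
      rw [hLγ, hLγ, h0, h0, hb, hb]
    have parity : ∀ i j k l, (L (a i)).w k = g * (L (b j)).w l → k % 2 = l % 2 := by
      intro i j k l hw
      apply mod_two_of_par
      rw [← (L (a i)).par_w, hw, par_mul, hg, zero_add, (L (b j)).par_w]
    refine tripod (fun i => (L (a i)).w) (fun j n => g * (L (b j)).w n) (fun i => (L (a i)).ℓ)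
      (fun j => (L (b j)).ℓ) (fun i => (L (a i)).w_succ)
      (fun j n => by rw [Leg.w_succ, mul_assoc]) (fun i => hev _) (fun j => hev _) 1 g
      (fun i => rfl) (fun j => mul_one g)
      (fun i k j l => bit P ((L (a i)).X k) ((L (b j)).X l)) (fun i k j l h => bit_of_ne P h)
      ?_ ?_ ?_ ?_ c l a0 a1 a2 (by rwa [dir_mul]) (by rwa [dir_mul]) (by rwa [dir_mul])
    · intro i k j l hw
      have hp := parity i j _ _ hw
      refine (Leg.NI1 _ _ hr hP (by omega) (fun hk hl => dj i j _ hk _ hl hw) ?_).bits P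
      intro hk hl hland hkl
      have hab := land_inj _ _ hland
      rw [← hab] at hkl hl hw
      have : k = l := by omega
      subst this
      rcases huv with h | h
      · exact h (by rw [← ha i, hab, hb j])
      · exact h (by simpa using hw.symm)
    · intro i i' j l hw
      have hp := parity i j 0 _ hw
      exact (Leg.NI2 _ _ _ hr hP (g0 i i') (by omega)
        (fun hl => ⟨dj i j 0 (Nat.zero_le _) _ hl hw, dj i' j 0 (Nat.zero_le _) _ hl hw⟩)).bits P
    · intro i k j j' hw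
      have hw' : ∀ j, (L (a i)).w (k + 1) = g * (L (b j)).w 0 := fun j => hw.trans (mul_one g).symm
      have hp := parity i j _ _ (hw' j)
      exact (Leg.NI2 _ _ _ hr hP (g1 j j') (by omega)
        (fun hl => ⟨(dj i j _ hl 0 (Nat.zero_le _) (hw' j)).symm,
          (dj i j' _ hl 0 (Nat.zero_le _) (hw' j')).symm⟩)).symm.bits P
    · intro i i' j j' hw
      have hw' : ∀ i j, (L (a i)).w 0 = g * (L (b j)).w 0 := fun i j => hw.trans (mul_one g).symm
      exact (Leg.NI4 _ _ _ _ hr hP (g0 i i') (g1 j j')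
        (dj i j 0 (Nat.zero_le _) 0 (Nat.zero_le _) (hw' i j))
        (dj i j' 0 (Nat.zero_le _) 0 (Nat.zero_le _) (hw' i j'))
        (dj i' j 0 (Nat.zero_le _) 0 (Nat.zero_le _) (hw' i' j))
        (dj i' j' 0 (Nat.zero_le _) 0 (Nat.zero_le _) (hw' i' j'))).bits P

end Pool.Agent.Lib.MP_d3b8e5_co
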