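import Pool.Agent.Lib.MP_d3b8e5_co.Tripod
import Pool.Agent.Shared.PlaneArcs

/-!
Truncated legs cut into chords by the real axis, continued by a spiral around the end point.
-/

set_option autoImplicit false

namespace Pool.Agent.Lib.MP_d3b8e5_co

open Set

def sg (k : ℕ) : ℝ := if k % 2 = 0 then 1 else -1

lemma sg_cases (k : ℕ) : (k % 2 = 0 ∧ sg k = 1) ∨ (k % 2 = 1 ∧ sg k = -1) := by
  unfold sg
  rcases Nat.mod_two_eq_zero_or_one k with h | h <;> simp [h]

lemma sg_succ (k : ℕ) : sg (k + 1) = - sg k := by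
  unfold sg
  rcases Nat.mod_two_eq_zero_or_one k with h | h
  · have : (k + 1) % 2 = 1 := by omega
    simp [h, this]
  · have : (k + 1) % 2 = 0 := by omega
    simp [h, this]

lemma sg_congr {k l : ℕ} (h : k % 2 = l % 2) : sg k = sg l := by unfold sg; rw [h]

lemma sg_mul_self (k : ℕ) : sg k * sg k = 1 := by
  rcases sg_cases k with ⟨-, h⟩ | ⟨-, h⟩ <;> rw [h] <;> norm_num

lemma abs_sg_mul (k : ℕ) (x : ℝ) : |sg k * x| = |x| := by
  rcases sg_cases k with ⟨-, h⟩ | ⟨-, h⟩ <;> rw [h] <;> simp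

/-- Non-interleaving of two pairs of reals. -/
def NI (x x' y y' : ℝ) : Prop := 0 < (x - y) * (x - y') * (x' - y) * (x' - y')

lemma NI.symm {x x' y y' : ℝ} (h : NI x x' y y') : NI y y' x x' := by
  unfold NI at *; linarith [show (y - x) * (y - x') * (y' - x) * (y' - x') =
    (x - y) * (x - y') * (x' - y) * (x' - y') by ring]

lemma NI.of_mul {x x' y y' : ℝ} (h : 0 < ((x - y) * (x' - y)) * ((x - y') * (x' - y'))) :
    NI x x' y y' := by
  unfold NI; linarith [show ((x - y) * (x' - y)) * ((x - y') * (x' - y')) =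
    (x - y) * (x - y') * (x' - y) * (x' - y') by ring]

lemma NI.transfer {x x' y y' X X' Y Y' : ℝ} (h : NI x x' y y') (h1 : 0 < (X - Y) * (x - y))
    (h2 : 0 < (X - Y') * (x - y')) (h3 : 0 < (X' - Y) * (x' - y))
    (h4 : 0 < (X' - Y') * (x' - y')) : NI X X' Y Y' := by
  unfold NI at *
  have := mul_pos (mul_pos (mul_pos h1 h2) h3) h4
  have e : (X - Y) * (x - y) * ((X - Y') * (x - y')) * ((X' - Y) * (x' - y)) *
      ((X' - Y') * (x' - y')) = ((X - Y) * (X - Y') * (X' - Y) * (X' - Y')) *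
      ((x - y) * (x - y') * (x' - y) * (x' - y')) := by ring
  rw [e] at this
  exact (mul_pos_iff_of_pos_right h).mp this

lemma NI.ne {x x' y y' : ℝ} (h : NI x x' y y') : x ≠ y ∧ x ≠ y' ∧ x' ≠ y ∧ x' ≠ y' := by
  unfold NI at h
  refine ⟨?_, ?_, ?_, ?_⟩ <;> rintro rfl <;> simp at h

lemma NI.parity {x x' y y' : ℝ} (h : NI x x' y y') :
    ind (x < y) + ind (x < y') + ind (x' < y) + ind (x' < y') = 0 := by
  obtain ⟨n1, n2, n3, n4⟩ := h.ne
  unfold NI at h
  have key : ∀ a b : ℝ, a ≠ b → ∃ ε : ℝ, 0 < ε ∧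
      ((a < b ∧ a - b = -ε) ∨ (¬ a < b ∧ a - b = ε)) := by
    intro a b hab
    rcases lt_or_gt_of_ne hab with h | h
    · exact ⟨b - a, by linarith, Or.inl ⟨h, by ring⟩⟩
    · exact ⟨a - b, by linarith, Or.inr ⟨by linarith, rfl⟩⟩
  obtain ⟨a, ha, ⟨h1, e1⟩ | ⟨h1, e1⟩⟩ := key _ _ n1 <;>
  obtain ⟨b, hb, ⟨h2, e2⟩ | ⟨h2, e2⟩⟩ := key _ _ n2 <;>
  obtain ⟨c, hc, ⟨h3, e3⟩ | ⟨h3, e3⟩⟩ := key _ _ n3 <;>
  obtain ⟨d, hd, ⟨h4, e4⟩ | ⟨h4, e4⟩⟩ := key _ _ n4 <;>
  rw [e1, e2, e3, e4] at h <;>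
  have hp := mul_pos (mul_pos (mul_pos ha hb) hc) hd <;>
  first
  | (simp only [ind, h1, h2, h3, h4, if_true, if_false]; decide)
  | (exfalso; linarith)

/-- The height of the diamonds of radius `r` around the points of `P`. -/
noncomputable def bump (P : Finset ℝ) (r : ℝ) (x : ℝ) : ℝ := max 0 (r - Metric.infDist x (P : Set ℝ))

lemma continuous_bump (P : Finset ℝ) (r : ℝ) : Continuous (bump P r) :=
  continuous_const.max (continuous_const.sub (Metric.continuous_infDist_pt _))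

lemma bump_nonneg (P : Finset ℝ) (r x : ℝ) : 0 ≤ bump P r x := le_max_left _ _

lemma le_bump {P : Finset ℝ} {r x p : ℝ} (hp : p ∈ P) : r - |x - p| ≤ bump P r x := by
  have := Metric.infDist_le_dist_of_mem (x := x) (s := (P : Set ℝ)) hp
  rw [Real.dist_eq] at this
  exact le_max_of_le_right (by linarith)

lemma bump_le {P : Finset ℝ} {r x y : ℝ} (hP : P.Nonempty) (h : ∀ q ∈ P, r ≤ |x - q| + |y|) :
    bump P r x ≤ |y| := by
  refine max_le (abs_nonneg _) ?_
  have : r - |y| ≤ Metric.infDist x (P : Set ℝ) := by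
    rw [Metric.le_infDist (Finset.coe_nonempty.mpr hP)]
    intro q hq
    rw [Real.dist_eq]
    linarith [h q hq]
  linarith

/-- Fold to the upper half-plane and flatten the diamonds. -/
noncomputable def cl (P : Finset ℝ) (r : ℝ) (k : ℕ) (z : ℂ) : ℂ :=
  (z.re : ℂ) + ((max (sg k * z.im - bump P r z.re) 0 : ℝ) : ℂ) * Complex.I

lemma cl_re (P : Finset ℝ) (r : ℝ) (k : ℕ) (z : ℂ) : (cl P r k z).re = z.re := by simp [cl]

lemma cl_im (P : Finset ℝ) (r : ℝ) (k : ℕ) (z : ℂ) :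
    (cl P r k z).im = max (sg k * z.im - bump P r z.re) 0 := by simp [cl]

lemma continuous_cl (P : Finset ℝ) (r : ℝ) (k : ℕ) : Continuous (cl P r k) := by
  have := continuous_bump P r
  unfold cl
  fun_prop

lemma cl_eq_re {P : Finset ℝ} {r : ℝ} {k : ℕ} {z : ℂ} (h : sg k * z.im ≤ bump P r z.re) :
    cl P r k z = (z.re : ℂ) := by
  rw [cl, max_eq_right (by linarith)]; simp

lemma cl_close {P : Finset ℝ} {r η : ℝ} {k : ℕ} {z z' : ℂ} (hP : P.Nonempty) (hη : 0 < η)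
    (h : cl P r k z = cl P r k z') (hz : -η < sg k * z.im) (hz' : -η < sg k * z'.im)
    (ho : ∀ q ∈ P, r ≤ |z.re - q| + |z.im|) (ho' : ∀ q ∈ P, r ≤ |z'.re - q| + |z'.im|) :
    dist z z' < 2 * η := by
  have hre : z.re = z'.re := by rw [← cl_re P r k z, h, cl_re]
  have him := congrArg Complex.im h
  rw [cl_im, cl_im, ← hre] at him
  have b1 := bump_le hP ho
  have b2 := bump_le hP ho'
  rw [← hre] at b2
  rw [← abs_sg_mul k] at b1 b2
  have b0 := bump_nonneg P r z.re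
  have : |sg k * z.im - sg k * z'.im| < 2 * η := by
    set y := sg k * z.im
    set y' := sg k * z'.im
    set b := bump P r z.re
    rw [abs_lt]
    rcases le_total (y - b) 0 with c1 | c1 <;> rcases le_total (y' - b) 0 with c2 | c2 <;>
      simp only [max_eq_right, max_eq_left, c1, c2] at him <;>
      rcases abs_cases y with ⟨d1, d2⟩ | ⟨d1, d2⟩ <;>
      rcases abs_cases y' with ⟨d3, d4⟩ | ⟨d3, d4⟩ <;> constructor <;> linarith
  rw [← mul_sub, abs_sg_mul] at this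
  rw [Complex.dist_of_re_eq hre, Real.dist_eq]
  exact this

structure Leg (P : Finset ℝ) (r η : ℝ) where
  γ : ℝ → ℂ
  cont : Continuous γ
  p : ℝ
  hp : p ∈ P
  K : ℕ
  u : ℕ → ℝ
  u0 : u 0 = 0
  mono : ∀ k ≤ K, u k ≤ u (k + 1)
  real : ∀ k < K, (γ (u (k + 1))).im = 0
  side : ∀ k ≤ K, ∀ t ∈ Icc (u k) (u (k + 1)), -η < sg k * (γ t).im
  fin0 : K % 2 = 0 → 0 ≤ (γ (u (K + 1))).im
  fin1 : K % 2 = 1 → (γ (u (K + 1))).im < 0
  out : ∀ t ∈ Icc 0 (u (K + 1)), ∀ q ∈ P, r ≤ |(γ t).re - q| + |(γ t).im|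
  land : |(γ (u (K + 1))).re - p| + |(γ (u (K + 1))).im| = r

namespace Leg

variable {P : Finset ℝ} {r η : ℝ}

lemma u_le (e : Leg P r η) {k l : ℕ} (hkl : k ≤ l) (hl : l ≤ e.K + 1) : e.u k ≤ e.u l := by
  induction l, hkl using Nat.le_induction with
  | base => exact le_rfl
  | succ l _ ih => exact (ih (by omega)).trans (e.mono l (by omega))

lemma mem_total (e : Leg P r η) {k : ℕ} (hk : k ≤ e.K) {t : ℝ}
    (ht : t ∈ Icc (e.u k) (e.u (k + 1))) : t ∈ Icc 0 (e.u (e.K + 1)) :=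
  ⟨e.u0 ▸ (e.u_le (Nat.zero_le k) (by omega)).trans ht.1,
    ht.2.trans (e.u_le (by omega) le_rfl)⟩

noncomputable def gpos (e : Leg P r η) (k : ℕ) : ℝ := (e.γ (e.u (k + 1))).re

noncomputable def φ (e : Leg P r η) : ℝ := (1 + sg e.K * (e.gpos e.K - e.p) / r) / 2

noncomputable def τ (e : Leg P r η) (k : ℕ) : ℝ := ((k - e.K : ℕ) : ℝ) + e.φ

noncomputable def X (e : Leg P r η) (k : ℕ) : ℝ :=
  if k < e.K then e.gpos k else e.p - sg k * (r / (2 + e.τ k))

def Ch (e : Leg P r η) (k : ℕ) : Set ℂ :=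
  (fun t => cl P r k (e.γ t)) '' Icc (e.u k) (e.u (k + 1))

lemma Ch_im (e : Leg P r η) (k : ℕ) : ∀ z ∈ e.Ch k, 0 ≤ z.im := by
  rintro z ⟨t, -, rfl⟩
  simp only [cl_im]
  exact le_max_right _ _

lemma Ch_joined (e : Leg P r η) {k : ℕ} (hk : k ≤ e.K) :
    JoinedIn (e.Ch k) (cl P r k (e.γ (e.u k))) (cl P r k (e.γ (e.u (k + 1)))) := by
  have h1 : IsPathConnected (Icc (e.u k) (e.u (k + 1))) :=
    (convex_Icc _ _).isPathConnected ⟨e.u k, left_mem_Icc.mpr (e.mono k hk)⟩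
  have h2 : IsPathConnected (e.Ch k) := h1.image ((continuous_cl P r k).comp e.cont)
  exact h2.joinedIn _ ⟨_, left_mem_Icc.mpr (e.mono k hk), rfl⟩ _
    ⟨_, right_mem_Icc.mpr (e.mono k hk), rfl⟩

lemma cl_end (e : Leg P r η) {k : ℕ} (hk : k ≤ e.K) :
    cl P r k (e.γ (e.u (k + 1))) = (e.gpos k : ℂ) := by
  apply cl_eq_re
  rcases hk.lt_or_eq with h | h
  · rw [e.real k h, mul_zero]; exact bump_nonneg _ _ _
  · subst h
    refine le_trans ?_ (le_bump e.hp)
    have := e.land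
    have h2 := le_abs_self (sg e.K * (e.γ (e.u (e.K + 1))).im)
    rw [abs_sg_mul] at h2
    linarith

lemma cl_start (e : Leg P r η) {k : ℕ} (hk : k < e.K) :
    cl P r (k + 1) (e.γ (e.u (k + 1))) = (e.gpos k : ℂ) := by
  apply cl_eq_re
  rw [e.real k hk, mul_zero]; exact bump_nonneg _ _ _

lemma joined_succ (e : Leg P r η) {k : ℕ} (hk : k + 1 ≤ e.K) :
    JoinedIn (e.Ch (k + 1)) (e.gpos k : ℂ) (e.gpos (k + 1) : ℂ) := by
  have := e.Ch_joined hk
  rwa [e.cl_end hk, e.cl_start (by omega)] at this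

lemma joined_central (e e' : Leg P r η) (h : e.γ 0 = e'.γ 0) :
    JoinedIn (e.Ch 0 ∪ e'.Ch 0) (e.gpos 0 : ℂ) (e'.gpos 0 : ℂ) := by
  have h1 := e.Ch_joined (Nat.zero_le _)
  have h2 := e'.Ch_joined (Nat.zero_le _)
  rw [e.cl_end (Nat.zero_le _), e.u0] at h1
  rw [e'.cl_end (Nat.zero_le _), e'.u0, ← h] at h2
  exact (h1.symm.mono subset_union_left).trans (h2.mono subset_union_right)

lemma gpos_far (e : Leg P r η) {k : ℕ} (hk : k < e.K) {q : ℝ} (hq : q ∈ P) :
    r ≤ |e.gpos k - q| := by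
  have := e.out (e.u (k + 1)) (e.mem_total hk.le (right_mem_Icc.mpr (e.mono k hk.le))) q hq
  rw [e.real k hk] at this
  simpa [gpos] using this

lemma land_abs (e : Leg P r η) : |e.gpos e.K - e.p| ≤ r := by
  have := e.land
  have := abs_nonneg (e.γ (e.u (e.K + 1))).im
  unfold gpos; linarith

lemma φ_eq (e : Leg P r η) (hr : 0 < r) : e.gpos e.K - e.p = sg e.K * (r * (2 * e.φ - 1)) := by
  have := sg_mul_self e.K
  unfold φ
  field_simp
  linear_combination (-(e.gpos e.K - e.p)) * this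

lemma φ_mem (e : Leg P r η) (hr : 0 < r) : 0 ≤ e.φ ∧ e.φ ≤ 1 := by
  have h := e.land_abs
  rw [e.φ_eq hr, abs_sg_mul, abs_mul, abs_of_pos hr] at h
  have : |2 * e.φ - 1| ≤ 1 := by
    by_contra hc
    push Not at hc
    nlinarith
  rw [abs_le] at this
  constructor <;> linarith [this.1, this.2]

lemma φ_mem_odd (e : Leg P r η) (hr : 0 < r) (hK : e.K % 2 = 1) : 0 < e.φ ∧ e.φ < 1 := by
  have h : |e.gpos e.K - e.p| < r := by
    have h1 := e.land
    have h2 := abs_pos.mpr (e.fin1 hK).ne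
    unfold gpos; linarith
  rw [e.φ_eq hr, abs_sg_mul, abs_mul, abs_of_pos hr] at h
  have : |2 * e.φ - 1| < 1 := by
    by_contra hc
    push Not at hc
    nlinarith
  rw [abs_lt] at this
  constructor <;> linarith [this.1, this.2]

lemma τ_nonneg (e : Leg P r η) (hr : 0 < r) (k : ℕ) : 0 ≤ e.τ k :=
  add_nonneg (Nat.cast_nonneg _) (e.φ_mem hr).1

lemma τ_succ (e : Leg P r η) {k : ℕ} (hk : e.K ≤ k) : e.τ (k + 1) = e.τ k + 1 := by
  unfold τ
  rw [Nat.succ_sub hk]; push_cast; ring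

lemma τ_K (e : Leg P r η) : e.τ e.K = e.φ := by simp [τ]

end Leg

lemma R_pos {r t : ℝ} (hr : 0 < r) (ht : 0 ≤ t) : 0 < r / (2 + t) := by positivity

lemma R_le {r t : ℝ} (hr : 0 < r) (ht : 0 ≤ t) : r / (2 + t) ≤ r / 2 :=
  div_le_div_of_nonneg_left hr.le (by norm_num) (by linarith)

lemma R_lt {r t t' : ℝ} (hr : 0 < r) (ht : 0 ≤ t) (h : t < t') : r / (2 + t') < r / (2 + t) :=
  div_lt_div_of_pos_left hr (by linarith) (by linarith)

namespace Leg

variable {P : Finset ℝ} {r η : ℝ}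

lemma X_of_lt (e : Leg P r η) {k : ℕ} (hk : k < e.K) : e.X k = e.gpos k := if_pos hk

lemma X_of_le (e : Leg P r η) {k : ℕ} (hk : e.K ≤ k) :
    e.X k = e.p - sg k * (r / (2 + e.τ k)) := if_neg (not_lt.mpr hk)

lemma X_near (e : Leg P r η) (hr : 0 < r) {k : ℕ} (hk : e.K ≤ k) : |e.X k - e.p| ≤ r / 2 := by
  rw [e.X_of_le hk, sub_sub_cancel_left, abs_neg, abs_sg_mul,
    abs_of_pos (R_pos hr (e.τ_nonneg hr k))]
  exact R_le hr (e.τ_nonneg hr k)

lemma X_far (f : Leg P r η) (hr : 0 < r) (hP : ∀ a ∈ P, ∀ b ∈ P, a ≠ b → 4 * r ≤ |a - b|)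
    {l : ℕ} {q : ℝ} (hq : q ∈ P) (h : l < f.K ∨ f.p ≠ q) : r ≤ |f.X l - q| := by
  by_cases hl : l < f.K
  · rw [f.X_of_lt hl]; exact f.gpos_far hl hq
  · have h1 := f.X_near hr (not_lt.mp hl)
    have h2 := hP _ f.hp _ hq (h.resolve_left hl)
    have h3 := abs_sub_le f.p (f.X l) q
    rw [abs_sub_comm f.p (f.X l)] at h3
    linarith

/-- Order preservation between geometric end points and spiral positions. -/
lemma order_pres (e f : Leg P r η) (hr : 0 < r)
    (hP : ∀ a ∈ P, ∀ b ∈ P, a ≠ b → 4 * r ≤ |a - b|) {k l : ℕ} (hk : k ≤ e.K) (hl : l ≤ f.K)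
    (hne : e.gpos k ≠ f.gpos l) (hpar : k = e.K → l = f.K → k % 2 = l % 2) :
    0 < (e.X k - f.X l) * (e.gpos k - f.gpos l) := by
  have aux : ∀ (e f : Leg P r η) {l : ℕ}, l < f.K → e.gpos e.K ≠ f.gpos l →
      0 < (e.X e.K - f.gpos l) * (e.gpos e.K - f.gpos l) := by
    intro e f l hl hne
    have h1 := abs_le.mp (e.X_near hr le_rfl)
    have h2 := abs_le.mp e.land_abs
    have h3 := f.gpos_far hl e.hp
    rcases le_abs'.mp h3 with h | h
    · exact mul_pos (by linarith [h1.1]) (sub_pos.mpr (lt_of_le_of_ne (by linarith [h2.1]) hne.symm))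
    · exact mul_pos_of_neg_of_neg (by linarith [h1.2])
        (sub_neg.mpr (lt_of_le_of_ne (by linarith [h2.2]) hne))
  rcases hk.lt_or_eq with hk | hk <;> rcases hl.lt_or_eq with hl | hl
  · rw [e.X_of_lt hk, f.X_of_lt hl]
    exact mul_self_pos.mpr (sub_ne_zero.mpr hne)
  · subst hl
    have := aux f e hk hne.symm
    rw [e.X_of_lt hk]; nlinarith
  · subst hk
    rw [f.X_of_lt hl]; exact aux e f hl hne
  · have hs := sg_congr (hpar hk hl)
    subst hk; subst hl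
    by_cases hp : e.p = f.p
    · have h1 := e.φ_eq hr
      have h2 := f.φ_eq hr
      rw [e.X_of_le le_rfl, f.X_of_le le_rfl, τ_K, τ_K, ← hs, ← hp]
      rw [← hs, ← hp] at h2
      have e1 : e.gpos e.K - f.gpos f.K = sg e.K * (2 * r * (e.φ - f.φ)) := by
        linear_combination h1 - h2
      have hφ : e.φ ≠ f.φ := by
        intro h; apply hne; rw [h] at e1; linarith [e1, show sg e.K * (2 * r * (f.φ - f.φ)) = 0 by ring]
      rw [e1]
      have e2 : (e.p - sg e.K * (r / (2 + e.φ)) - (e.p - sg e.K * (r / (2 + f.φ)))) *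
          (sg e.K * (2 * r * (e.φ - f.φ))) =
          (r / (2 + f.φ) - r / (2 + e.φ)) * (2 * r * (e.φ - f.φ)) := by
        linear_combination ((r / (2 + f.φ) - r / (2 + e.φ)) * (2 * r * (e.φ - f.φ))) *
          sg_mul_self e.K
      rw [e2]
      rcases lt_or_gt_of_ne hφ with h | h
      · exact mul_pos_of_neg_of_neg (sub_neg.mpr (R_lt hr (e.φ_mem hr).1 h))
          (mul_neg_of_pos_of_neg (by linarith) (by linarith))
      · exact mul_pos (sub_pos.mpr (R_lt hr (f.φ_mem hr).1 h))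
          (mul_pos (by linarith) (by linarith))
    · have h1 := abs_le.mp (e.X_near hr le_rfl)
      have h2 := abs_le.mp e.land_abs
      have h3 := abs_le.mp (f.X_near hr le_rfl)
      have h4 := abs_le.mp f.land_abs
      rcases le_abs'.mp (hP _ e.hp _ f.hp hp) with h | h
      · exact mul_pos_of_neg_of_neg (by linarith [h1.2, h3.1]) (by linarith [h2.2, h4.1])
      · exact mul_pos (by linarith [h1.1, h3.2]) (by linarith [h2.1, h4.2])

lemma spiral_prod (e : Leg P r η) {k : ℕ} (hk : e.K ≤ k) (y : ℝ) :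
    (e.X k - y) * (e.X (k + 1) - y) =
      (sg k * (e.p - y) - r / (2 + e.τ k)) * (sg k * (e.p - y) + r / (2 + (e.τ k + 1))) := by
  rw [e.X_of_le hk, e.X_of_le (by omega), e.τ_succ hk, sg_succ]
  linear_combination (-(e.p - y) ^ 2 - r / (2 + e.τ k) * (r / (2 + (e.τ k + 1)))) * sg_mul_self k
    + 0 * sg_mul_self k

lemma spiral_far (e : Leg P r η) (hr : 0 < r) {k : ℕ} (hk : e.K ≤ k) {y : ℝ}
    (hy : r ≤ |y - e.p|) : 0 < (e.X k - y) * (e.X (k + 1) - y) := by
  rw [e.spiral_prod hk]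
  have t0 := e.τ_nonneg hr k
  have a1 := R_pos hr t0
  have a2 := R_le hr t0
  have a3 := R_pos hr (show 0 ≤ e.τ k + 1 by linarith)
  have a4 := R_le hr (show 0 ≤ e.τ k + 1 by linarith)
  rw [abs_sub_comm, ← abs_sg_mul k] at hy
  rcases le_abs'.mp hy with h | h
  · exact mul_pos_of_neg_of_neg (by linarith) (by linarith)
  · exact mul_pos (by linarith) (by linarith)

/-- End points of real chords on the same side lie outside a spiral chord. -/
lemma spiral_end (e f : Leg P r η) (hr : 0 < r)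
    (hP : ∀ a ∈ P, ∀ b ∈ P, a ≠ b → 4 * r ≤ |a - b|) {k l : ℕ} (hk : e.K ≤ k) (hl : l ≤ f.K)
    (hpar : l = f.K → (k + 1) % 2 = l % 2) : 0 < (e.X k - f.X l) * (e.X (k + 1) - f.X l) := by
  by_cases h : l < f.K ∨ f.p ≠ e.p
  · exact e.spiral_far hr hk (f.X_far hr hP e.hp h)
  push Not at h
  obtain ⟨h1, h2⟩ := h
  have hl' : l = f.K := le_antisymm hl h1
  have hpar' := hpar hl'
  have hs : sg l = - sg k := by rw [← sg_congr hpar', sg_succ]
  subst hl'
  rw [e.spiral_prod hk, f.X_of_le le_rfl, hs, h2, τ_K]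
  have e1 : sg k * (e.p - (e.p - -sg k * (r / (2 + f.φ)))) = -(r / (2 + f.φ)) := by
    linear_combination (-(r / (2 + f.φ))) * sg_mul_self k
  rw [e1]
  have t0 := e.τ_nonneg hr k
  have hlt : f.φ < e.τ k + 1 := by
    rcases Nat.mod_two_eq_zero_or_one f.K with c | c
    · rcases hk.lt_or_eq with c2 | c2
      · have : (1 : ℝ) ≤ ((k - e.K : ℕ) : ℝ) := by exact_mod_cast (show 1 ≤ k - e.K by omega)
        have := (e.φ_mem hr).1
        have := (f.φ_mem hr).2
        unfold τ; linarith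
      · subst c2
        have := (e.φ_mem_odd hr (by omega)).1
        have := (f.φ_mem hr).2
        rw [τ_K]; linarith
    · have := (f.φ_mem_odd hr c).2
      linarith
  have a1 := R_pos hr t0
  have a2 := R_pos hr (f.φ_mem hr).1
  have a3 := R_lt hr (f.φ_mem hr).1 hlt
  exact mul_pos_of_neg_of_neg (by linarith) (by linarith)

lemma τ_ne (e f : Leg P r η) (hr : 0 < r) {k l : ℕ} (hk : e.K ≤ k) (hl : f.K ≤ l)
    (hp : f.p = e.p) (hpar : k % 2 = l % 2)
    (hne : e.γ (e.u (e.K + 1)) = f.γ (f.u (f.K + 1)) → k - e.K ≠ l - f.K) : e.τ k ≠ f.τ l := by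
  intro h
  unfold τ at h
  have m1 := e.φ_mem hr
  have m2 := f.φ_mem hr
  have c1 : ((k - e.K : ℕ) : ℝ) ≤ ((l - f.K : ℕ) : ℝ) + 1 := by linarith [m1.1, m2.2]
  have c2 : ((l - f.K : ℕ) : ℝ) ≤ ((k - e.K : ℕ) : ℝ) + 1 := by linarith [m1.2, m2.1]
  have d1 : k - e.K ≤ l - f.K + 1 := by exact_mod_cast c1
  have d2 : l - f.K ≤ k - e.K + 1 := by exact_mod_cast c2
  by_cases hK : e.K % 2 = f.K % 2
  · have d3 : k - e.K = l - f.K := by omega
    refine hne ?_ d3
    rw [d3] at h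
    have hφ : e.φ = f.φ := by linarith
    have g1 := e.φ_eq hr
    have g2 := f.φ_eq hr
    rw [← sg_congr hK, ← hφ, hp] at g2
    have hre : (e.γ (e.u (e.K + 1))).re = (f.γ (f.u (f.K + 1))).re := by
      unfold gpos at g1 g2; linarith
    have l1 := e.land
    have l2 := f.land
    rw [hp, ← hre] at l2
    have habs : |(e.γ (e.u (e.K + 1))).im| = |(f.γ (f.u (f.K + 1))).im| := by linarith
    refine Complex.ext hre ?_
    rcases Nat.mod_two_eq_zero_or_one e.K with c | c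
    · rwa [abs_of_nonneg (e.fin0 c), abs_of_nonneg (f.fin0 (by omega))] at habs
    · rw [abs_of_neg (e.fin1 c), abs_of_neg (f.fin1 (by omega))] at habs
      linarith
  · have d3 : k - e.K = l - f.K + 1 ∨ l - f.K = k - e.K + 1 := by omega
    have odd : (0 < e.φ ∧ e.φ < 1) ∨ (0 < f.φ ∧ f.φ < 1) := by
      rcases Nat.mod_two_eq_zero_or_one e.K with c | c
      · exact Or.inr (f.φ_mem_odd hr (by omega))
      · exact Or.inl (e.φ_mem_odd hr c)
    rcases d3 with d | d <;> rw [d] at h <;> push_cast at h <;>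
      rcases odd with o | o <;> linarith [o.1, o.2, m1.1, m1.2, m2.1, m2.2]

/-- A spiral chord against an ordinary chord. -/
lemma NI_spiral (e f : Leg P r η) (hr : 0 < r)
    (hP : ∀ a ∈ P, ∀ b ∈ P, a ≠ b → 4 * r ≤ |a - b|) {k l : ℕ} (hk : e.K ≤ k)
    (hpar : k % 2 = l % 2)
    (hne : f.K ≤ l → e.γ (e.u (e.K + 1)) = f.γ (f.u (f.K + 1)) → k - e.K ≠ l - f.K) :
    NI (e.X k) (e.X (k + 1)) (f.X l) (f.X (l + 1)) := by
  apply NI.of_mul
  by_cases hl : l < f.K
  · exact mul_pos (e.spiral_far hr hk (f.X_far hr hP e.hp (Or.inl hl)))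
      (e.spiral_end f hr hP hk hl (fun _ => by omega))
  by_cases hp : f.p = e.p
  swap
  · exact mul_pos (e.spiral_far hr hk (f.X_far hr hP e.hp (Or.inr hp)))
      (e.spiral_far hr hk (f.X_far hr hP e.hp (Or.inr hp)))
  have hl' := not_lt.mp hl
  have hτ := e.τ_ne f hr hk hl' hp hpar (hne hl')
  have hs : sg l = sg k := (sg_congr hpar).symm
  rw [e.spiral_prod hk, e.spiral_prod hk, f.X_of_le hl', f.X_of_le (by omega), f.τ_succ hl',
    sg_succ, hs, hp]
  have e1 : sg k * (e.p - (e.p - sg k * (r / (2 + f.τ l)))) = r / (2 + f.τ l) := by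
    linear_combination (r / (2 + f.τ l)) * sg_mul_self k
  have e2 : sg k * (e.p - (e.p - -sg k * (r / (2 + (f.τ l + 1))))) = -(r / (2 + (f.τ l + 1))) := by
    linear_combination (-(r / (2 + (f.τ l + 1)))) * sg_mul_self k
  rw [e1, e2]
  have t0 := e.τ_nonneg hr k
  have t1 := f.τ_nonneg hr l
  have a1 := R_pos hr t0
  have a2 := R_pos hr t1
  have a3 := R_pos hr (show 0 ≤ e.τ k + 1 by linarith)
  have a4 := R_pos hr (show 0 ≤ f.τ l + 1 by linarith)
  rcases lt_or_gt_of_ne hτ with h | h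
  · have b1 := R_lt hr t0 h
    have b2 := R_lt hr (show 0 ≤ e.τ k + 1 by linarith) (show e.τ k + 1 < f.τ l + 1 by linarith)
    exact mul_pos_of_neg_of_neg (mul_neg_of_neg_of_pos (by linarith) (by linarith))
      (mul_neg_of_neg_of_pos (by linarith) (by linarith))
  · have b1 := R_lt hr t1 h
    have b2 := R_lt hr (show 0 ≤ f.τ l + 1 by linarith) (show f.τ l + 1 < e.τ k + 1 by linarith)
    exact mul_pos (mul_pos (by linarith) (by linarith))
      (mul_pos_of_neg_of_neg (by linarith) (by linarith))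

end Leg

end Pool.Agent.Lib.MP_d3b8e5_co
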