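import Pool.Agent.Lib.MP_d3b8e5_co.Geo
import Pool.Agent.Lib.MP_d3b8e5_co.Defs

/-!
The lower bound for the crossing number of a bipartite graph.
-/

set_option autoImplicit false

namespace Pool.Agent.Lib.MP_d3b8e5_co

open Set

lemma exists_shear (F : Finset ℂ) (r : ℂ → ℝ) : ∃ Ψ : ℂ → ℂ, Continuous Ψ ∧
    Function.Injective Ψ ∧ InjOn (fun z => (Ψ z).re) F ∧ ∀ z ∈ F, (Ψ z).im = r z := by
  classical
  obtain ⟨μ, hμ⟩ := Infinite.exists_notMem_finset
    ((F ×ˢ F).image fun p : ℂ × ℂ => -(p.1.re - p.2.re) / (p.1.im - p.2.im))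
  set x : ℂ → ℝ := fun z => z.re + μ * z.im with hx
  have hinj : InjOn x F := by
    intro z hz z' hz' h
    simp only [hx] at h
    by_cases c : z.im = z'.im
    · exact Complex.ext (by rw [c] at h; linarith) c
    · exfalso
      apply hμ
      refine Finset.mem_image.mpr ⟨(z, z'), Finset.mem_product.mpr ⟨hz, hz'⟩, ?_⟩
      have := sub_ne_zero.mpr c
      field_simp
      linarith
  set h := Lagrange.interpolate F x (fun z => z.im - r z) with hh
  have hc : Continuous fun t : ℝ => h.eval t := h.continuous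
  refine ⟨fun z => (x z : ℂ) + ((z.im - h.eval (x z) : ℝ) : ℂ) * Complex.I, by fun_prop, ?_, ?_, ?_⟩
  · intro z z' hz
    have h1 := congrArg Complex.re hz
    have h2 := congrArg Complex.im hz
    simp only [Complex.add_re, Complex.ofReal_re, Complex.mul_re, Complex.I_re, mul_zero,
      Complex.ofReal_im, Complex.I_im, mul_one, sub_self, add_zero, Complex.add_im, Complex.mul_im,
      zero_add] at h1 h2
    rw [h1] at h2
    have h3 : z.im = z'.im := by linarith
    simp only [hx, h3] at h1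
    exact Complex.ext (by linarith) h3
  · intro z hz z' hz' hzz
    apply hinj hz hz'
    simpa using hzz
  · intro z hz
    have := Lagrange.eval_interpolate_at_node (fun z : ℂ => z.im - r z) hinj hz
    simp only [Complex.add_im, Complex.ofReal_im, Complex.mul_im, Complex.ofReal_re, Complex.I_im,
      mul_one, Complex.I_re, mul_zero, add_zero, zero_add, hh, this]
    ring

lemma exists_oriented {A B : Type} {G : SimpleGraph (A ⊕ B)} (hG : G ≤ completeBipartiteGraph A B)
    (D : Drawing G) (e : G.edgeSet) : ∃ (a : A) (b : B) (γ : ℝ → ℂ),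
      (e : Sym2 (A ⊕ B)) = s(Sum.inl a, Sum.inr b) ∧ Continuous γ ∧ InjOn γ (Icc 0 1) ∧
      γ 0 = D.pos (Sum.inr b) ∧ γ 1 = D.pos (Sum.inl a) ∧
      ∀ t ∈ Ioo (0 : ℝ) 1, ∃ t', t' ≠ 0 ∧ t' ≠ 1 ∧ D.arc e t' = γ t := by
  obtain ⟨u, v, huv, h0, h1⟩ := D.arc_ends e
  have hadj : (completeBipartiteGraph A B).Adj u v := hG (by
    have := e.2
    rw [huv] at this
    exact this)
  have pinj : InjOn (projIcc (0 : ℝ) 1 zero_le_one) (Icc 0 1) := by
    intro a ha b hb h
    rw [projIcc_of_mem _ ha, projIcc_of_mem _ hb] at h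
    exact congrArg Subtype.val h
  have pne : ∀ t ∈ Ioo (0 : ℝ) 1, projIcc (0 : ℝ) 1 zero_le_one t ≠ 0 ∧
      projIcc (0 : ℝ) 1 zero_le_one t ≠ 1 := by
    intro t ht
    rw [projIcc_of_mem _ (Ioo_subset_Icc_self ht)]
    exact ⟨fun h => ht.1.ne' (congrArg Subtype.val h), fun h => ht.2.ne (congrArg Subtype.val h)⟩
  have p0 : projIcc (0 : ℝ) 1 zero_le_one 0 = 0 := projIcc_left _
  have p1 : projIcc (0 : ℝ) 1 zero_le_one 1 = 1 := projIcc_right _
  rcases u with a | b <;> rcases v with a' | b' <;> simp at hadj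
  · refine ⟨a, b', fun t => D.arc e (projIcc 0 1 zero_le_one (1 - t)), huv,
      (D.arc_cont e).comp (continuous_projIcc.comp (by fun_prop)), ?_, ?_, ?_, ?_⟩
    · intro x hx y hy h
      have := pinj ⟨by linarith [hx.2], by linarith [hx.1]⟩ ⟨by linarith [hy.2], by linarith [hy.1]⟩
        (D.arc_inj e h)
      linarith
    · simp only [sub_zero, p1, h1]
    · simp only [sub_self, p0, h0]
    · intro t ht
      have := pne (1 - t) ⟨by linarith [ht.2], by linarith [ht.1]⟩
      exact ⟨_, this.1, this.2, rfl⟩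
  · refine ⟨a', b, fun t => D.arc e (projIcc 0 1 zero_le_one t), by rw [huv, Sym2.eq_swap],
      (D.arc_cont e).comp continuous_projIcc, fun x hx y hy h => pinj hx hy (D.arc_inj e h),
      by simp only [p0, h0], by simp only [p1, h1], ?_⟩
    intro t ht
    exact ⟨_, (pne t ht).1, (pne t ht).2, rfl⟩

theorem drawing_lower {A B : Type} [Fintype A] [Fintype B] (hA : 3 ≤ Fintype.card A)
    {G : SimpleGraph (A ⊕ B)} (hG : G ≤ completeBipartiteGraph A B) (D : Drawing G)
    (hfin : D.crossings.Finite) (k : ℕ) :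
    k * G.edgeSet.ncard ≤ D.crossings.ncard + 2 * k * Fintype.card B +
      (Fintype.card A - 2) * (k * (k + 1)) := by
  classical
  have : Fintype G.edgeSet := Fintype.ofFinite _
  choose a b γ hab hγ hγi h0 h1 hin using exists_oriented hG D
  set C0 := hfin.toFinset with hC0
  obtain ⟨Ψ, hΨc, hΨi, hΨre, hΨim⟩ := exists_shear (Finset.univ.image D.pos ∪ C0.image (·.2))
    (fun z => if z ∈ range (fun a => D.pos (Sum.inl a)) then 0 else 1)
  have memF : ∀ v, D.pos v ∈ Finset.univ.image D.pos ∪ C0.image (·.2) := fun v =>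
    Finset.mem_union_left _ (Finset.mem_image_of_mem _ (Finset.mem_univ v))
  set x : A → ℝ := fun a => (Ψ (D.pos (Sum.inl a))).re with hx
  have xinj : Function.Injective x := fun a a' h =>
    Sum.inl_injective (D.pos_inj (hΨre (memF _) (memF _) h))
  have hΨA : ∀ a, Ψ (D.pos (Sum.inl a)) = x a := fun a =>
    Complex.ext (by simp [hx]) (by rw [hΨim _ (memF _)]; simp)
  set P : Finset ℝ := Finset.univ.image x with hP
  have hPc : P.card = Fintype.card A := by
    rw [hP, Finset.card_image_of_injective _ xinj, Finset.card_univ]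
  set Cr : Finset (G.edgeSet × G.edgeSet × ℂ) := C0.biUnion fun c =>
    {(c.1.out.1, c.1.out.2, Ψ c.2), (c.1.out.2, c.1.out.1, Ψ c.2)} with hCr
  have hCrc : Cr.card ≤ 2 * D.crossings.ncard := by
    rw [ncard_eq_toFinset_card _ hfin, mul_comm]
    exact Finset.card_biUnion_le_card_mul _ _ _ fun c _ => Finset.card_le_two
  have main := count_norm P (by omega) b (fun e => x (a e))
    (fun e => Finset.mem_image_of_mem _ (Finset.mem_univ _))
    (fun e f h1 h2 => Subtype.ext (by rw [hab, hab, h1, xinj h2]))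
    (fun e t => Ψ (γ e t)) (fun e => hΨc.comp (hγ e)) (fun e => hΨi.comp_injOn (hγi e))
    (fun v => Ψ (D.pos (Sum.inr v))) (fun v v' h => Sum.inr_injective (D.pos_inj (hΨi h)))
    (fun v => by
      rw [hΨim _ (memF _), if_neg]
      rintro ⟨a, ha⟩
      exact Sum.inl_ne_inr (D.pos_inj ha))
    (fun e => by simp only [h0]) (fun e => by simp only [h1, hΨA])
    (fun e t ht => by
      obtain ⟨t', n0, n1, ht'⟩ := hin e t ht
      refine ⟨fun v h => D.arc_avoid e t' _ n0 n1 (ht'.trans (hΨi h)), fun q hq h => ?_⟩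
      obtain ⟨a, -, rfl⟩ := Finset.mem_image.mp hq
      rw [← hΨA] at h
      exact D.arc_avoid e t' _ n0 n1 (ht'.trans (hΨi h)))
    Cr (fun e f hef s hs t ht h => by
      have h' := hΨi h
      obtain ⟨s', m0, m1, hs'⟩ := hin e s hs
      obtain ⟨t', n0, n1, ht'⟩ := hin f t ht
      have hc : (s(e, f), γ e s) ∈ C0 := by
        rw [hC0, Set.Finite.mem_toFinset]
        refine ⟨by simpa using hef, fun g hg => ?_⟩
        rcases Sym2.mem_iff.mp hg with rfl | rfl
        · exact ⟨s', m0, m1, hs'⟩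
        · exact ⟨t', n0, n1, ht'.trans h'.symm⟩
      refine ⟨Finset.mem_biUnion.mpr ⟨_, hc, ?_⟩, ?_⟩
      · have : s((s(e, f) : Sym2 G.edgeSet).out.1, (s(e, f) : Sym2 G.edgeSet).out.2) = s(e, f) :=
          Quot.out_eq _
        rcases Sym2.eq_iff.mp this with ⟨c1, c2⟩ | ⟨c1, c2⟩ <;> simp [c1, c2]
      · rw [hΨim _ (Finset.mem_union_right _ (Finset.mem_image_of_mem (·.2) hc)), if_neg]
        rintro ⟨a, ha⟩
        exact D.arc_avoid e s' _ m0 m1 (hs'.trans ha.symm)) k
  rw [hPc, ← Nat.card_eq_fintype_card, Nat.card_coe_set_eq] at main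
  nlinarith

theorem cr_lower {A B : Type} [Fintype A] [Fintype B] (hA : 3 ≤ Fintype.card A)
    {G : SimpleGraph (A ⊕ B)} (hG : G ≤ completeBipartiteGraph A B) (k : ℕ) :
    ((k * G.edgeSet.ncard - (2 * k * Fintype.card B + (Fintype.card A - 2) * (k * (k + 1))) : ℕ) :
      ℕ∞) ≤ cr G := by
  refine le_iInf fun D => ?_
  by_cases hfin : D.crossings.Finite
  · rw [← hfin.cast_ncard_eq]
    have := drawing_lower hA hG D hfin k
    exact_mod_cast (by omega)
  · rw [Set.Infinite.encard_eq hfin]; exact le_top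

theorem cr₂_lower {A B : Type} [Fintype A] [Fintype B] (hA : 3 ≤ Fintype.card A) (k : ℕ) :
    ((k * (Fintype.card A * Fintype.card B) -
      (4 * k * Fintype.card B + 2 * ((Fintype.card A - 2) * (k * (k + 1)))) : ℕ) : ℕ∞) ≤
      cr₂ (completeBipartiteGraph A B) := by
  classical
  refine le_iInf fun G₁ => le_iInf fun G₂ => le_iInf fun h => ?_
  have h1 := cr_lower hA (G := G₁) (h ▸ le_sup_left) k
  have h2 := cr_lower hA (G := G₂) (h ▸ le_sup_right) k
  refine le_trans ?_ (add_le_add h1 h2)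
  have h3 : Fintype.card A * Fintype.card B ≤ G₁.edgeSet.ncard + G₂.edgeSet.ncard := by
    refine le_trans ?_ (ncard_union_le _ _)
    rw [← SimpleGraph.edgeSet_sup, h, ← Fintype.card_prod, ← Nat.card_eq_fintype_card,
      ← ncard_univ]
    refine ncard_le_ncard_of_injOn (fun p : A × B => s(Sum.inl p.1, Sum.inr p.2))
      (fun p _ => by simp) (fun p _ p' _ hp => ?_) (toFinite _)
    simp at hp
    exact Prod.ext hp.1 hp.2
  have h4 := Nat.mul_le_mul_left k h3
  rw [mul_add] at h4
  have h5 : 4 * k * Fintype.card B = 2 * k * Fintype.card B + 2 * k * Fintype.card B := by ring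
  exact_mod_cast (by omega)

end Pool.Agent.Lib.MP_d3b8e5_co
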