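import Pool.Agent.Lib.MP_d3b8e5_co.Units

/-!
The parity argument: two tripods without interleaved chords cannot share a branch unit.
-/

set_option autoImplicit false

namespace Pool.Agent.Lib.MP_d3b8e5_co

open Filter Finset

def ind (p : Prop) [Decidable p] : ZMod 2 := if p then 1 else 0

def dbl (x : ℕ → ZMod 2) : ℕ → ZMod 2
  | 0 => x 0
  | k + 1 => x (k + 1) + x k

lemma sum_dbl (f x : ℕ → ZMod 2) (N : ℕ) :
    ∑ k ∈ range (N + 1), f k * dbl x k + f (N + 1) * x N =
      ∑ k ∈ range (N + 1), (f k + f (k + 1)) * x k := by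
  induction N with
  | zero => simp [dbl]; ring
  | succ N ih =>
    rw [sum_range_succ _ (N + 1), sum_range_succ _ (N + 1), ← ih]
    simp only [dbl]
    ring

def PP (a b : ℕ → W) (β : ℕ → ℕ → ZMod 2) (N : ℕ) : ZMod 2 :=
  ∑ k ∈ range (N + 1), ∑ l ∈ range (N + 1), ind (a k = b l) * dbl (fun k => dbl (β k) l) k

def olt : Option ℕ → Option ℕ → ZMod 2
  | some x, some y => ind (x < y)
  | _, _ => 0

lemma olt_none_left (v : Option ℕ) : olt none v = 0 := by cases v <;> rfl
lemma olt_none_right (v : Option ℕ) : olt v none = 0 := by cases v <;> rfl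

lemma telescope (F : Option ℕ → ZMod 2) (hF : F none = 0) (a : ℕ → W) (la : ℕ → ℕ)
    (ha : ∀ k, a (k + 1) = a k * s (la k)) (c : W) (N : ℕ) :
    ∑ k ∈ range N, F (some (la k)) * (ind (a k = c) + ind (a (k + 1) = c)) =
      F (first (c⁻¹ * a 0)) + F (first (c⁻¹ * a N)) := by
  induction N with
  | zero => simp [CharTwo.add_self_eq_zero]
  | succ N ih =>
    rw [sum_range_succ, ih, ha N]
    have := first_step F hF c (a N) (la N)
    unfold ind
    rw [← this]
    have h2 : F (first (c⁻¹ * a N)) + F (first (c⁻¹ * a N)) = 0 := CharTwo.add_self_eq_zero _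
    linear_combination h2

lemma sum_ind_mul (C : Finset W) (u v : W) (hu : u ∈ C) :
    ∑ c ∈ C, ind (u = c) * ind (v = c) = ind (u = v) := by
  rw [sum_eq_single u]
  · simp [ind, eq_comm]
  · intro c _ hc
    simp [ind, hc.symm]
  · intro h; exact absurd hu h

lemma PP_eq (a b : ℕ → W) (la lb : ℕ → ℕ) (ha : ∀ k, a (k + 1) = a k * s (la k))
    (hb : ∀ k, b (k + 1) = b k * s (lb k)) (β : ℕ → ℕ → ZMod 2)
    (hβ : ∀ k l, la k ≠ lb l → β k l = ind (la k < lb l)) (N : ℕ)
    (h1 : ∀ l ≤ N + 1, a (N + 1) ≠ b l) (h2 : ∀ k ≤ N + 1, a k ≠ b (N + 1))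
    (C : Finset W) (hC : ∀ k ≤ N + 1, a k ∈ C) :
    PP a b β N = ∑ c ∈ C, (olt (first (c⁻¹ * a 0)) (first (c⁻¹ * b 0)) +
      olt (first (c⁻¹ * a 0)) (first (c⁻¹ * b (N + 1))) +
      olt (first (c⁻¹ * a (N + 1))) (first (c⁻¹ * b 0)) +
      olt (first (c⁻¹ * a (N + 1))) (first (c⁻¹ * b (N + 1)))) := by
  have step1 : PP a b β N = ∑ k ∈ range (N + 1), ∑ l ∈ range (N + 1),
      (ind (a k = b l) + ind (a (k + 1) = b l)) * dbl (β k) l := by
    rw [PP, sum_comm, sum_comm (s := range (N + 1)) (t := range (N + 1))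
      (f := fun k l => (ind (a k = b l) + ind (a (k + 1) = b l)) * dbl (β k) l)]
    refine sum_congr rfl fun l hl => ?_
    rw [← sum_dbl (fun k => ind (a k = b l)) (fun k => dbl (β k) l) N]
    have : ind (a (N + 1) = b l) = 0 := by
      simp [ind, h1 l (by have := mem_range.mp hl; omega)]
    simp [this]
  have step2 : PP a b β N = ∑ k ∈ range (N + 1), ∑ l ∈ range (N + 1),
      ((ind (a k = b l) + ind (a (k + 1) = b l)) +
        (ind (a k = b (l + 1)) + ind (a (k + 1) = b (l + 1)))) * β k l := by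
    rw [step1]
    refine sum_congr rfl fun k hk => ?_
    rw [← sum_dbl (fun l => ind (a k = b l) + ind (a (k + 1) = b l)) (β k) N]
    have e1 : ind (a k = b (N + 1)) = 0 := by
      simp [ind, h2 k (by have := mem_range.mp hk; omega)]
    have e2 : ind (a (k + 1) = b (N + 1)) = 0 := by
      simp [ind, h2 (k + 1) (by have := mem_range.mp hk; omega)]
    simp [e1, e2]
  have step3 : PP a b β N = ∑ k ∈ range (N + 1), ∑ l ∈ range (N + 1), ∑ c ∈ C,
      olt (some (la k)) (some (lb l)) * (ind (a k = c) + ind (a (k + 1) = c)) *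
        (ind (b l = c) + ind (b (l + 1) = c)) := by
    rw [step2]
    refine sum_congr rfl fun k hk => sum_congr rfl fun l _ => ?_
    have hk' := mem_range.mp hk
    have e : ∑ c ∈ C, olt (some (la k)) (some (lb l)) * (ind (a k = c) + ind (a (k + 1) = c)) *
        (ind (b l = c) + ind (b (l + 1) = c)) = olt (some (la k)) (some (lb l)) *
        ((ind (a k = b l) + ind (a (k + 1) = b l)) +
          (ind (a k = b (l + 1)) + ind (a (k + 1) = b (l + 1)))) := by
      rw [← sum_ind_mul C (a k) (b l) (hC k (by omega)),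
        ← sum_ind_mul C (a (k + 1)) (b l) (hC _ (by omega)),
        ← sum_ind_mul C (a k) (b (l + 1)) (hC k (by omega)),
        ← sum_ind_mul C (a (k + 1)) (b (l + 1)) (hC _ (by omega)),
        ← sum_add_distrib, ← sum_add_distrib, ← sum_add_distrib, mul_sum]
      exact sum_congr rfl fun c _ => by ring
    rw [e]
    by_cases hl : la k = lb l
    · have e1 : (a (k + 1) = b (l + 1)) ↔ (a k = b l) := by
        rw [ha, hb, hl, mul_left_inj]
      have e2 : (a (k + 1) = b l) ↔ (a k = b (l + 1)) := by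
        rw [ha, hb, hl]
        constructor
        · intro h; rw [← h, mul_s_mul_s]
        · intro h; rw [h, mul_s_mul_s]
      have : (ind (a k = b l) + ind (a (k + 1) = b l)) +
          (ind (a k = b (l + 1)) + ind (a (k + 1) = b (l + 1))) = 0 := by
        simp only [ind, e1, e2]
        have h2 : ∀ x y : ZMod 2, x + y + (y + x) = 0 := by decide
        exact h2 _ _
      rw [this]; simp
    · rw [hβ k l hl, mul_comm]; rfl
  rw [step3]
  rw [sum_congr rfl fun k _ => sum_comm, sum_comm]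
  refine sum_congr rfl fun c _ => ?_
  rw [sum_comm]
  have t1 : ∀ l, ∑ k ∈ range (N + 1), olt (some (la k)) (some (lb l)) *
      (ind (a k = c) + ind (a (k + 1) = c)) * (ind (b l = c) + ind (b (l + 1) = c)) =
      (olt (first (c⁻¹ * a 0)) (some (lb l)) + olt (first (c⁻¹ * a (N + 1))) (some (lb l))) *
        (ind (b l = c) + ind (b (l + 1) = c)) := by
    intro l
    rw [← sum_mul, telescope (fun u => olt u (some (lb l))) (olt_none_left _) a la ha c]
  rw [sum_congr rfl fun l _ => t1 l]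
  rw [telescope (fun v => olt (first (c⁻¹ * a 0)) v + olt (first (c⁻¹ * a (N + 1))) v)
    (by simp [olt_none_right]) b lb hb c]
  ring

lemma PP_four (a b : Fin 3 → ℕ → W) (g h : W) (hg : ∀ i, a i 0 = g) (hh : ∀ j, b j 0 = h)
    (β : Fin 3 → ℕ → Fin 3 → ℕ → ZMod 2)
    (C1 : ∀ i k j l, a i (k + 1) = b j (l + 1) →
      β i k j l + β i k j (l + 1) + β i (k + 1) j l + β i (k + 1) j (l + 1) = 0)
    (C2 : ∀ i i' j l, g = b j (l + 1) →
      β i 0 j l + β i 0 j (l + 1) + β i' 0 j l + β i' 0 j (l + 1) = 0)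
    (C3 : ∀ i k j j', a i (k + 1) = h →
      β i k j 0 + β i k j' 0 + β i (k + 1) j 0 + β i (k + 1) j' 0 = 0)
    (C4 : ∀ i i' j j', g = h → β i 0 j 0 + β i 0 j' 0 + β i' 0 j 0 + β i' 0 j' 0 = 0)
    (N : ℕ) (i i' j j' : Fin 3) :
    PP (a i) (b j) (fun k l => β i k j l) N + PP (a i) (b j') (fun k l => β i k j' l) N +
      PP (a i') (b j) (fun k l => β i' k j l) N + PP (a i') (b j') (fun k l => β i' k j' l) N
      = 0 := by
  have form : ∀ i j, PP (a i) (b j) (fun k l => β i k j l) N =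
      ∑ k ∈ range N, ind (a i (k + 1) = h) * (β i (k + 1) j 0 + β i k j 0) +
      (∑ l ∈ range N, ind (g = b j (l + 1)) * (β i 0 j (l + 1) + β i 0 j l) +
        ind (g = h) * β i 0 j 0) := by
    intro i j
    rw [PP, sum_range_succ', sum_range_succ']
    simp only [dbl, hg, hh]
    congr 1
    refine sum_congr rfl fun k _ => ?_
    rw [sum_range_succ']
    simp only [hh]
    rw [sum_eq_zero, zero_add]
    intro l _
    by_cases hc : a i (k + 1) = b j (l + 1)
    · have := C1 i k j l hc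
      simp only [ind, hc, if_true, one_mul]
      linear_combination this
    · simp [ind, hc]
  simp only [form]
  have A : ∀ i, ∑ k ∈ range N, ind (a i (k + 1) = h) * (β i (k + 1) j 0 + β i k j 0) +
      ∑ k ∈ range N, ind (a i (k + 1) = h) * (β i (k + 1) j' 0 + β i k j' 0) = 0 := by
    intro i
    rw [← sum_add_distrib]
    refine sum_eq_zero fun k _ => ?_
    by_cases hc : a i (k + 1) = h
    · have := C3 i k j j' hc
      simp only [ind, hc, if_true, one_mul]
      linear_combination this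
    · simp [ind, hc]
  have B : ∀ j, ∑ l ∈ range N, ind (g = b j (l + 1)) * (β i 0 j (l + 1) + β i 0 j l) +
      ∑ l ∈ range N, ind (g = b j (l + 1)) * (β i' 0 j (l + 1) + β i' 0 j l) = 0 := by
    intro j
    rw [← sum_add_distrib]
    refine sum_eq_zero fun l _ => ?_
    by_cases hc : g = b j (l + 1)
    · have := C2 i i' j l hc
      simp only [ind, if_pos hc, one_mul]
      linear_combination this
    · simp [ind, hc]
  have E : ind (g = h) * (β i 0 j 0 + β i 0 j' 0 + β i' 0 j 0 + β i' 0 j' 0) = 0 := by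
    by_cases hc : g = h
    · rw [C4 i i' j j' hc, mul_zero]
    · simp [ind, hc]
  linear_combination A i + A i' + B j + B j' + E

theorem tripod (a b : Fin 3 → ℕ → W) (la lb : Fin 3 → ℕ → ℕ)
    (ha : ∀ i k, a i (k + 1) = a i k * s (la i k)) (hb : ∀ i k, b i (k + 1) = b i k * s (lb i k))
    (hla : ∀ i, ∀ᶠ n in atTop, la i n ≠ la i (n + 1))
    (hlb : ∀ i, ∀ᶠ n in atTop, lb i n ≠ lb i (n + 1))
    (g h : W) (hg : ∀ i, a i 0 = g) (hh : ∀ j, b j 0 = h)
    (β : Fin 3 → ℕ → Fin 3 → ℕ → ZMod 2)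
    (hβ : ∀ i k j l, la i k ≠ lb j l → β i k j l = ind (la i k < lb j l))
    (C1 : ∀ i k j l, a i (k + 1) = b j (l + 1) →
      β i k j l + β i k j (l + 1) + β i (k + 1) j l + β i (k + 1) j (l + 1) = 0)
    (C2 : ∀ i i' j l, g = b j (l + 1) →
      β i 0 j l + β i 0 j (l + 1) + β i' 0 j l + β i' 0 j (l + 1) = 0)
    (C3 : ∀ i k j j', a i (k + 1) = h →
      β i k j 0 + β i k j' 0 + β i (k + 1) j 0 + β i (k + 1) j' 0 = 0)
    (C4 : ∀ i i' j j', g = h → β i 0 j 0 + β i 0 j' 0 + β i' 0 j 0 + β i' 0 j' 0 = 0)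
    (c0 : W) (l0 : ℕ) (a0 : dir (a 0) c0 < l0) (a1 : dir (a 1) c0 = l0) (a2 : l0 < dir (a 2) c0)
    (b0 : dir (b 0) c0 < l0) (b1 : dir (b 1) c0 = l0) (b2 : l0 < dir (b 2) c0) : False := by
  classical
  have hne : ∀ i j, i ≠ j → dir (a i) c0 ≠ dir (b j) c0 := by
    intro i j hij
    fin_cases i <;> fin_cases j <;> simp at hij ⊢ <;> omega
  have e1 : ∀ᶠ n in atTop, ∀ i, first (c0⁻¹ * a i n) = some (dir (a i) c0) ∧
      first (c0⁻¹ * b i n) = some (dir (b i) c0) :=
    eventually_all.mpr fun i => (dir_spec _ _ (ha i) (hla i) c0).and (dir_spec _ _ (hb i) (hlb i) c0)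
  obtain ⟨n0, hn0⟩ := eventually_atTop.mp e1
  have e2 : ∀ᶠ n in atTop, ∀ i j, ∀ l ∈ range n0, a i n ≠ b j l ∧ b i n ≠ a j l :=
    eventually_all.mpr fun i => eventually_all.mpr fun j => (eventually_all_finset _).mpr
      fun l _ => (eventually_ne _ _ (ha i) (hla i) _).and (eventually_ne _ _ (hb i) (hlb i) _)
  obtain ⟨n1, hn1⟩ := eventually_atTop.mp e2
  set N := n0 + n1 with hN
  have far1 : ∀ i j, i ≠ j → ∀ l, a i (N + 1) ≠ b j l := by
    intro i j hij l hc
    by_cases hl : l < n0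
    · exact (hn1 (N + 1) (by omega) i j l (mem_range.mpr hl)).1 hc
    · have t1 := (hn0 (N + 1) (by omega) i).1
      have t2 := (hn0 l (by omega) j).2
      rw [hc, t2] at t1
      exact hne i j hij (by simpa using t1.symm)
  have far2 : ∀ i j, i ≠ j → ∀ k, a i k ≠ b j (N + 1) := by
    intro i j hij k hc
    by_cases hk : k < n0
    · exact (hn1 (N + 1) (by omega) j i k (mem_range.mpr hk)).2 hc.symm
    · have t1 := (hn0 k (by omega) i).1
      have t2 := (hn0 (N + 1) (by omega) j).2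
      rw [hc, t2] at t1
      exact hne i j hij (by simpa using t1.symm)
  set C : Finset W := insert c0 ((univ ×ˢ range (N + 2)).image fun p : Fin 3 × ℕ => a p.1 p.2)
  have hC : ∀ i, ∀ k ≤ N + 1, a i k ∈ C := fun i k hk =>
    mem_insert_of_mem (mem_image.mpr ⟨(i, k), by simp; omega, rfl⟩)
  have hP := fun i j (hij : i ≠ j) => PP_eq (a i) (b j) (la i) (lb j) (ha i) (hb j)
    (fun k l => β i k j l) (hβ i · j ·) N (fun l _ => far1 i j hij l) (fun k _ => far2 i j hij k)
    C (hC i)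
  have f1 := PP_four a b g h hg hh β C1 C2 C3 C4 N 0 1 0 2
  have f2 := PP_four a b g h hg hh β C1 C2 C3 C4 N 0 2 0 1
  set A : Fin 3 → W → Option ℕ := fun i c => first (c⁻¹ * a i (N + 1)) with hA
  set B : Fin 3 → W → Option ℕ := fun i c => first (c⁻¹ * b i (N + 1)) with hB
  have tot : ∑ c ∈ C, (olt (A 0 c) (B 2 c) + olt (A 1 c) (B 0 c) + olt (A 1 c) (B 2 c) +
      olt (A 0 c) (B 1 c) + olt (A 2 c) (B 0 c) + olt (A 2 c) (B 1 c)) = 0 := by
    have z : PP (a 0) (b 2) (fun k l => β 0 k 2 l) N + PP (a 1) (b 0) (fun k l => β 1 k 0 l) N +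
        PP (a 1) (b 2) (fun k l => β 1 k 2 l) N + PP (a 0) (b 1) (fun k l => β 0 k 1 l) N +
        PP (a 2) (b 0) (fun k l => β 2 k 0 l) N + PP (a 2) (b 1) (fun k l => β 2 k 1 l) N = 0 := by
      have h2 := CharTwo.add_self_eq_zero (PP (a 0) (b 0) (fun k l => β 0 k 0 l) N)
      linear_combination f1 + f2 - h2
    rw [hP 0 2 (by decide), hP 1 0 (by decide), hP 1 2 (by decide), hP 0 1 (by decide),
      hP 2 0 (by decide), hP 2 1 (by decide)] at z
    simp only [← sum_add_distrib, hg, hh] at z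
    rw [← z]
    refine sum_congr rfl fun c _ => ?_
    simp only [hA, hB]
    have h2 : (2 : ZMod 2) = 0 := rfl
    linear_combination (-(3 * olt (first (c⁻¹ * g)) (first (c⁻¹ * h)) +
      olt (first (c⁻¹ * g)) (first (c⁻¹ * b 0 (N + 1))) +
      olt (first (c⁻¹ * g)) (first (c⁻¹ * b 1 (N + 1))) +
      olt (first (c⁻¹ * g)) (first (c⁻¹ * b 2 (N + 1))) +
      olt (first (c⁻¹ * a 0 (N + 1))) (first (c⁻¹ * h)) +
      olt (first (c⁻¹ * a 1 (N + 1))) (first (c⁻¹ * h)) +
      olt (first (c⁻¹ * a 2 (N + 1))) (first (c⁻¹ * h)))) * h2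
  have hA0 : ∀ i, A i c0 = some (dir (a i) c0) := fun i => (hn0 (N + 1) (by omega) i).1
  have hB0 : ∀ i, B i c0 = some (dir (b i) c0) := fun i => (hn0 (N + 1) (by omega) i).2
  rw [sum_eq_single c0] at tot
  · simp only [hA0, hB0, olt, ind] at tot
    rw [if_pos (by omega), if_neg (by omega), if_pos (by omega), if_pos (by omega),
      if_neg (by omega), if_neg (by omega)] at tot
    exact absurd tot (by decide)
  · intro c _ hc
    obtain ⟨i0, j0, hij⟩ := exists_two_sides (Ne.symm hc)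
    have key : ∀ w : W, first (c0⁻¹ * w) ≠ some i0 → first (c⁻¹ * w) = some j0 := by
      intro w hw
      refine hij (fun c => first (c⁻¹ * w)) (fun c i h => ?_) hw
      simp only [mul_inv_rev, s_inv, mul_assoc]
      exact (first_s_mul _ _).mpr h
    have kA : ∀ i, dir (a i) c0 ≠ i0 → A i c = some j0 := fun i hi =>
      key _ (by have := hA0 i; simp only [hA] at this; rw [this]; simpa using hi)
    have kB : ∀ i, dir (b i) c0 ≠ i0 → B i c = some j0 := fun i hi =>
      key _ (by have := hB0 i; simp only [hB] at this; rw [this]; simpa using hi)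
    have o0 : olt (some j0) (some j0) = 0 := by simp [olt, ind]
    have h2 : ∀ x y : ZMod 2, (x + y + 0 + x + y + 0 = 0) ∧ (0 + x + x + y + 0 + y = 0) ∧
        (y + 0 + y + 0 + x + x = 0) := by decide
    rcases lt_trichotomy i0 l0 with hl | hl | hl
    · rw [kA 1 (by omega), kA 2 (by omega), kB 1 (by omega), kB 2 (by omega), o0]
      exact (h2 _ _).1
    · rw [kA 0 (by omega), kA 2 (by omega), kB 0 (by omega), kB 2 (by omega), o0]
      exact (h2 _ _).2.1
    · rw [kA 0 (by omega), kA 1 (by omega), kB 0 (by omega), kB 1 (by omega), o0]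
      exact (h2 _ _).2.2
  · intro h; exact absurd (mem_insert_self _ _) h

end Pool.Agent.Lib.MP_d3b8e5_co
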