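import Pool.Agent.Lib.MP_d3b8e5_co.Words

/-!
Branch units of a finite family of ends of the tree of chambers.
-/

set_option autoImplicit false

namespace Pool.Agent.Lib.MP_d3b8e5_co

open Filter

variable {ι : Type}

/-- The branch units of the family `S`: a chamber and a middle direction. -/
def units (D : ι → W → ℕ) (S : Set ι) : Set (W × ℕ) :=
  {p | (∃ a ∈ S, D a p.1 < p.2) ∧ (∃ a ∈ S, D a p.1 = p.2) ∧ ∃ a ∈ S, p.2 < D a p.1}

lemma units_mono (D : ι → W → ℕ) {S T : Set ι} (h : S ⊆ T) : units D S ⊆ units D T := by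
  rintro p ⟨⟨a, ha, h1⟩, ⟨b, hb, h2⟩, ⟨c, hc, h3⟩⟩
  exact ⟨⟨a, h ha, h1⟩, ⟨b, h hb, h2⟩, ⟨c, h hc, h3⟩⟩

lemma unique_dir {D : ι → W → ℕ} {S : Set ι} {x : ι} {p : W × ℕ}
    (hp : p ∈ units D (insert x S) \ units D S) : ∀ a ∈ S, D a p.1 ≠ D x p.1 := by
  intro a ha hax
  obtain ⟨⟨⟨a1, ha1, h1⟩, ⟨a2, ha2, h2⟩, ⟨a3, ha3, h3⟩⟩, hn⟩ := hp
  apply hn
  refine ⟨?_, ?_, ?_⟩
  · rcases ha1 with rfl | ha1
    · exact ⟨a, ha, hax ▸ h1⟩
    · exact ⟨a1, ha1, h1⟩
  · rcases ha2 with rfl | ha2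
    · exact ⟨a, ha, hax ▸ h2⟩
    · exact ⟨a2, ha2, h2⟩
  · rcases ha3 with rfl | ha3
    · exact ⟨a, ha, hax ▸ h3⟩
    · exact ⟨a3, ha3, h3⟩

lemma two_off {D : ι → W → ℕ} {S : Set ι} {p : W × ℕ} (hp : p ∈ units D S) (i : ℕ) :
    ∃ y ∈ S, ∃ z ∈ S, D y p.1 ≠ D z p.1 ∧ D y p.1 ≠ i ∧ D z p.1 ≠ i := by
  obtain ⟨⟨a1, ha1, h1⟩, ⟨a2, ha2, h2⟩, ⟨a3, ha3, h3⟩⟩ := hp
  by_cases e1 : D a1 p.1 = i
  · exact ⟨a2, ha2, a3, ha3, by omega, by omega, by omega⟩
  by_cases e2 : D a2 p.1 = i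
  · exact ⟨a1, ha1, a3, ha3, by omega, by omega, by omega⟩
  · exact ⟨a1, ha1, a2, ha2, by omega, by omega, by omega⟩

lemma same_chamber {D : ι → W → ℕ} {S : Set ι} {x : ι} {c : W} {l l' : ℕ}
    (hp : (c, l) ∈ units D (insert x S) \ units D S)
    (hp' : (c, l') ∈ units D (insert x S) \ units D S) (hl : l < l') : False := by
  obtain ⟨⟨⟨a1, ha1, h1⟩, ⟨a2, ha2, h2⟩, -⟩, hn⟩ := hp
  obtain ⟨⟨-, ⟨b2, hb2, k2⟩, ⟨b3, hb3, k3⟩⟩, hn'⟩ := hp'
  simp only at h1 h2 k2 k3
  have mem : ∀ a ∈ insert x S, D a c ≠ D x c → a ∈ S := by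
    rintro a (rfl | ha) h
    · exact absurd rfl h
    · exact ha
  by_cases hd : D x c ≤ l
  · apply hn'
    refine ⟨?_, ⟨b2, mem _ hb2 (by omega), k2⟩, ⟨b3, mem _ hb3 (by omega), k3⟩⟩
    by_cases e : D a1 c = D x c
    · exact ⟨a2, mem _ ha2 (by omega), by simp only; omega⟩
    · exact ⟨a1, mem _ ha1 e, by simp only; omega⟩
  · apply hn
    refine ⟨⟨a1, mem _ ha1 (by omega), h1⟩, ⟨a2, mem _ ha2 (by omega), h2⟩, ?_⟩
    by_cases e : D b2 c = D x c
    · exact ⟨b3, mem _ hb3 (by omega), by simp only; omega⟩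
    · exact ⟨b2, mem _ hb2 e, by simp only; omega⟩

lemma units_diff_subsingleton {D : ι → W → ℕ} (hD : ∀ a c i, D a c ≠ i → D a (c * s i) = i)
    (S : Set ι) (x : ι) : (units D (insert x S) \ units D S).Subsingleton := by
  rintro ⟨c, l⟩ hp ⟨c', l'⟩ hp'
  by_cases hc : c = c'
  · subst hc
    rcases lt_trichotomy l l' with h | h | h
    · exact (same_chamber hp hp' h).elim
    · rw [h]
    · exact (same_chamber hp' hp h).elim
  exfalso
  obtain ⟨i, j, hij⟩ := exists_two_sides hc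
  have key : ∀ a, D a c ≠ i → D a c' = j := by
    intro a ha
    have := hij (fun c => some (D a c)) (fun c i h => by
      simp only [ne_eq, Option.some.injEq] at h ⊢; exact hD a c i h) (by simpa using ha)
    simpa using this
  have aux : ∀ {c c' : W} {l l' i j : ℕ}, (c, l) ∈ units D (insert x S) \ units D S →
      (c', l') ∈ units D (insert x S) \ units D S → (∀ a, D a c' ≠ j → D a c = i) →
      D x c = i → False := by
    intro c c' l l' i j hp hp' key hx
    obtain ⟨y, hy, z, hz, hyz, hyj, hzj⟩ := two_off hp'.1 j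
    have u := unique_dir hp
    simp only at hyz hyj hzj u
    rcases hy with rfl | hy
    · rcases hz with rfl | hz
      · exact hyz rfl
      · exact u z hz (by rw [key z hzj, hx])
    · exact u y hy (by rw [key y hyj, hx])
  by_cases hx : D x c = i
  · exact aux hp hp' (fun a ha => by by_contra h; exact ha (key a h)) hx
  · exact aux hp' hp key (key x hx)

lemma units_diff_encard {D : ι → W → ℕ} (hD : ∀ a c i, D a c ≠ i → D a (c * s i) = i)
    (S : Set ι) (T : Finset ι) : (units D (S ∪ T) \ units D S).encard ≤ T.card := by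
  classical
  induction T using Finset.induction_on with
  | empty => simp
  | insert x T hx ih =>
    have e : S ∪ ((insert x T : Finset ι) : Set ι) = insert x (S ∪ T) := by
      simp
    have sub : units D (S ∪ ((insert x T : Finset ι) : Set ι)) \ units D S ⊆
        (units D (insert x (S ∪ T)) \ units D (S ∪ T)) ∪ (units D (S ∪ T) \ units D S) := by
      rw [e]
      intro p hp
      by_cases h : p ∈ units D (S ∪ T)
      · exact Or.inr ⟨h, hp.2⟩
      · exact Or.inl ⟨hp.1, h⟩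
    refine (Set.encard_le_encard sub).trans ((Set.encard_union_le _ _).trans ?_)
    rw [Finset.card_insert_of_notMem hx]
    push_cast
    rw [add_comm]
    exact add_le_add ih (Set.encard_le_one_iff_subsingleton.mpr (units_diff_subsingleton hD _ x))

lemma units_finite {D : ι → W → ℕ} (hD : ∀ a c i, D a c ≠ i → D a (c * s i) = i)
    (T : Finset ι) : (units D T).Finite := by
  have := units_diff_encard hD ∅ T
  have e : units D (∅ : Set ι) = ∅ := by
    ext p; simp [units]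
  rw [e, Set.empty_union, Set.sdiff_empty] at this
  exact Set.finite_of_encard_le_coe this

/-- The ray from `c` towards the end `a`. -/
def ray (D : W → ℕ) (c : W) : ℕ → W
  | 0 => c
  | n + 1 => ray D c n * s (D (ray D c n))

lemma exists_new_unit {D : ι → W → ℕ} (hD : ∀ a c i, D a (c * s i) = i ↔ D a c ≠ i)
    (T : Finset ι) (x : ι) (hT : 2 ≤ T.card)
    (hsep : ∀ a ∈ insert x (T : Set ι), ∀ b ∈ T, a ≠ b → ∀ c,
      ∃ n, D b (ray (D a) c n) ≠ D a (ray (D a) c n)) (hx : x ∉ T) :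
    (units D (insert x T) \ units D T).Nonempty := by
  classical
  obtain ⟨y, hy, z, hz, hyz⟩ := Finset.one_lt_card.mp hT
  obtain ⟨n0, hn0⟩ := hsep y (Or.inr hy) z hz hyz 1
  set c0 := ray (D y) 1 n0
  let r := ray (D x) c0
  have pers : ∀ b n, D b (r n) ≠ D x (r n) → D b (r (n + 1)) ≠ D x (r (n + 1)) := by
    intro b n h
    have e1 : D b (r (n + 1)) = D x (r n) := (hD b _ _).mpr h
    have e2 : D x (r (n + 1)) ≠ D x (r n) := fun h' => (hD x _ _).mp h' rfl
    rw [e1]; exact e2.symm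
  have ev : ∀ b ∈ T, ∀ᶠ n in atTop, D b (r n) ≠ D x (r n) := by
    intro b hb
    obtain ⟨n, hn⟩ := hsep x (Or.inl rfl) b hb (fun h => hx (h ▸ hb)) c0
    refine eventually_atTop.mpr ⟨n, fun k hk => ?_⟩
    induction k, hk using Nat.le_induction with
    | base => exact hn
    | succ k _ ih => exact pers b k ih
  have ex : ∃ n, ∀ b ∈ T, D b (r n) ≠ D x (r n) :=
    ((eventually_all_finset T).mpr ev).exists
  have inv : ∀ k, k ≤ Nat.find ex → ∃ y ∈ T, ∃ z ∈ T, D y (r k) ≠ D z (r k) := by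
    intro k
    induction k with
    | zero => intro _; exact ⟨z, hz, y, hy, hn0⟩
    | succ k ih =>
      intro hk
      obtain ⟨y, hy, z, hz, hyz⟩ := ih (by omega)
      have := Nat.find_min ex (show k < Nat.find ex by omega)
      push Not at this
      obtain ⟨b, hb, hbx⟩ := this
      have e2 : D b (r (k + 1)) ≠ D x (r k) := fun h' => (hD b _ _).mp h' hbx
      by_cases hy' : D y (r k) = D x (r k)
      · have : D z (r (k + 1)) = D x (r k) := (hD z _ _).mpr (by rw [← hy']; exact hyz.symm)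
        exact ⟨b, hb, z, hz, by rw [this]; exact e2⟩
      · have : D y (r (k + 1)) = D x (r k) := (hD y _ _).mpr hy'
        exact ⟨b, hb, y, hy, by rw [this]; exact e2⟩
  have hspec := Nat.find_spec ex
  obtain ⟨y, hy, z, hz, hyz⟩ := inv _ le_rfl
  set c := r (Nat.find ex)
  obtain ⟨lo, hlo, hlo'⟩ := T.exists_min_image (fun a => D a c) ⟨y, hy⟩
  obtain ⟨hi, hhi, hhi'⟩ := T.exists_max_image (fun a => D a c) ⟨y, hy⟩
  have h1 := hlo' y hy
  have h2 := hlo' z hz
  have h3 := hhi' y hy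
  have h4 := hhi' z hz
  have h5 := hspec lo hlo
  have h6 := hspec hi hhi
  by_cases c1 : D x c < D lo c
  · refine ⟨(c, D lo c), ⟨⟨x, Or.inl rfl, c1⟩, ⟨lo, Or.inr hlo, rfl⟩,
      ⟨hi, Or.inr hhi, by simp only; omega⟩⟩, ?_⟩
    rintro ⟨⟨a, ha, h⟩, -⟩
    exact absurd (hlo' a ha) (by simpa using h)
  by_cases c2 : D hi c < D x c
  · refine ⟨(c, D hi c), ⟨⟨lo, Or.inr hlo, by simp only; omega⟩, ⟨hi, Or.inr hhi, rfl⟩,
      ⟨x, Or.inl rfl, c2⟩⟩, ?_⟩
    rintro ⟨-, -, ⟨a, ha, h⟩⟩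
    exact absurd (hhi' a ha) (by simpa using h)
  · refine ⟨(c, D x c), ⟨⟨lo, Or.inr hlo, by simp only; omega⟩, ⟨x, Or.inl rfl, rfl⟩,
      ⟨hi, Or.inr hhi, by simp only; omega⟩⟩, ?_⟩
    rintro ⟨-, ⟨a, ha, h⟩, -⟩
    exact hspec a ha h

lemma card_le_units {D : ι → W → ℕ} (hD : ∀ a c i, D a (c * s i) = i ↔ D a c ≠ i)
    (T : Finset ι)
    (hsep : ∀ a ∈ T, ∀ b ∈ T, a ≠ b → ∀ c, ∃ n, D b (ray (D a) c n) ≠ D a (ray (D a) c n)) :
    T.card ≤ (units D T).ncard + 2 := by
  classical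
  induction T using Finset.induction_on with
  | empty => simp
  | insert x T hx ih =>
    rw [Finset.card_insert_of_notMem hx]
    by_cases hT : 2 ≤ T.card
    · have ih' := ih (fun a ha b hb => hsep a (Finset.mem_insert_of_mem ha) b
        (Finset.mem_insert_of_mem hb))
      obtain ⟨p, hp, hp'⟩ := exists_new_unit hD T x hT (fun a ha b hb => hsep a
        (by simpa using ha) b (Finset.mem_insert_of_mem hb)) hx
      have hfin := units_finite (fun a c i h => (hD a c i).mpr h) (insert x T)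
      have : (units D T).ncard < (units D (insert x T : Finset ι)).ncard := by
        apply Set.ncard_lt_ncard _ hfin
        refine ⟨units_mono D (by simp), fun h => hp' (h ?_)⟩
        simpa using hp
      omega
    · omega

/-! ### The direction function of a walk converging to an end -/

open Classical in
/-- The eventual first letter of the walk `u`. -/
noncomputable def dirAux (u : ℕ → W) : ℕ :=
  if h : ∃ i, ∀ᶠ n in atTop, first (u n) = some i then h.choose else 0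

/-- The eventual first letter of the walk `w` seen from the chamber `c`. -/
noncomputable def dir (w : ℕ → W) (c : W) : ℕ := dirAux fun n => c⁻¹ * w n

section dir

variable (w : ℕ → W) (ℓ : ℕ → ℕ) (hw : ∀ n, w (n + 1) = w n * s (ℓ n))
  (hℓ : ∀ᶠ n in atTop, ℓ n ≠ ℓ (n + 1))
include hw hℓ

lemma dir_spec (c : W) : ∀ᶠ n in atTop, first (c⁻¹ * w n) = some (dir w c) := by
  have h := exists_dir w ℓ hw hℓ c
  rw [dir, dirAux, dif_pos h]
  exact h.choose_spec

lemma dir_step (c : W) (i : ℕ) : dir w (c * s i) = i ↔ dir w c ≠ i := by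
  obtain ⟨n, h1, h2⟩ := ((dir_spec w ℓ hw hℓ c).and (dir_spec w ℓ hw hℓ (c * s i))).exists
  have := first_s_mul (c⁻¹ * w n) i
  rw [h1] at this
  rw [mul_inv_rev, s_inv, mul_assoc] at h2
  rw [h2] at this
  simpa using this

lemma dir_cases (c : W) (K : ℕ) :
    first (c⁻¹ * w K) = some (dir w c) ∨ ∃ m, K ≤ m ∧ dir w c = ℓ m := by
  have inv : ∀ n, K ≤ n → first (c⁻¹ * w n) = first (c⁻¹ * w K) ∨ first (c⁻¹ * w n) = none ∨
      ∃ m, K ≤ m ∧ first (c⁻¹ * w n) = some (ℓ m) := by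
    intro n hn
    induction n, hn using Nat.le_induction with
    | base => exact Or.inl rfl
    | succ n hn ih =>
      rw [hw, ← mul_assoc]
      by_cases h1 : c⁻¹ * w n = 1
      · right; right
        exact ⟨n, hn, by rw [h1, one_mul, first_s]⟩
      by_cases h2 : c⁻¹ * w n * s (ℓ n) = 1
      · right; left; rw [h2, first_one]
      · rw [first_mul_s _ _ h1 h2]; exact ih
  obtain ⟨n, h1, h2⟩ := ((dir_spec w ℓ hw hℓ c).and (eventually_ge_atTop K)).exists
  rcases inv n h2 with h | h | ⟨m, hm, h⟩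
  · left; rw [← h, h1]
  · rw [h1] at h; simp at h
  · right; exact ⟨m, hm, by rw [h1] at h; simpa using h⟩

lemma dir_lt {m : ℕ} (h0 : w 0 = 1) (hm : ∀ n, ℓ n < m) {c : W} (hc : ∀ x ∈ c.l, x < m) :
    dir w c < m := by
  rcases dir_cases w ℓ hw hℓ c 0 with h | ⟨k, -, h⟩
  · rw [h0, mul_one, first_inv] at h
    exact hc _ (List.mem_of_mem_head? h)
  · rw [h]; exact hm k

lemma dir_of_not_visit {c : W} (hc : ∀ n, w n ≠ c) : first (c⁻¹ * w 0) = some (dir w c) := by
  have hne : ∀ n, c⁻¹ * w n ≠ 1 := fun n h => hc n (inv_mul_eq_one.mp h).symm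
  have : ∀ n, first (c⁻¹ * w n) = first (c⁻¹ * w 0) := by
    intro n
    induction n with
    | zero => rfl
    | succ n ih =>
      rw [← ih, hw, ← mul_assoc]
      apply first_mul_s _ _ (hne n)
      rw [mul_assoc, ← hw]
      exact hne _
  obtain ⟨n, hn⟩ := (dir_spec w ℓ hw hℓ c).exists
  rw [← this n, hn]

omit hℓ in
lemma letters_lt {m : ℕ} (h0 : w 0 = 1) (hm : ∀ n, ℓ n < m) (n : ℕ) : ∀ x ∈ (w n).l, x < m := by
  induction n with
  | zero => rw [h0]; simp [W.one_l]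
  | succ n ih =>
    rw [hw, mul_s_l]
    cases hl : (w n).l with
    | nil => simpa [tog] using hm n
    | cons k L =>
      rw [hl] at ih
      simp only [tog]
      split_ifs with h
      · exact fun x hx => ih x (List.mem_cons_of_mem _ hx)
      · intro x hx
        rcases List.mem_cons.mp hx with rfl | hx
        · exact hm n
        · exact ih x hx

lemma ray_eventually (c : W) (K : ℕ) :
    ∀ᶠ n in atTop, ∃ m, K ≤ m ∧ dir w (ray (dir w) c n) = ℓ m := by
  have hj : ∀ n, dir w (ray (dir w) c n) ≠ dir w (ray (dir w) c (n + 1)) := by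
    intro n h
    exact (dir_step w ℓ hw hℓ _ _).mp h.symm rfl
  have := eventually_cons (fun n => (w K)⁻¹ * ray (dir w) c n) (fun n => dir w (ray (dir w) c n))
    (fun n => by rw [mul_assoc]; rfl) (Eventually.of_forall hj)
  filter_upwards [this] with n hn
  refine (dir_cases w ℓ hw hℓ _ K).resolve_left fun h => ?_
  have e : (ray (dir w) c n)⁻¹ * w K = ((w K)⁻¹ * ray (dir w) c n)⁻¹ := by simp
  rw [e, first_inv] at h
  have hr := ((w K)⁻¹ * ray (dir w) c (n + 1)).red
  rw [hn] at hr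
  cases hl : ((w K)⁻¹ * ray (dir w) c n).l with
  | nil => rw [hl] at h; simp at h
  | cons a L =>
    rw [hl] at h hr
    simp only [List.head?_cons, Option.some.injEq] at h
    exact (List.isChain_cons_cons.mp hr).1 h.symm

end dir

lemma dir_mul (w : ℕ → W) (g c : W) : dir (fun n => g * w n) c = dir w (g⁻¹ * c) := by
  have e : ∀ n, c⁻¹ * (g * w n) = (g⁻¹ * c)⁻¹ * w n := by
    intro n; simp [mul_assoc]
  simp only [dir, e]

/-- Two walks whose letter tails share no two distinct letters define different ends. -/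
lemma dir_sep (w w' : ℕ → W) (ℓ ℓ' : ℕ → ℕ) (hw : ∀ n, w (n + 1) = w n * s (ℓ n))
    (hℓ : ∀ᶠ n in atTop, ℓ n ≠ ℓ (n + 1)) (hw' : ∀ n, w' (n + 1) = w' n * s (ℓ' n))
    (hℓ' : ∀ᶠ n in atTop, ℓ' n ≠ ℓ' (n + 1)) (K K' : ℕ)
    (h : ∀ a b a' b', K ≤ a → K ≤ b → K' ≤ a' → K' ≤ b' → ℓ a = ℓ' a' → ℓ b = ℓ' b' → ℓ a = ℓ b)
    (c : W) : ∃ n, dir w' (ray (dir w) c n) ≠ dir w (ray (dir w) c n) := by
  by_contra hcon
  push Not at hcon
  have e : ∀ n, ray (dir w') c n = ray (dir w) c n := by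
    intro n
    induction n with
    | zero => rfl
    | succ n ih => simp only [ray, ih, hcon]
  have h1 := ray_eventually w ℓ hw hℓ c K
  have h2 := ray_eventually w' ℓ' hw' hℓ' c K'
  simp only [e, hcon] at h2
  obtain ⟨N, hN⟩ := eventually_atTop.mp (h1.and h2)
  obtain ⟨⟨a, ha, ea⟩, ⟨a', ha', ea'⟩⟩ := hN N le_rfl
  obtain ⟨⟨b, hb, eb⟩, ⟨b', hb', eb'⟩⟩ := hN (N + 1) (by omega)
  have := h a b a' b' ha hb ha' hb' (by rw [← ea, ea']) (by rw [← eb, eb'])
  rw [← ea, ← eb] at this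
  exact (dir_step w ℓ hw hℓ _ _).mp this.symm rfl

end Pool.Agent.Lib.MP_d3b8e5_co
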