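import Pool.Agent.Lib.MP_d3b8e5_co.Defs

/-!
Straight-line drawings with replicated vertices: upper bounds.
-/

set_option autoImplicit false

namespace Pool.Agent.Lib.MP_d3b8e5_co

open Set

def ori (p q r : ℂ) : ℝ := (q.re - p.re) * (r.im - p.im) - (q.im - p.im) * (r.re - p.re)

lemma ori_line (p q x y : ℂ) (t : ℝ) :
    ori p q (x + t * (y - x)) = (1 - t) * ori p q x + t * ori p q y := by
  simp [ori]; ring

@[simp] lemma ori_left (p q : ℂ) : ori p q p = 0 := by simp [ori]
@[simp] lemma ori_right (p q : ℂ) : ori p q q = 0 := by simp [ori]; ring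
@[simp] lemma ori_same (p r : ℂ) : ori p p r = 0 := by simp [ori]

lemma neg_of_comb {x y t : ℝ} (h0 : 0 < t) (h1 : t < 1) (hx : x ≠ 0)
    (h : (1 - t) * x + t * y = 0) : x * y < 0 := by
  have h2 : 0 < x * x := mul_self_pos.mpr hx
  have h3 : t * (x * y) = -((1 - t) * (x * x)) := by linear_combination x * h
  have h4 : t * (x * y) < 0 := by rw [h3]; nlinarith
  exact neg_of_mul_neg_right h4 h0.le

theorem straight {A B : Type} (G : SimpleGraph (A ⊕ B)) (hG : G ≤ completeBipartiteGraph A B)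
    (pos : A ⊕ B → ℂ) (hinj : Function.Injective pos)
    (hgen : ∀ a b, G.Adj (.inl a) (.inr b) → ∀ w, w ≠ .inl a → w ≠ .inr b →
      ori (pos (.inr b)) (pos (.inl a)) (pos w) ≠ 0)
    (I : Finset ((A × B) × (A × B)))
    (hI : ∀ a b a' b', G.Adj (.inl a) (.inr b) → G.Adj (.inl a') (.inr b') → a ≠ a' → b ≠ b' →
      ori (pos (.inr b)) (pos (.inl a)) (pos (.inr b')) *
        ori (pos (.inr b)) (pos (.inl a)) (pos (.inl a')) < 0 →
      ori (pos (.inr b')) (pos (.inl a')) (pos (.inr b)) *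
        ori (pos (.inr b')) (pos (.inl a')) (pos (.inl a)) < 0 →
      ((a, b), (a', b')) ∈ I ∨ ((a', b'), (a, b)) ∈ I) : cr G ≤ I.card := by
  classical
  have ex : ∀ e : G.edgeSet, ∃ a b, (e : Sym2 (A ⊕ B)) = s(Sum.inl a, Sum.inr b) := by
    rintro ⟨e, he⟩
    induction e using Sym2.ind with
    | _ u v =>
      have hadj : (completeBipartiteGraph A B).Adj u v := hG he
      rcases u with a | b <;> rcases v with a' | b' <;> simp at hadj
      · exact ⟨a, b', rfl⟩
      · exact ⟨a', b, Sym2.eq_swap⟩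
  choose a b hab using ex
  have adj : ∀ e, G.Adj (.inl (a e)) (.inr (b e)) := fun e => by
    have := e.2
    rw [hab] at this
    exact this
  have hne : ∀ e, pos (.inl (a e)) - pos (.inr (b e)) ≠ 0 := fun e h =>
    Sum.inl_ne_inr (hinj (sub_eq_zero.mp h))
  set arc : G.edgeSet → unitInterval → ℂ := fun e t =>
    pos (.inr (b e)) + ((t : ℝ) : ℂ) * (pos (.inl (a e)) - pos (.inr (b e))) with harc
  have ainj : ∀ e, Function.Injective (arc e) := by
    intro e s t h
    simp only [harc, add_right_inj, mul_left_inj' (hne e)] at h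
    exact Subtype.ext (Complex.ofReal_injective h)
  have a0 : ∀ e, arc e 0 = pos (.inr (b e)) := fun e => by simp [harc]
  have a1 : ∀ e, arc e 1 = pos (.inl (a e)) := fun e => by simp [harc]
  have aori : ∀ e t, ori (pos (.inr (b e))) (pos (.inl (a e))) (arc e t) = 0 := fun e t => by
    simp only [harc, ori_line, ori_left, ori_right, mul_zero, add_zero]
  let D : Drawing G :=
    { pos := pos
      arc := arc
      pos_inj := hinj
      arc_cont := fun e => by simp only [harc]; fun_prop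
      arc_inj := ainj
      arc_ends := fun e => ⟨_, _, (hab e).trans Sym2.eq_swap, a0 e, a1 e⟩
      arc_avoid := fun e t w h0 h1 h => by
        by_cases c1 : w = .inl (a e)
        · exact h1 (ainj e (by rw [h, c1, a1]))
        by_cases c2 : w = .inr (b e)
        · exact h0 (ainj e (by rw [h, c2, a0]))
        · exact hgen _ _ (adj e) w c1 c2 (h ▸ aori e t) }
  refine (iInf_le _ D).trans ?_
  have main : ∀ e f : G.edgeSet, e ≠ f → ∀ s t : unitInterval, t ≠ 0 → t ≠ 1 → arc e s = arc f t →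
      a e ≠ a f ∧ b e ≠ b f ∧
      (1 - t) * ori (pos (.inr (b e))) (pos (.inl (a e))) (pos (.inr (b f))) +
        t * ori (pos (.inr (b e))) (pos (.inl (a e))) (pos (.inl (a f))) = 0 ∧
      ori (pos (.inr (b e))) (pos (.inl (a e))) (pos (.inr (b f))) *
        ori (pos (.inr (b e))) (pos (.inl (a e))) (pos (.inl (a f))) < 0 := by
    intro e f hef s t h0 h1 h
    have t0 : (0 : ℝ) < t := lt_of_le_of_ne t.2.1 fun c => h0 (Subtype.ext c.symm)
    have t1 : (t : ℝ) < 1 := lt_of_le_of_ne t.2.2 fun c => h1 (Subtype.ext c)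
    have key := aori e s
    rw [h] at key
    simp only [harc, ori_line] at key
    have nab : ¬ (a e = a f ∧ b e = b f) := fun c => hef (Subtype.ext (by rw [hab, hab, c.1, c.2]))
    have na : a e ≠ a f := by
      intro c
      rw [← c, ori_right, mul_zero, add_zero] at key
      refine hgen _ _ (adj e) (.inr (b f)) (by simp) (by
        simpa using fun c' => nab ⟨c, c'.symm⟩) ?_
      exact (mul_eq_zero.mp key).resolve_left (by linarith)
    have nb : b e ≠ b f := by
      intro c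
      rw [← c, ori_left, mul_zero, zero_add] at key
      refine hgen _ _ (adj e) (.inl (a f)) (by simpa using na.symm) (by simp) ?_
      exact (mul_eq_zero.mp key).resolve_left t0.ne'
    exact ⟨na, nb, key, neg_of_comb t0 t1
      (hgen _ _ (adj e) (.inr (b f)) (by simp) (by simpa using nb.symm)) key⟩
  have dec : ∀ c ∈ D.crossings, ∃ e f : G.edgeSet, c.1 = s(e, f) ∧ e ≠ f := by
    rintro ⟨p, x⟩ hc
    induction p using Sym2.ind with
    | _ e f => exact ⟨e, f, rfl, by simpa using hc.1⟩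
  have step : D.crossings.encard ≤ ((fun i : (A × B) × (A × B) =>
      s(s(Sum.inl i.1.1, Sum.inr i.1.2), s(Sum.inl i.2.1, Sum.inr i.2.2))) '' I).encard := by
    refine encard_le_encard_of_injOn (f := fun c => c.1.map Subtype.val) ?_ ?_
    · intro c hc
      obtain ⟨e, f, hef, hne⟩ := dec c hc
      obtain ⟨s, s0, s1, hs⟩ := hc.2 e (by rw [hef]; simp)
      obtain ⟨t, t0, t1, ht⟩ := hc.2 f (by rw [hef]; simp)
      have m1 := main e f hne s t t0 t1 (hs.trans ht.symm)
      have m2 := main f e hne.symm t s s0 s1 (ht.trans hs.symm)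
      rcases hI _ _ _ _ (adj e) (adj f) m1.1 m1.2.1 m1.2.2.2 m2.2.2.2 with h | h
      · exact ⟨_, h, by simp only [hef, Sym2.map_mk, hab]⟩
      · exact ⟨_, h, by simp only [hef, Sym2.map_mk, hab]; exact Sym2.eq_swap⟩
    · rintro ⟨p, x⟩ hc ⟨p', x'⟩ hc' h
      have hp : p = p' := Sym2.map.injective Subtype.val_injective h
      subst hp
      obtain ⟨e, f, hef, hne⟩ := dec _ hc
      simp only at hef
      obtain ⟨s, s0, s1, hs⟩ := hc.2 e (by rw [hef]; simp)
      obtain ⟨t, t0, t1, ht⟩ := hc.2 f (by rw [hef]; simp)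
      obtain ⟨s', s0', s1', hs'⟩ := hc'.2 e (by rw [hef]; simp)
      obtain ⟨t', t0', t1', ht'⟩ := hc'.2 f (by rw [hef]; simp)
      have m1 := main e f hne s t t0 t1 (hs.trans ht.symm)
      have m2 := main e f hne s' t' t0' t1' (hs'.trans ht'.symm)
      have : (t : ℝ) = t' := by
        obtain ⟨-, -, k1, k2⟩ := m1
        obtain ⟨-, -, k3, -⟩ := m2
        set X := ori (pos (.inr (b e))) (pos (.inl (a e))) (pos (.inr (b f)))
        set Y := ori (pos (.inr (b e))) (pos (.inl (a e))) (pos (.inl (a f)))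
        have hXY : Y - X ≠ 0 := by
          intro c
          have : Y = X := by linarith
          rw [this] at k2
          nlinarith [mul_self_nonneg X]
        have : ((t : ℝ) - t') * (Y - X) = 0 := by linear_combination k1 - k3
        exact sub_eq_zero.mp ((mul_eq_zero.mp this).resolve_right hXY)
      have : t = t' := Subtype.ext this
      subst this
      simp only at ht ht'
      rw [← ht, ← ht']
  refine step.trans ((encard_image_le _ _).trans ?_)
  rw [encard_coe_eq_coe_finsetCard]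

/-! ### Templates -/

def orZ (p q r : ℤ × ℤ) : ℤ := (q.1 - p.1) * (r.2 - p.2) - (q.2 - p.2) * (r.1 - p.1)

noncomputable def cz (p : ℤ × ℤ) : ℂ := ⟨p.1, p.2⟩

lemma ori_cz (p q r : ℤ × ℤ) : ori (cz p) (cz q) (cz r) = orZ p q r := by simp [ori, cz, orZ]

structure Tmpl (m n : ℕ) where
  P : Fin m → ℤ × ℤ
  V : Fin n → ℤ × ℤ
  D : Fin n → ℤ × ℤ
  adj : Fin n → Fin m → Bool

namespace Tmpl

variable {m n : ℕ} (T : Tmpl m n)

def V1 (τ : Fin n) : ℤ × ℤ := T.V τ + T.D τ

def crs (τ : Fin n) (a : Fin m) : ℤ := orZ (T.V τ) (T.P a) (T.V1 τ)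

def X (τ : Fin n) : Finset (Fin m × Fin m) :=
  Finset.univ.filter fun x => x.1 ≠ x.2 ∧ T.adj τ x.1 ∧ T.adj τ x.2 ∧
    T.crs τ x.1 * orZ (T.V τ) (T.P x.1) (T.P x.2) < 0 ∧
    0 < T.crs τ x.2 * orZ (T.V τ) (T.P x.2) (T.P x.1)

def ok1 : Prop := ∀ τ a, T.adj τ a → T.crs τ a ≠ 0 ∧ ∀ a', a' ≠ a →
  0 < orZ (T.V τ) (T.P a) (T.P a') * orZ (T.V1 τ) (T.P a) (T.P a')

def ok2 : Prop := ∀ τ a, T.adj τ a → ∀ τ', τ' ≠ τ →
  0 < orZ (T.V τ) (T.P a) (T.V τ') * orZ (T.V τ) (T.P a) (T.V1 τ') ∧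
  0 < orZ (T.V τ) (T.P a) (T.V τ') * orZ (T.V1 τ) (T.P a) (T.V τ') ∧
  0 < orZ (T.V τ) (T.P a) (T.V τ') * orZ (T.V1 τ) (T.P a) (T.V1 τ')

def ok3 : Prop := ∀ τ a, T.adj τ a → ∀ τ', τ' ≠ τ → ∀ a', a' ≠ a → T.adj τ' a' →
  0 < orZ (T.V τ) (T.P a) (T.V τ') * orZ (T.V τ) (T.P a) (T.P a') ∨
  0 < orZ (T.V τ') (T.P a') (T.V τ) * orZ (T.V τ') (T.P a') (T.P a)

def ok4 (κ : ℕ) : Prop := (∀ a a', T.P a = T.P a' → a = a') ∧
  (∀ τ, ∃ a a', T.adj τ a ∧ a' ≠ a) ∧ ∀ τ, (T.X τ).card ≤ κ

instance : Decidable T.ok1 := by unfold ok1; infer_instance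
instance : Decidable T.ok2 := by unfold ok2; infer_instance
instance : Decidable T.ok3 := by unfold ok3; infer_instance
instance (κ : ℕ) : Decidable (T.ok4 κ) := by unfold ok4; infer_instance

noncomputable def Vt (τ : Fin n) (t : ℝ) : ℂ := cz (T.V τ) + t * (cz (T.V1 τ) - cz (T.V τ))

lemma ori_first (x y q r : ℂ) (t : ℝ) :
    ori (x + t * (y - x)) q r = (1 - t) * ori x q r + t * ori y q r := by
  simp [ori]; ring

lemma comb_pos {c x y t : ℝ} (h0 : 0 ≤ t) (h1 : t ≤ 1) (hx : 0 < c * x) (hy : 0 < c * y) :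
    0 < c * ((1 - t) * x + t * y) := by
  have : c * ((1 - t) * x + t * y) = (1 - t) * (c * x) + t * (c * y) := by ring
  rw [this]
  rcases h0.eq_or_lt with h | h
  · rw [← h]; simpa using hx
  · exact add_pos_of_nonneg_of_pos (mul_nonneg (by linarith) hx.le) (mul_pos h hy)

lemma sq_pos_of {c x : ℝ} (h : 0 < c * x) : 0 < c * c :=
  mul_self_pos.mpr (left_ne_zero_of_mul h.ne')

lemma sgn1 (h : T.ok1) {τ : Fin n} {a a' : Fin m} (ha : T.adj τ a) (hne : a' ≠ a) {t : ℝ}
    (h0 : 0 ≤ t) (h1 : t ≤ 1) : 0 < (orZ (T.V τ) (T.P a) (T.P a') : ℝ) *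
      ori (T.Vt τ t) (cz (T.P a)) (cz (T.P a')) := by
  have : (0 : ℝ) < (orZ (T.V τ) (T.P a) (T.P a') : ℝ) * orZ (T.V1 τ) (T.P a) (T.P a') := by
    exact_mod_cast (h τ a ha).2 a' hne
  rw [Vt, ori_first, ori_cz, ori_cz]
  exact comb_pos h0 h1 (sq_pos_of this) this

lemma sgn2 (h : T.ok2) {τ τ' : Fin n} {a : Fin m} (ha : T.adj τ a) (hne : τ' ≠ τ) {t t' : ℝ}
    (h0 : 0 ≤ t) (h1 : t ≤ 1) (h0' : 0 ≤ t') (h1' : t' ≤ 1) :
    0 < (orZ (T.V τ) (T.P a) (T.V τ') : ℝ) * ori (T.Vt τ t) (cz (T.P a)) (T.Vt τ' t') := by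
  obtain ⟨c1, c2, c3⟩ := h τ a ha τ' hne
  have d1 : (0 : ℝ) < (orZ (T.V τ) (T.P a) (T.V τ') : ℝ) * orZ (T.V τ) (T.P a) (T.V1 τ') := by
    exact_mod_cast c1
  have d2 : (0 : ℝ) < (orZ (T.V τ) (T.P a) (T.V τ') : ℝ) * orZ (T.V1 τ) (T.P a) (T.V τ') := by
    exact_mod_cast c2
  have d3 : (0 : ℝ) < (orZ (T.V τ) (T.P a) (T.V τ') : ℝ) * orZ (T.V1 τ) (T.P a) (T.V1 τ') := by
    exact_mod_cast c3
  rw [Vt, ori_first, Vt, ori_line, ori_line, ori_cz, ori_cz, ori_cz, ori_cz]
  exact comb_pos h0 h1 (comb_pos h0' h1' (sq_pos_of d1) d1) (comb_pos h0' h1' d2 d3)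

lemma sgn3 (τ : Fin n) (a : Fin m) (t t' : ℝ) :
    ori (T.Vt τ t) (cz (T.P a)) (T.Vt τ t') = (t' - t) * T.crs τ a := by
  simp [ori, Vt, crs, orZ, cz]; ring

/-- The graph obtained by giving the vertex `b` the type `b mod n`. -/
def graph (hn : 0 < n) (q : ℕ) : SimpleGraph (Fin m ⊕ Fin q) :=
  SimpleGraph.fromRel fun u v => match u, v with
    | .inl a, .inr b => T.adj ⟨b % n, Nat.mod_lt _ hn⟩ a
    | _, _ => False

lemma graph_adj (hn : 0 < n) (q : ℕ) (a : Fin m) (b : Fin q) :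
    (T.graph hn q).Adj (.inl a) (.inr b) ↔ T.adj ⟨b % n, Nat.mod_lt _ hn⟩ a := by
  simp [graph]

lemma graph_le (hn : 0 < n) (q : ℕ) : T.graph hn q ≤ completeBipartiteGraph (Fin m) (Fin q) := by
  intro u v h
  rcases u with a | b <;> rcases v with a' | b' <;> simp [graph] at h ⊢

lemma neg_transfer {c d x y : ℝ} (hx : 0 < c * x) (hy : 0 < d * y) (h : x * y < 0) : c * d < 0 := by
  have := mul_pos hx hy
  have e : c * x * (d * y) = (c * d) * (x * y) := by ring
  rw [e] at this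
  by_contra hc
  exact absurd this (not_lt.mpr (mul_nonpos_of_nonneg_of_nonpos (not_lt.mp hc) h.le))

theorem cr_le (hn : 0 < n) (κ : ℕ) (h1 : T.ok1) (h2 : T.ok2) (h3 : T.ok3) (h4 : T.ok4 κ) (q : ℕ) :
    cr (T.graph hn q) ≤ ((κ * ∑ j ∈ Finset.range q, j / n : ℕ) : ℕ∞) := by
  classical
  set ty : Fin q → Fin n := fun b => ⟨b % n, Nat.mod_lt _ hn⟩ with hty
  set tt : Fin q → ℝ := fun b => (b : ℝ) / q with htt
  have t0 : ∀ b, 0 ≤ tt b := fun b => by positivity
  have qpos : ∀ b : Fin q, (0 : ℝ) < q := fun b => by exact_mod_cast b.pos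
  have t1 : ∀ b, tt b ≤ 1 := fun b => (div_le_one (qpos b)).mpr (by exact_mod_cast b.2.le)
  have tlt : ∀ b b', b < b' → tt b < tt b' := fun b b' h =>
    div_lt_div_of_pos_right (by exact_mod_cast h) (qpos b)
  set pos : Fin m ⊕ Fin q → ℂ := Sum.elim (fun a => cz (T.P a)) (fun b => T.Vt (ty b) (tt b))
    with hpos
  have gen : ∀ a b, T.adj (ty b) a → ∀ w, w ≠ .inl a → w ≠ .inr b →
      ori (pos (.inr b)) (pos (.inl a)) (pos w) ≠ 0 := by
    intro a b hab w c1 c2
    rcases w with a' | b'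
    · exact right_ne_zero_of_mul (T.sgn1 h1 hab (by simpa using c1) (t0 b) (t1 b)).ne'
    · by_cases c : ty b' = ty b
      · simp only [hpos, Sum.elim_inl, Sum.elim_inr, c, sgn3]
        refine mul_ne_zero (sub_ne_zero.mpr ?_) (by exact_mod_cast (h1 _ _ hab).1)
        rcases lt_or_gt_of_ne (show b' ≠ b by simpa using c2) with h | h
        · exact (tlt _ _ h).ne
        · exact (tlt _ _ h).ne'
      · exact right_ne_zero_of_mul (T.sgn2 h2 hab c (t0 b) (t1 b) (t0 b') (t1 b')).ne'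
  have hinj : Function.Injective pos := by
    have aux : ∀ b w, pos w = pos (.inr b) → w = .inr b := by
      intro b w hw
      by_contra hne
      obtain ⟨a, a', ha, ha'⟩ := h4.2.1 (ty b)
      by_cases c : w = .inl a
      · subst c
        exact gen a b ha (.inl a') (by simpa using ha') (by simp) (by rw [hw, ori_same])
      · exact gen a b ha w c hne (by rw [hw, ori_left])
    intro u v h
    rcases v with a' | b'
    · rcases u with a | b
      · have : T.P a = T.P a' := by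
          simp only [hpos, Sum.elim_inl, cz, Complex.mk.injEq, Int.cast_inj] at h
          exact Prod.ext h.1 h.2
        rw [h4.1 a a' this]
      · exact (aux b _ h.symm).symm
    · exact aux b' u h
  set I : Finset ((Fin m × Fin q) × (Fin m × Fin q)) := Finset.univ.filter fun i =>
    i.1.2 < i.2.2 ∧ ty i.1.2 = ty i.2.2 ∧ (i.1.1, i.2.1) ∈ T.X (ty i.2.2) with hI
  refine (straight (T.graph hn q) (T.graph_le hn q) pos hinj
    (fun a b h => gen a b ((T.graph_adj hn q a b).mp h)) I ?_).trans ?_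
  · have half : ∀ a b a' b', T.adj (ty b) a → T.adj (ty b') a' → a ≠ a' → b < b' →
        ori (pos (.inr b)) (pos (.inl a)) (pos (.inr b')) *
          ori (pos (.inr b)) (pos (.inl a)) (pos (.inl a')) < 0 →
        ori (pos (.inr b')) (pos (.inl a')) (pos (.inr b)) *
          ori (pos (.inr b')) (pos (.inl a')) (pos (.inl a)) < 0 →
        ((a, b), (a', b')) ∈ I := by
      intro a b a' b' e1 e2 na lt c1 c2
      have s1 := T.sgn1 h1 e1 na.symm (t0 b) (t1 b)
      have s2 := T.sgn1 h1 e2 na (t0 b') (t1 b')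
      simp only [hpos, Sum.elim_inl, Sum.elim_inr] at c1 c2
      by_cases c : ty b' = ty b
      · rw [c] at c1 c2 s2 e2
        rw [sgn3] at c1 c2
        have d := tlt _ _ lt
        simp only [hI, Finset.mem_filter, Finset.mem_univ, true_and, X, c]
        refine ⟨lt, na, e1, e2, ?_, ?_⟩
        · have : (T.crs (ty b) a : ℝ) * orZ (T.V (ty b)) (T.P a) (T.P a') < 0 :=
            neg_transfer (x := (tt b' - tt b) * T.crs (ty b) a) (by
              have : (T.crs (ty b) a : ℝ) ≠ 0 := by exact_mod_cast (h1 _ _ e1).1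
              nlinarith [mul_self_pos.mpr this]) s1 c1
          exact_mod_cast this
        · have : (-(T.crs (ty b) a' : ℝ)) * orZ (T.V (ty b)) (T.P a') (T.P a) < 0 :=
            neg_transfer (x := (tt b - tt b') * T.crs (ty b) a') (by
              have : (T.crs (ty b) a' : ℝ) ≠ 0 := by exact_mod_cast (h1 _ _ e2).1
              nlinarith [mul_self_pos.mpr this]) s2 c2
          have : (0 : ℝ) < (T.crs (ty b) a' : ℝ) * orZ (T.V (ty b)) (T.P a') (T.P a) := by linarith
          exact_mod_cast this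
      · exfalso
        have s3 := T.sgn2 h2 e1 c (t0 b) (t1 b) (t0 b') (t1 b')
        have s4 := T.sgn2 h2 e2 (Ne.symm c) (t0 b') (t1 b') (t0 b) (t1 b)
        have n1 := neg_transfer s3 s1 c1
        have n2 := neg_transfer s4 s2 c2
        rcases h3 _ _ e1 _ c a' na.symm e2 with h | h
        · have : (0 : ℝ) < (orZ (T.V (ty b)) (T.P a) (T.V (ty b')) : ℝ) *
            orZ (T.V (ty b)) (T.P a) (T.P a') := by exact_mod_cast h
          linarith
        · have : (0 : ℝ) < (orZ (T.V (ty b')) (T.P a') (T.V (ty b)) : ℝ) *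
            orZ (T.V (ty b')) (T.P a') (T.P a) := by exact_mod_cast h
          linarith
    intro a b a' b' e1 e2 na nb c1 c2
    rw [graph_adj] at e1 e2
    rcases lt_or_gt_of_ne nb with h | h
    · exact Or.inl (half a b a' b' e1 e2 na h c1 c2)
    · exact Or.inr (half a' b' a b e2 e1 na.symm h c2 c1)
  · have : I.card ≤ ((Finset.univ : Finset (Fin q)).sigma fun b' =>
        Finset.range (b' / n) ×ˢ T.X (ty b')).card := by
      refine Finset.card_le_card_of_injOn (fun i => ⟨i.2.2, (i.1.2 / n, (i.1.1, i.2.1))⟩) ?_ ?_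
      · rintro ⟨⟨a, b⟩, ⟨a', b'⟩⟩ hi
        simp only [hI, Finset.coe_filter, Finset.mem_univ, true_and, mem_ofPred_eq, hty,
          Fin.mk.injEq] at hi
        obtain ⟨c1, c2, c3⟩ := hi
        simp only [Finset.coe_sigma, Finset.coe_univ, mem_sigma_iff, mem_univ, Finset.coe_product,
          mem_prod, Finset.coe_range, mem_Iio, true_and]
        refine ⟨?_, c3⟩
        have e1 := Nat.div_add_mod b n
        have e2 := Nat.div_add_mod b' n
        have e3 : (b : ℕ) < b' := c1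
        refine Nat.lt_of_mul_lt_mul_left (a := n) ?_
        omega
      · rintro ⟨⟨a, b⟩, ⟨a', b'⟩⟩ hi ⟨⟨a2, b2⟩, ⟨a2', b2'⟩⟩ hi2 h
        simp only [hI, Finset.coe_filter, Finset.mem_univ, true_and, mem_ofPred_eq, hty,
          Fin.mk.injEq] at hi hi2
        simp only [Sigma.mk.injEq, heq_eq_eq, Prod.mk.injEq] at h
        obtain ⟨rfl, c, rfl, rfl⟩ := h
        have e1 := Nat.div_add_mod b n
        have e2 := Nat.div_add_mod b2 n
        have : b = b2 := Fin.ext (by rw [← e1, ← e2, c, hi.2.1, hi2.2.1])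
        rw [this]
    rw [Finset.card_sigma] at this
    have h5 : ∑ b' : Fin q, (Finset.range (b' / n) ×ˢ T.X (ty b')).card ≤
        κ * ∑ j ∈ Finset.range q, j / n := by
      rw [Finset.mul_sum, ← Fin.sum_univ_eq_sum_range (fun j => κ * (j / n))]
      refine Finset.sum_le_sum fun b _ => ?_
      rw [Finset.card_product, Finset.card_range, mul_comm]
      exact Nat.mul_le_mul_right _ (h4.2.2 _)
    exact_mod_cast this.trans h5

lemma sup_graph (T' : Tmpl m n) (hn : 0 < n) (q : ℕ) (h : ∀ τ a, T.adj τ a ∨ T'.adj τ a) :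
    T.graph hn q ⊔ T'.graph hn q = completeBipartiteGraph (Fin m) (Fin q) := by
  refine le_antisymm (sup_le (T.graph_le hn q) (T'.graph_le hn q)) ?_
  intro u v huv
  rcases u with a | b <;> rcases v with a' | b' <;> simp at huv
  · rw [SimpleGraph.sup_adj, graph_adj, graph_adj]; exact h _ _
  · rw [SimpleGraph.sup_adj, SimpleGraph.adj_comm, graph_adj, SimpleGraph.adj_comm, graph_adj]
    exact h _ _

end Tmpl

def cubeF : Fin 6 → ℤ × ℤ := ![(32, 34), (65, 69), (100, 2), (39, 61), (-2, 100), (62, 41)]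
def cubeV : Fin 8 → ℤ × ℤ :=
  ![(2, 1), (98, 99), (23, 62), (36, 75), (64, 25), (76, 38), (45, 42), (58, 55)]
def dirV : Fin 8 → ℤ × ℤ := ![(0, -1), (0, -1), (-1, 0), (0, 1), (0, 1), (0, 1), (0, -1), (0, 1)]
def dirF : Fin 6 → ℤ × ℤ := ![(0, 1), (-1, 0), (1, -1), (-1, 0), (1, -1), (-1, 0)]
def opp : Fin 6 → Fin 6 := ![1, 0, 3, 2, 5, 4]
def inc (v : Fin 8) (f : Fin 6) : Bool := (v.val / 2 ^ (f.val / 2)) % 2 == f.val % 2

def T6a : Tmpl 6 8 := ⟨cubeF, cubeV, dirV, inc⟩
def T6b : Tmpl 6 8 := ⟨fun f => cubeF (opp f), cubeV, dirV, fun v f => inc v (opp f)⟩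
def T8a : Tmpl 8 6 := ⟨cubeV, cubeF, dirF, fun f v => inc v f⟩
def T8b : Tmpl 8 6 := ⟨cubeV, fun f => cubeF (opp f), fun f => dirF (opp f), fun f v => inc v (opp f)⟩

theorem cr₂_six_le (q : ℕ) : cr₂ (completeBipartiteGraph (Fin 6) (Fin q)) ≤
    ((2 * ∑ j ∈ Finset.range q, j / 8 : ℕ) : ℕ∞) := by
  have h1 := T6a.cr_le (by norm_num) 1 (by decide +kernel) (by decide +kernel) (by decide +kernel)
    (by decide +kernel) q
  have h2 := T6b.cr_le (by norm_num) 1 (by decide +kernel) (by decide +kernel) (by decide +kernel)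
    (by decide +kernel) q
  refine (iInf₂_le_of_le _ _ (iInf_le _ (T6a.sup_graph T6b (by norm_num) q
    (by decide +kernel)))).trans ((add_le_add h1 h2).trans ?_)
  exact_mod_cast (by omega)

theorem cr₂_eight_le (q : ℕ) : cr₂ (completeBipartiteGraph (Fin 8) (Fin q)) ≤
    ((4 * ∑ j ∈ Finset.range q, j / 6 : ℕ) : ℕ∞) := by
  have h1 := T8a.cr_le (by norm_num) 2 (by decide +kernel) (by decide +kernel) (by decide +kernel)
    (by decide +kernel) q
  have h2 := T8b.cr_le (by norm_num) 2 (by decide +kernel) (by decide +kernel) (by decide +kernel)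
    (by decide +kernel) q
  refine (iInf₂_le_of_le _ _ (iInf_le _ (T8a.sup_graph T8b (by norm_num) q
    (by decide +kernel)))).trans ((add_le_add h1 h2).trans ?_)
  exact_mod_cast (by omega)

lemma sum_div_eight (q : ℕ) :
    ∑ j ∈ Finset.range q, j / 8 + 4 * (q / 8 * (q / 8 + 1)) = q / 8 * q := by
  induction q with
  | zero => simp
  | succ q ih =>
    rw [Finset.sum_range_succ]
    by_cases c : (q + 1) / 8 = q / 8
    · rw [c]; nlinarith
    · have e1 : (q + 1) / 8 = q / 8 + 1 := by omega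
      have e2 : q + 1 = 8 * (q / 8 + 1) := by omega
      rw [e1]
      generalize q / 8 = k at *
      nlinarith

lemma sum_div_six (q : ℕ) :
    ∑ j ∈ Finset.range q, j / 6 + 3 * (q / 6 * (q / 6 + 1)) = q / 6 * q := by
  induction q with
  | zero => simp
  | succ q ih =>
    rw [Finset.sum_range_succ]
    by_cases c : (q + 1) / 6 = q / 6
    · rw [c]; nlinarith
    · have e1 : (q + 1) / 6 = q / 6 + 1 := by omega
      have e2 : q + 1 = 6 * (q / 6 + 1) := by omega
      rw [e1]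
      generalize q / 6 = k at *
      nlinarith

end Pool.Agent.Lib.MP_d3b8e5_co
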