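import Mathlib

/-!
The free product of countably many copies of the group of order two, as reduced words.
Words are stored with the last letter at the head of the list.
-/

set_option autoImplicit false

namespace Pool.Agent.Lib.MP_d3b8e5_co

open Filter

def tog (i : ℕ) : List ℕ → List ℕ
  | [] => [i]
  | j :: L => if i = j then L else i :: j :: L

abbrev Red (L : List ℕ) : Prop := L.IsChain (· ≠ ·)

lemma red_tog {L : List ℕ} (i : ℕ) (h : Red L) : Red (tog i L) := by
  cases L with
  | nil => simp [tog]
  | cons j L =>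
    simp only [tog]
    split_ifs with hij
    · exact h.tail
    · exact List.IsChain.cons_cons hij h

lemma tog_tog {L : List ℕ} (i : ℕ) (h : Red L) : tog i (tog i L) = L := by
  cases L with
  | nil => simp [tog]
  | cons j L =>
    by_cases hij : i = j
    · subst hij
      cases L with
      | nil => simp [tog]
      | cons k L =>
        have : i ≠ k := (List.isChain_cons_cons.mp h).1
        simp [tog, this]
    · simp [tog, hij]

def act (v L : List ℕ) : List ℕ := v.foldr tog L

lemma red_act (v : List ℕ) {L : List ℕ} (h : Red L) : Red (act v L) := by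
  induction v with
  | nil => exact h
  | cons i v ih => exact red_tog i ih

lemma act_tog (i : ℕ) (v : List ℕ) {L : List ℕ} (h : Red L) :
    act (tog i v) L = tog i (act v L) := by
  cases v with
  | nil => rfl
  | cons j v =>
    by_cases hij : i = j
    · subst hij
      have : act (i :: v) L = tog i (act v L) := rfl
      rw [this, tog_tog i (red_act v h)]
      simp [tog]
    · simp only [tog, hij, if_false]; rfl

lemma act_nil {v : List ℕ} (h : Red v) : act v [] = v := by
  induction v with
  | nil => rfl
  | cons i v ih =>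
    have : act (i :: v) [] = tog i (act v []) := rfl
    rw [this, ih h.tail]
    cases v with
    | nil => rfl
    | cons k v =>
      have : i ≠ k := (List.isChain_cons_cons.mp h).1
      simp [tog, this]

lemma act_act (w v : List ℕ) {L : List ℕ} (h : Red L) : act (act w v) L = act w (act v L) := by
  induction w with
  | nil => rfl
  | cons i w ih =>
    have e1 : act (i :: w) v = tog i (act w v) := rfl
    have e2 : act (i :: w) (act v L) = tog i (act w (act v L)) := rfl
    rw [e1, e2, act_tog i _ h, ih]

lemma act_reverse (v : List ℕ) {L : List ℕ} (h : Red L) : act v (act v.reverse L) = L := by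
  induction v generalizing L with
  | nil => rfl
  | cons i v ih =>
    have e1 : act (i :: v).reverse L = act v.reverse (tog i L) := by
      simp [act, List.foldr_append]
    have e2 : ∀ X, act (i :: v) X = tog i (act v X) := fun _ => rfl
    rw [e1, e2, ih (red_tog i h), tog_tog i h]

lemma red_reverse {v : List ℕ} (h : Red v) : Red v.reverse := by
  unfold Red
  rw [List.isChain_reverse]
  exact h.imp fun a b hab => Ne.symm hab

@[ext] structure W where
  l : List ℕ
  red : Red l

instance : DecidableEq W := fun a b => decidable_of_iff (a.l = b.l) W.ext_iff.symm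

instance : Mul W := ⟨fun u v => ⟨act v.l u.l, red_act _ u.red⟩⟩
instance : One W := ⟨⟨[], List.IsChain.nil⟩⟩
instance : Inv W := ⟨fun u => ⟨u.l.reverse, red_reverse u.red⟩⟩

lemma W.mul_l (u v : W) : (u * v).l = act v.l u.l := rfl
lemma W.one_l : (1 : W).l = [] := rfl
lemma W.inv_l (u : W) : (u⁻¹).l = u.l.reverse := rfl

instance : Group W := Group.ofLeftAxioms
  (fun a b c => W.ext (act_act c.l b.l a.red).symm)
  (fun a => W.ext (act_nil a.red))
  (fun a => W.ext (by
    rw [W.mul_l, W.inv_l, W.one_l]
    conv_lhs => rw [← act_nil (red_reverse a.red)]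
    exact act_reverse a.l List.IsChain.nil))

/-- The generators. -/
def s (i : ℕ) : W := ⟨[i], List.IsChain.singleton i⟩

lemma mul_s_l (u : W) (i : ℕ) : (u * s i).l = tog i u.l := rfl

@[simp] lemma s_mul_s (i : ℕ) : s i * s i = 1 := W.ext (by rw [mul_s_l]; simp [s, tog, W.one_l])

@[simp] lemma s_inv (i : ℕ) : (s i)⁻¹ = s i := W.ext rfl

lemma mul_s_mul_s (u : W) (i : ℕ) : u * s i * s i = u := by rw [mul_assoc, s_mul_s, mul_one]

/-- The first letter of a word. -/
def first (u : W) : Option ℕ := u.l.getLast?

lemma first_inv (u : W) : first u⁻¹ = u.l.head? := by simp [first, W.inv_l]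

@[simp] lemma first_one : first 1 = none := rfl

@[simp] lemma first_s (i : ℕ) : first (s i) = some i := rfl

lemma eq_one_iff (u : W) : u = 1 ↔ u.l = [] := ⟨fun h => h ▸ rfl, fun h => W.ext h⟩

lemma first_mul_s (u : W) (j : ℕ) (h1 : u ≠ 1) (h2 : u * s j ≠ 1) : first (u * s j) = first u := by
  rw [Ne, eq_one_iff] at h1 h2
  unfold first
  rw [mul_s_l] at *
  cases hu : u.l with
  | nil => exact absurd hu h1
  | cons k L =>
    rw [hu] at h2
    by_cases hjk : j = k
    · simp only [tog, hjk, if_true] at h2 ⊢
      cases L with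
      | nil => exact absurd rfl h2
      | cons a L => simp [List.getLast?_cons_cons]
    · simp [tog, hjk, List.getLast?_cons_cons]

lemma head_tog {M : List ℕ} (i : ℕ) (h : Red M) : (tog i M).head? = some i ↔ M.head? ≠ some i := by
  cases M with
  | nil => simp [tog]
  | cons k M =>
    by_cases hik : i = k
    · subst hik
      cases M with
      | nil => simp [tog]
      | cons a M =>
        have : i ≠ a := (List.isChain_cons_cons.mp h).1
        simp [tog, this.symm]
    · simp [tog, hik, Ne.symm hik]

lemma first_s_mul (u : W) (i : ℕ) : first (s i * u) = some i ↔ first u ≠ some i := by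
  have e1 : s i * u = (u⁻¹ * s i)⁻¹ := by simp
  have e2 : first u = (u⁻¹).l.head? := by rw [← first_inv, inv_inv]
  rw [e1, first_inv, mul_s_l, e2]
  exact head_tog i u⁻¹.red

/-- Telescoping step. -/
lemma first_step (F : Option ℕ → ZMod 2) (hF : F none = 0) (c w : W) (j : ℕ) :
    F (first (c⁻¹ * (w * s j))) + F (first (c⁻¹ * w)) =
      F (some j) * ((if w = c then 1 else 0) + (if w * s j = c then 1 else 0)) := by
  have hne : ∀ u : W, u * s j ≠ u := by
    intro u h
    have : s j = 1 := by simpa using h
    have := congrArg first this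
    simp at this
  by_cases h1 : w = c
  · subst h1
    simp [hne, hF]
  · by_cases h2 : w * s j = c
    · subst h2
      have : (w * s j)⁻¹ * w = s j := by simp
      simp [h1, hF]
    · have : first (c⁻¹ * w * s j) = first (c⁻¹ * w) := by
        apply first_mul_s
        · intro h; apply h1; exact (inv_mul_eq_one.mp h).symm
        · intro h; apply h2; rw [mul_assoc] at h; exact (inv_mul_eq_one.mp h).symm
      rw [← mul_assoc, this]
      simp [h1, h2, CharTwo.add_self_eq_zero]

/-- Parity of the length. -/
def par (u : W) : ZMod 2 := (u.l.length : ZMod 2)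

lemma length_tog (i : ℕ) (L : List ℕ) : ((tog i L).length : ZMod 2) = L.length + 1 := by
  cases L with
  | nil => simp [tog]
  | cons k L =>
    by_cases h : i = k
    · simp only [tog, h, if_true, List.length_cons]
      push_cast
      rw [add_assoc, CharTwo.add_self_eq_zero, add_zero]
    · simp [tog, h]

lemma par_mul (u v : W) : par (u * v) = par u + par v := by
  unfold par
  rw [W.mul_l]
  induction v.l with
  | nil => simp [act]
  | cons i L ih =>
    have : act (i :: L) u.l = tog i (act L u.l) := rfl
    rw [this, length_tog, ih]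
    simp [add_assoc]

@[simp] lemma par_one : par 1 = 0 := by simp [par, W.one_l]

@[simp] lemma par_s (i : ℕ) : par (s i) = 1 := by simp [par, s]

lemma par_inv (u : W) : par u⁻¹ = par u := by simp [par, W.inv_l]

/-- A walk whose letters eventually never repeat eventually only grows. -/
lemma eventually_cons (w : ℕ → W) (ℓ : ℕ → ℕ) (hw : ∀ n, w (n + 1) = w n * s (ℓ n))
    (hℓ : ∀ᶠ n in atTop, ℓ n ≠ ℓ (n + 1)) :
    ∀ᶠ n in atTop, (w (n + 1)).l = ℓ n :: (w n).l := by
  obtain ⟨K, hK⟩ := eventually_atTop.mp hℓ
  have dich : ∀ n, (w (n + 1)).l = ℓ n :: (w n).l ∨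
      (w (n + 1)).l.length + 1 = (w n).l.length := by
    intro n
    rw [hw, mul_s_l]
    cases (w n).l with
    | nil => left; rfl
    | cons k L =>
      by_cases h : ℓ n = k
      · right; simp [tog, h]
      · left; simp [tog, h]
  have pers : ∀ n, K ≤ n → (w (n + 1)).l = ℓ n :: (w n).l →
      (w (n + 2)).l = ℓ (n + 1) :: (w (n + 1)).l := by
    intro n hn h
    rw [hw (n + 1), mul_s_l, h]
    simp [tog, (hK n hn).symm]
  have ex : ∃ n, K ≤ n ∧ (w (n + 1)).l = ℓ n :: (w n).l := by
    by_contra hcon
    push Not at hcon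
    have : ∀ d, (w (K + d)).l.length + d = (w K).l.length := by
      intro d
      induction d with
      | zero => simp
      | succ d ih =>
        have := (dich (K + d)).resolve_left (hcon _ (Nat.le_add_right _ _))
        have e : K + (d + 1) = K + d + 1 := rfl
        rw [e]; omega
    have := this ((w K).l.length + 1)
    omega
  obtain ⟨n0, hn0, h0⟩ := ex
  refine eventually_atTop.mpr ⟨n0, fun n hn => ?_⟩
  induction n, hn using Nat.le_induction with
  | base => exact h0
  | succ n hn ih => exact pers n (hn0.trans hn) ih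

lemma eventually_ne (w : ℕ → W) (ℓ : ℕ → ℕ) (hw : ∀ n, w (n + 1) = w n * s (ℓ n))
    (hℓ : ∀ᶠ n in atTop, ℓ n ≠ ℓ (n + 1)) (z : W) : ∀ᶠ n in atTop, w n ≠ z := by
  have h := eventually_cons (fun n => z⁻¹ * w n) ℓ (fun n => by rw [hw, mul_assoc]) hℓ
  obtain ⟨K, hK⟩ := eventually_atTop.mp h
  refine eventually_atTop.mpr ⟨K + 1, fun n hn => ?_⟩
  obtain ⟨n, rfl⟩ : ∃ m, n = m + 1 := ⟨n - 1, by omega⟩
  intro hz
  have := hK n (by omega)
  simp only [hz, inv_mul_cancel, W.one_l] at this
  exact absurd this (by simp)

lemma exists_dir (w : ℕ → W) (ℓ : ℕ → ℕ) (hw : ∀ n, w (n + 1) = w n * s (ℓ n))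
    (hℓ : ∀ᶠ n in atTop, ℓ n ≠ ℓ (n + 1)) (c : W) :
    ∃ i, ∀ᶠ n in atTop, first (c⁻¹ * w n) = some i := by
  obtain ⟨K, hK⟩ := eventually_atTop.mp (eventually_ne w ℓ hw hℓ c)
  have hne : ∀ n, K ≤ n → c⁻¹ * w n ≠ 1 := fun n hn h => hK n hn (inv_mul_eq_one.mp h).symm
  obtain ⟨i, hi⟩ : ∃ i, first (c⁻¹ * w K) = some i := by
    have := hne K le_rfl
    rw [Ne, eq_one_iff] at this
    exact ⟨_, List.getLast?_eq_some_getLast this⟩
  refine ⟨i, eventually_atTop.mpr ⟨K, fun n hn => ?_⟩⟩
  induction n, hn using Nat.le_induction with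
  | base => exact hi
  | succ n hn ih =>
    rw [← ih, hw, ← mul_assoc]
    apply first_mul_s _ _ (hne n hn)
    rw [mul_assoc, ← hw]
    exact hne _ (by omega)

/-- Walking away from an end makes it point back. -/
lemma exists_two_sides {c c' : W} (h : c ≠ c') : ∃ i j : ℕ, ∀ D : W → Option ℕ,
    (∀ c i, D c ≠ some i → D (c * s i) = some i) → D c ≠ some i → D c' = some j := by
  obtain ⟨u, rfl⟩ : ∃ u, c' = c * u := ⟨c⁻¹ * c', by simp⟩
  have hu : u.l ≠ [] := by
    intro h0
    apply h
    rw [(eq_one_iff u).mpr h0, mul_one]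
  obtain ⟨L, hL⟩ := u
  simp only at hu
  suffices H : ∃ i, ∃ j, L.head? = some j ∧ ∀ D : W → Option ℕ,
      (∀ c i, D c ≠ some i → D (c * s i) = some i) → D c ≠ some i → D (c * ⟨L, hL⟩) = some j by
    obtain ⟨i, j, -, H⟩ := H
    exact ⟨i, j, H⟩
  clear h
  induction L with
  | nil => exact absurd rfl hu
  | cons j L ih =>
    cases L with
    | nil => exact ⟨j, j, rfl, fun D hD h => hD c j h⟩
    | cons k L =>
      obtain ⟨i, j', hj', H⟩ := ih hL.tail (by simp)
      have hjk : j ≠ k := (List.isChain_cons_cons.mp hL).1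
      refine ⟨i, j, rfl, fun D hD h => ?_⟩
      have e : (⟨j :: k :: L, hL⟩ : W) = ⟨k :: L, hL.tail⟩ * s j :=
        W.ext (by rw [mul_s_l]; simp [tog, hjk])
      rw [e, ← mul_assoc]
      apply hD
      rw [H D hD h]
      simp only [List.head?_cons, Option.some.injEq] at hj'
      simp [← hj', hjk.symm]

end Pool.Agent.Lib.MP_d3b8e5_co
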